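import Pool.Agent.Lib.MP_9dbb0e_al.GT.B3g

/-!
# Artin groups with three generators: homomorphisms
-/

set_option autoImplicit false

namespace Pool.Agent.Lib.MP_9dbb0e_al.GT

section

variable {B : Type} (M : CoxeterMatrix B) {a b c : B}

/-- Homomorphisms from Artin groups with three generators. -/
theorem lift3 (hab : a ≠ b) (hac : a ≠ c) (hbc : b ≠ c) (hu : ∀ i, i = a ∨ i = b ∨ i = c)
    {G : Type*} [Group G] (x y z : G)
    (h1 : M.M a b ≠ 0 → alt x y (M.M a b) = alt y x (M.M a b))
    (h2 : M.M a c ≠ 0 → alt x z (M.M a c) = alt z x (M.M a c))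
    (h3 : M.M b c ≠ 0 → alt y z (M.M b c) = alt z y (M.M b c)) :
    ∃ F : Art M →* G, F (σ M a) = x ∧ F (σ M b) = y ∧ F (σ M c) = z := by
  classical
  obtain ⟨f, fa, fb, fc⟩ : ∃ f : B → G, f a = x ∧ f b = y ∧ f c = z := by
    refine ⟨fun i => if i = a then x else if i = b then y else z, if_pos rfl, ?_, ?_⟩
    · show (if b = a then x else if b = b then y else z) = y
      rw [if_neg hab.symm, if_pos rfl]
    · show (if c = a then x else if c = b then y else z) = z
      rw [if_neg hac.symm, if_neg hbc.symm]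
  have hs : ∀ i j, M.M i j = M.M j i := fun i j => M.symmetric i j
  obtain ⟨F, hF⟩ := exists_lift M f (by
    intro i j hij h0
    rcases hu i with hi | hi | hi <;> rcases hu j with hj | hj | hj
    · exact absurd (hi.trans hj.symm) hij
    · rw [hi, hj] at h0 ⊢
      rw [fa, fb]
      exact h1 h0
    · rw [hi, hj] at h0 ⊢
      rw [fa, fc]
      exact h2 h0
    · rw [hi, hj] at h0 ⊢
      rw [fa, fb, hs b a]
      exact (h1 (by rw [hs a b]; exact h0)).symm
    · exact absurd (hi.trans hj.symm) hij
    · rw [hi, hj] at h0 ⊢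
      rw [fb, fc]
      exact h3 h0
    · rw [hi, hj] at h0 ⊢
      rw [fa, fc, hs c a]
      exact (h2 (by rw [hs a c]; exact h0)).symm
    · rw [hi, hj] at h0 ⊢
      rw [fb, fc, hs c b]
      exact (h3 (by rw [hs b c]; exact h0)).symm
    · exact absurd (hi.trans hj.symm) hij)
  exact ⟨F, by rw [hF, fa], by rw [hF, fb], by rw [hF, fc]⟩

theorem closure3 (hu : ∀ i, i = a ∨ i = b ∨ i = c) :
    Subgroup.closure ({σ M a, σ M b, σ M c} : Set (Art M)) = ⊤ := by
  rw [← art_closure]
  congr 1
  ext x
  constructor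
  · rintro (rfl | rfl | hx)
    · exact ⟨_, rfl⟩
    · exact ⟨_, rfl⟩
    · rw [Set.mem_singleton_iff] at hx
      exact ⟨_, hx.symm⟩
  · rintro ⟨i, rfl⟩
    rcases hu i with rfl | rfl | rfl
    · exact Or.inl rfl
    · exact Or.inr (Or.inl rfl)
    · exact Or.inr (Or.inr rfl)

/-- relations with the label `2` -/
theorem rel_two (hab : a ≠ b) (h : M.M a b = 2) : σ M a * σ M b = σ M b * σ M a := by
  have h1 := braid M a b hab (by rw [h]; decide)
  rwa [h, alt_two, alt_two] at h1

/-- relations with the label `3` -/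
theorem rel_three (hab : a ≠ b) (h : M.M a b = 3) :
    σ M a * σ M b * σ M a = σ M b * σ M a * σ M b := by
  have h1 := braid M a b hab (by rw [h]; decide)
  rwa [h, alt_three, alt_three] at h1

/-- relations with the label `4` -/
theorem rel_four (hab : a ≠ b) (h : M.M a b = 4) :
    σ M a * σ M b * σ M a * σ M b = σ M b * σ M a * σ M b * σ M a := by
  have h1 := braid M a b hab (by rw [h]; decide)
  rwa [h, alt_four, alt_four] at h1

/-- relations with the label `6` -/
theorem rel_six (hab : a ≠ b) (h : M.M a b = 6) :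
    σ M a * σ M b * σ M a * σ M b * σ M a * σ M b = σ M b * σ M a * σ M b * σ M a * σ M b * σ M a := by
  have h1 := braid M a b hab (by rw [h]; decide)
  rwa [h, alt_six, alt_six] at h1

end

end Pool.Agent.Lib.MP_9dbb0e_al.GT
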