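import Pool.Agent.Lib.MP_9dbb0e_al.GT.G2c

/-!
# The structure of the Artin group of type `G₂~`: the kernel of the retraction is contained in the subgroup
-/

set_option autoImplicit false

namespace Pool.Agent.Lib.MP_9dbb0e_al.GT

section

variable {A : Type*} [Group A] {a b c : A}

/-- Conjugation with the letters preserves the subgroup. -/
theorem Ns_conj (hab : a * b * a = b * a * b) (hac : a * c = c * a)
    (hbc : b * c * b * c * b * c = c * b * c * b * c * b) (s : ℕ × Bool) (hs : s.1 < 2) :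
    ∀ n ∈ Ns a b c, lt (gg a b) s * n * (lt (gg a b) s)⁻¹ ∈ Ns a b c := by
  intro n hn
  unfold Ns at hn
  induction hn using Subgroup.closure_induction with
  | mem x hx =>
    obtain ⟨i, rfl⟩ := hx
    refine Fin.cases ?_ (fun j => ?_) i
    · have h : Commute (Z a b) (lt (gg a b) s) := by
        have h1 := Z_ev hab [s]
        rwa [ev_single] at h1
      have e : lt (gg a b) s * Z a b * (lt (gg a b) s)⁻¹ = Z a b := by
        rw [← h.eq, mul_inv_cancel_right]
      show lt (gg a b) s * Z a b * (lt (gg a b) s)⁻¹ ∈ Ns a b c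
      rw [e]
      exact Z_mem
    · show lt (gg a b) s * Y a b c (bs j) * (lt (gg a b) s)⁻¹ ∈ Ns a b c
      rw [← Y_cons]
      exact conj_bs hab hac hbc s hs j
  | one => simp
  | mul x y _ _ hx hy =>
    have e : lt (gg a b) s * (x * y) * (lt (gg a b) s)⁻¹ =
        (lt (gg a b) s * x * (lt (gg a b) s)⁻¹) * (lt (gg a b) s * y * (lt (gg a b) s)⁻¹) := by group
    rw [e]
    exact Subgroup.mul_mem _ hx hy
  | inv x _ hx =>
    have e : lt (gg a b) s * x⁻¹ * (lt (gg a b) s)⁻¹ = (lt (gg a b) s * x * (lt (gg a b) s)⁻¹)⁻¹ := by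
      group
    rw [e]
    exact Subgroup.inv_mem _ hx

theorem Y_mem (hab : a * b * a = b * a * b) (hac : a * c = c * a)
    (hbc : b * c * b * c * b * c = c * b * c * b * c * b) (w : Wd) (hw : ∀ s ∈ w, s.1 < 2) :
    Y a b c w ∈ Ns a b c := by
  induction w with
  | nil => exact cu_inf
  | cons s w ih =>
    rw [Y_cons]
    exact Ns_conj hab hac hbc s (hw s List.mem_cons_self) _
      (ih fun q hq => hw q (List.mem_cons_of_mem _ hq))

/-- Every element is the product of an element of the subgroup and a word in `a, b`. -/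
theorem g2_rep (hab : a * b * a = b * a * b) (hac : a * c = c * a)
    (hbc : b * c * b * c * b * c = c * b * c * b * c * b)
    (hgen : Subgroup.closure ({a, b, c} : Set A) = ⊤) (g : A) :
    ∃ n ∈ Ns a b c, ∃ w : Wd, (∀ s ∈ w, s.1 < 2) ∧ g = n * ev (gg a b) w := by
  have hg : g ∈ Subgroup.closure ({a, b, c} : Set A) := by rw [hgen]; exact Subgroup.mem_top g
  have letter : ∀ (x : A) (s : ℕ × Bool), s.1 < 2 →
      (∃ n ∈ Ns a b c, ∃ w : Wd, (∀ s ∈ w, s.1 < 2) ∧ x = n * ev (gg a b) w) →
      ∃ n ∈ Ns a b c, ∃ w : Wd, (∀ s ∈ w, s.1 < 2) ∧ x * lt (gg a b) s = n * ev (gg a b) w := by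
    rintro x s hs ⟨n, hn, w, hw, rfl⟩
    refine ⟨n, hn, w ++ [s], ?_, ?_⟩
    · intro q hq
      rw [List.mem_append, List.mem_singleton] at hq
      rcases hq with hq | rfl
      · exact hw q hq
      · exact hs
    · rw [ev_append, ev_single, mul_assoc]
  have hy : ∀ w : Wd, (∀ s ∈ w, s.1 < 2) → ev (gg a b) w * (c * (a * a * a)⁻¹) =
      Y a b c w * ev (gg a b) w := by
    intro w _
    unfold Y
    group
  induction hg using Subgroup.closure_induction_right with
  | one => exact ⟨1, Subgroup.one_mem _, [], by simp, by rw [ev_nil, mul_one]⟩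
  | mul_right x _ y hy' ih =>
    rcases hy' with rfl | rfl | hy'
    · exact letter x (0, true) (by decide) ih
    · exact letter x (1, true) (by decide) ih
    · rw [Set.mem_singleton_iff] at hy'
      subst hy'
      obtain ⟨n, hn, w, hw, rfl⟩ := ih
      have h1 : n * ev (gg a b) w * y = (n * Y a b y w * ev (gg a b) w) * (a * a * a) := by
        have e : n * ev (gg a b) w * y = n * (ev (gg a b) w * (y * (a * a * a)⁻¹)) * (a * a * a) := by
          group
        rw [e, hy w hw]
        group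
      rw [h1, ← mul_assoc, ← mul_assoc]
      exact letter _ (0, true) (by decide) (letter _ (0, true) (by decide) (letter _ (0, true)
        (by decide) ⟨n * Y a b y w, Subgroup.mul_mem _ hn (Y_mem hab hac hbc w hw), w, hw, rfl⟩))
  | mul_inv_cancel x _ y hy' ih =>
    rcases hy' with rfl | rfl | hy'
    · exact letter x (0, false) (by decide) ih
    · exact letter x (1, false) (by decide) ih
    · rw [Set.mem_singleton_iff] at hy'
      subst hy'
      obtain ⟨n, hn, w, hw, rfl⟩ := ih
      have h0 : y⁻¹ = (y * (a * a * a)⁻¹)⁻¹ * a⁻¹ * a⁻¹ * a⁻¹ := by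
        have h2 : Commute a (y * (a * a * a)⁻¹) := a_y hac
        have h3 : Commute (a * a * a) (y * (a * a * a)⁻¹) := (h2.mul_left h2).mul_left h2
        have h4 : y = (a * a * a) * (y * (a * a * a)⁻¹) := by
          rw [h3.eq]
          group
        have h5 : y⁻¹ = ((a * a * a) * (y * (a * a * a)⁻¹))⁻¹ := by rw [← h4]
        rw [h5]
        group
      have h1 : n * ev (gg a b) w * y⁻¹ =
          (n * (Y a b y w)⁻¹ * ev (gg a b) w) * a⁻¹ * a⁻¹ * a⁻¹ := by
        have h2 : ev (gg a b) w * (y * (a * a * a)⁻¹)⁻¹ = (Y a b y w)⁻¹ * ev (gg a b) w := by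
          unfold Y
          group
        rw [h0]
        have e : n * ev (gg a b) w * ((y * (a * a * a)⁻¹)⁻¹ * a⁻¹ * a⁻¹ * a⁻¹) =
            n * (ev (gg a b) w * (y * (a * a * a)⁻¹)⁻¹) * a⁻¹ * a⁻¹ * a⁻¹ := by group
        rw [e, h2]
        group
      rw [h1]
      exact letter _ (0, false) (by decide) (letter _ (0, false) (by decide) (letter _ (0, false)
        (by decide) ⟨n * (Y a b y w)⁻¹, Subgroup.mul_mem _ hn (Subgroup.inv_mem _
          (Y_mem hab hac hbc w hw)), w, hw, rfl⟩))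

/-- The kernel of the retraction `c ↦ a^3` to the braid group is contained in the subgroup. -/
theorem g2_ker (hab : a * b * a = b * a * b) (hac : a * c = c * a)
    (hbc : b * c * b * c * b * c = c * b * c * b * c * b)
    (hgen : Subgroup.closure ({a, b, c} : Set A) = ⊤) (Φ : A →* Art (CoxeterMatrix.A 2))
    (ha : Φ a = sA 2 0) (hb : Φ b = sA 2 1) (hc : Φ c = Φ a * Φ a * Φ a) (g : A) (hg : Φ g = 1) :
    g ∈ Ns a b c := by
  obtain ⟨n, hn, w, hw, rfl⟩ := g2_rep hab hac hbc hgen g
  have hev : ∀ w : Wd, (∀ s ∈ w, s.1 < 2) → Φ (ev (gg a b) w) = ev (sA 2) w := by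
    intro w hw
    rw [map_ev]
    refine ev_congr fun s hs => ?_
    have h := hw s hs
    have h' : s.1 = 0 ∨ s.1 = 1 := by omega
    rcases h' with h' | h'
    · rw [h', gg_zero, ha]
    · rw [h', gg_one, hb]
  have hy : Φ (c * (a * a * a)⁻¹) = 1 := by
    rw [map_mul, map_inv, map_mul, map_mul, hc, mul_inv_cancel]
  have hN : Ns a b c ≤ (Subgroup.zpowers (Φ (Z a b))).comap Φ := by
    unfold Ns
    rw [Subgroup.closure_le]
    rintro x ⟨i, rfl⟩
    refine Fin.cases ?_ (fun j => ?_) i
    · exact Subgroup.mem_zpowers _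
    · show Φ (Y a b c (bs j)) ∈ Subgroup.zpowers (Φ (Z a b))
      have e : Φ (Y a b c (bs j)) = 1 := by
        unfold Y
        rw [map_mul, map_mul, hy, mul_one, map_inv, mul_inv_cancel]
      rw [e]
      exact Subgroup.one_mem _
  obtain ⟨k, hk⟩ := Subgroup.mem_zpowers_iff.1 (hN hn)
  obtain ⟨Ψ, hΨ⟩ := lift_A 2 (fun i : Fin 2 => gg a b i) (by
    intro i j hij
    fin_cases i <;> fin_cases j
    · simp at hij
    · exact hab
    · simp at hij
    · simp at hij) (by
    intro i j hij
    fin_cases i <;> fin_cases j <;> simp at hij)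
  have hΨev : ∀ w : Wd, (∀ s ∈ w, s.1 < 2) → Ψ (ev (sA 2) w) = ev (gg a b) w := by
    intro w hw
    rw [map_ev]
    refine ev_congr fun s hs => ?_
    rw [sA_lt (hw s hs), hΨ]
  have hzw : ∀ s ∈ zw, s.1 < 2 := by decide
  have h1 : Φ (Z a b) ^ k * ev (sA 2) w = 1 := by
    rw [hk, ← hev w hw, ← map_mul]
    exact hg
  have h2 : Ψ (Φ (Z a b)) = Z a b := by
    unfold Z
    rw [hev zw hzw, hΨev zw hzw]
  have h3 := congrArg Ψ h1
  rw [map_mul, map_zpow, h2, hΨev w hw, map_one] at h3
  have h4 : ev (gg a b) w = (Z a b ^ k)⁻¹ := eq_inv_of_mul_eq_one_right h3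
  rw [h4]
  exact Subgroup.mul_mem _ hn (Subgroup.inv_mem _ (Subgroup.zpow_mem _ Z_mem k))

end

end Pool.Agent.Lib.MP_9dbb0e_al.GT
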