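import Pool.Agent.Lib.MP_9dbb0e_al.GT.Wd

/-!
# The Artin representation of the braid group on three strands is faithful

`σ 0 ^ 2` and `σ 1⁻¹ σ 0 ^ 2 σ 1` generate a free group `U`, normalised by `σ 1`; the group is the union of
`U ⟨σ 1⟩`, `U ⟨σ 1⟩ σ 0` and `U ⟨σ 1⟩ σ 0 σ 1`.
-/

set_option autoImplicit false

namespace Pool.Agent.Lib.MP_9dbb0e_al.GT

open FreeGroup (of)

/-- An element which conjugates generators into the subgroup, in both directions, normalises it. -/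
theorem mem_normalizer_of {G : Type*} [Group G] (S : Set G) (g : G)
    (h1 : ∀ x ∈ S, g * x * g⁻¹ ∈ Subgroup.closure S)
    (h2 : ∀ x ∈ S, g⁻¹ * x * g ∈ Subgroup.closure S) (u : G) :
    u ∈ Subgroup.closure S ↔ g * u * g⁻¹ ∈ Subgroup.closure S := by
  have key : ∀ g : G, (∀ x ∈ S, g * x * g⁻¹ ∈ Subgroup.closure S) → ∀ u ∈ Subgroup.closure S,
      g * u * g⁻¹ ∈ Subgroup.closure S := by
    intro g hg u hu
    induction hu using Subgroup.closure_induction with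
    | mem x hx => exact hg x hx
    | one => simp
    | mul x y _ _ hx hy =>
      have e : g * (x * y) * g⁻¹ = (g * x * g⁻¹) * (g * y * g⁻¹) := by group
      rw [e]
      exact Subgroup.mul_mem _ hx hy
    | inv x _ hx =>
      have e : g * x⁻¹ * g⁻¹ = (g * x * g⁻¹)⁻¹ := by group
      rw [e]
      exact Subgroup.inv_mem _ hx
  refine ⟨key g h1 u, fun h => ?_⟩
  have h3 := key g⁻¹ (fun x hx => by rw [inv_inv]; exact h2 x hx) _ h
  have e : g⁻¹ * (g * u * g⁻¹) * g⁻¹⁻¹ = u := by group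
  rwa [e] at h3

theorem zpow_conj_mem {G : Type*} [Group G] {U : Subgroup G} {t : G}
    (h : ∀ u, u ∈ U ↔ t * u * t⁻¹ ∈ U) (k : ℤ) : ∀ u ∈ U, t ^ k * u * (t ^ k)⁻¹ ∈ U := by
  have h1 : t ∈ Subgroup.normalizer (U : Set G) := by
    rw [Subgroup.mem_normalizer_iff]
    exact h
  have h2 := Subgroup.zpow_mem _ h1 k
  rw [Subgroup.mem_normalizer_iff] at h2
  exact fun u hu => (h2 u).1 hu

section

variable {G : Type*} [Group G] {s t : G}

theorem b3_one (h : s * t * s = t * s * t) : s * t * t * s⁻¹ = t⁻¹ * (s * s) * t := by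
  rw [mul_inv_eq_iff_eq_mul, ← mul_right_inj t]
  calc t * (s * t * t) = (t * s * t) * t := by group
    _ = (s * t * s) * t := by rw [h]
    _ = s * (t * s * t) := by group
    _ = s * (s * t * s) := by rw [h]
    _ = t * (t⁻¹ * (s * s) * t * s) := by group

theorem b3_two (h : s * t * s = t * s * t) :
    t * (s * s) * t⁻¹ = (s * s)⁻¹ * (t⁻¹ * (s * s) * t) * (s * s) := by
  rw [← b3_one h, mul_inv_eq_iff_eq_mul, ← mul_right_inj s]
  calc s * (t * (s * s)) = (s * t * s) * s := by group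
    _ = (t * s * t) * s := by rw [h]
    _ = t * (s * t * s) := by group
    _ = t * (t * s * t) := by rw [h]
    _ = s * ((s * s)⁻¹ * (s * t * t * s⁻¹) * (s * s) * t) := by group

theorem b3_three (h : s * t * s = t * s * t) :
    t⁻¹ * (t⁻¹ * (s * s) * t) * t = (t⁻¹ * (s * s) * t) * (s * s) * (t⁻¹ * (s * s) * t)⁻¹ := by
  have h1 := b3_two h
  obtain ⟨q, hq⟩ : ∃ q, q = t⁻¹ * (s * s) * t := ⟨_, rfl⟩
  have h2 : s * s = t * q * t⁻¹ := by rw [hq]; group
  rw [← hq] at h1 ⊢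
  have h3 : t * (s * s) * t⁻¹ = (s * s)⁻¹ * q * (s * s) := h1
  have h4 : s * s = q⁻¹ * (t⁻¹ * q * t) * q := by
    have e1 : s * s = t⁻¹ * (t * (s * s) * t⁻¹) * t := by group
    rw [e1, h3]
    have e2 : t⁻¹ * ((s * s)⁻¹ * q * (s * s)) * t =
        (t⁻¹ * (s * s) * t)⁻¹ * (t⁻¹ * q * t) * (t⁻¹ * (s * s) * t) := by group
    rw [e2, ← hq]
  calc t⁻¹ * q * t = q * (q⁻¹ * (t⁻¹ * q * t) * q) * q⁻¹ := by group
    _ = q * (s * s) * q⁻¹ := by rw [← h4]

/-- The representatives. -/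
def b3c (s t : G) (j : Fin 3) : G := if j = 0 then 1 else if j = 1 then s else s * t

theorem b3_rep (h : s * t * s = t * s * t) (hgen : Subgroup.closure ({s, t} : Set G) = ⊤) (g : G) :
    ∃ u ∈ Subgroup.closure ({s * s, t⁻¹ * (s * s) * t} : Set G), ∃ (k : ℤ) (j : Fin 3),
      g = u * t ^ k * b3c s t j := by
  have hp : s * s ∈ Subgroup.closure ({s * s, t⁻¹ * (s * s) * t} : Set G) :=
    Subgroup.subset_closure (Set.mem_insert _ _)
  have hq : t⁻¹ * (s * s) * t ∈ Subgroup.closure ({s * s, t⁻¹ * (s * s) * t} : Set G) :=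
    Subgroup.subset_closure (Set.mem_insert_of_mem _ (Set.mem_singleton _))
  have hn : ∀ u, u ∈ Subgroup.closure ({s * s, t⁻¹ * (s * s) * t} : Set G) ↔
      t * u * t⁻¹ ∈ Subgroup.closure ({s * s, t⁻¹ * (s * s) * t} : Set G) := by
    refine mem_normalizer_of _ t ?_ ?_
    · rintro x (rfl | hx)
      · rw [b3_two h]
        exact Subgroup.mul_mem _ (Subgroup.mul_mem _ (Subgroup.inv_mem _ hp) hq) hp
      · rw [Set.mem_singleton_iff] at hx
        rw [hx]
        have e : t * (t⁻¹ * (s * s) * t) * t⁻¹ = s * s := by group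
        rw [e]
        exact hp
    · rintro x (rfl | hx)
      · exact hq
      · rw [Set.mem_singleton_iff] at hx
        rw [hx, b3_three h]
        exact Subgroup.mul_mem _ (Subgroup.mul_mem _ hq hp) (Subgroup.inv_mem _ hq)
  generalize hUdef : Subgroup.closure ({s * s, t⁻¹ * (s * s) * t} : Set G) = U at hp hq hn ⊢
  have step : ∀ x : G, (∀ j : Fin 3, ∃ u ∈ U, ∃ (k : ℤ) (j' : Fin 3),
      b3c s t j * x = u * t ^ k * b3c s t j') → ∀ g : G,
      (∃ u ∈ U, ∃ (k : ℤ) (j : Fin 3), g = u * t ^ k * b3c s t j) →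
      ∃ u ∈ U, ∃ (k : ℤ) (j : Fin 3), g * x = u * t ^ k * b3c s t j := by
    rintro x hx g ⟨u, hu, k, j, rfl⟩
    obtain ⟨u', hu', k', j', h'⟩ := hx j
    refine ⟨u * (t ^ k * u' * (t ^ k)⁻¹), Subgroup.mul_mem _ hu (zpow_conj_mem hn k u' hu'),
      k + k', j', ?_⟩
    rw [mul_assoc (u * t ^ k), h', zpow_add]
    group
  have hs : ∀ j : Fin 3, ∃ u ∈ U, ∃ (k : ℤ) (j' : Fin 3), b3c s t j * s = u * t ^ k * b3c s t j' := by
    intro j
    fin_cases j
    · exact ⟨1, U.one_mem, 0, 1, by simp [b3c]⟩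
    · exact ⟨s * s, hp, 0, 0, by simp [b3c]⟩
    · refine ⟨1, U.one_mem, 1, 2, ?_⟩
      show s * t * s = 1 * t ^ (1 : ℤ) * (s * t)
      rw [h]
      group
  have hs' : ∀ j : Fin 3, ∃ u ∈ U, ∃ (k : ℤ) (j' : Fin 3),
      b3c s t j * s⁻¹ = u * t ^ k * b3c s t j' := by
    intro j
    fin_cases j
    · refine ⟨(s * s)⁻¹, U.inv_mem hp, 0, 1, ?_⟩
      show 1 * s⁻¹ = (s * s)⁻¹ * t ^ (0 : ℤ) * s
      group
    · refine ⟨1, U.one_mem, 0, 0, ?_⟩
      show s * s⁻¹ = 1 * t ^ (0 : ℤ) * 1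
      group
    · refine ⟨1, U.one_mem, -1, 2, ?_⟩
      show s * t * s⁻¹ = 1 * t ^ (-1 : ℤ) * (s * t)
      rw [mul_inv_eq_iff_eq_mul, ← mul_right_inj t]
      calc t * (s * t) = t * s * t := by group
        _ = s * t * s := by rw [h]
        _ = t * (1 * t ^ (-1 : ℤ) * (s * t) * s) := by group
  have ht : ∀ j : Fin 3, ∃ u ∈ U, ∃ (k : ℤ) (j' : Fin 3), b3c s t j * t = u * t ^ k * b3c s t j' := by
    intro j
    fin_cases j
    · refine ⟨1, U.one_mem, 1, 0, ?_⟩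
      show 1 * t = 1 * t ^ (1 : ℤ) * 1
      group
    · refine ⟨1, U.one_mem, 0, 2, ?_⟩
      show s * t = 1 * t ^ (0 : ℤ) * (s * t)
      group
    · refine ⟨t⁻¹ * (s * s) * t, hq, 0, 1, ?_⟩
      show s * t * t = (t⁻¹ * (s * s) * t) * t ^ (0 : ℤ) * s
      rw [← b3_one h]
      group
  have ht' : ∀ j : Fin 3, ∃ u ∈ U, ∃ (k : ℤ) (j' : Fin 3),
      b3c s t j * t⁻¹ = u * t ^ k * b3c s t j' := by
    intro j
    fin_cases j
    · refine ⟨1, U.one_mem, -1, 0, ?_⟩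
      show 1 * t⁻¹ = 1 * t ^ (-1 : ℤ) * 1
      group
    · refine ⟨(t⁻¹ * (s * s) * t)⁻¹, U.inv_mem hq, 0, 2, ?_⟩
      show s * t⁻¹ = (t⁻¹ * (s * s) * t)⁻¹ * t ^ (0 : ℤ) * (s * t)
      rw [← b3_one h]
      group
    · refine ⟨1, U.one_mem, 0, 1, ?_⟩
      show s * t * t⁻¹ = 1 * t ^ (0 : ℤ) * s
      group
  have hg : g ∈ Subgroup.closure ({s, t} : Set G) := by rw [hgen]; exact Subgroup.mem_top g
  induction hg using Subgroup.closure_induction_right with
  | one => exact ⟨1, U.one_mem, 0, 0, by simp [b3c]⟩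
  | mul_right x _ y hy ih =>
    rcases hy with rfl | hy
    · exact step _ hs x ih
    · rw [Set.mem_singleton_iff] at hy
      rw [hy]
      exact step _ ht x ih
  | mul_inv_cancel x _ y hy ih =>
    rcases hy with rfl | hy
    · exact step _ hs' x ih
    · rw [Set.mem_singleton_iff] at hy
      rw [hy]
      exact step _ ht' x ih

end

end Pool.Agent.Lib.MP_9dbb0e_al.GT
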