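import Pool.Agent.Lib.MP_9dbb0e_al.GT.B3

/-!
# The Artin representation of the braid group on three strands is faithful: conclusion
-/

set_option autoImplicit false

namespace Pool.Agent.Lib.MP_9dbb0e_al.GT

open FreeGroup (of)

theorem ev_mem_bot {n : ℕ} : ev (gx n) [] ∈ (⊥ : Subgroup (FreeGroup (Fin n))) := Subgroup.one_mem _

/-- The Artin group is generated by the standard generators. -/
theorem art_closure {B : Type} (M : CoxeterMatrix B) :
    Subgroup.closure (Set.range (σ M)) = ⊤ := PresentedGroup.closure_range_of _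

theorem closure_A2 : Subgroup.closure ({sA 2 0, sA 2 1} : Set (Art (CoxeterMatrix.A 2))) = ⊤ := by
  rw [← art_closure]
  congr 1
  ext x
  rw [sA_lt (by omega), sA_lt (by omega)]
  constructor
  · rintro (rfl | hx)
    · exact ⟨_, rfl⟩
    · rw [Set.mem_singleton_iff] at hx
      exact ⟨_, hx.symm⟩
  · rintro ⟨i, rfl⟩
    fin_cases i
    · exact Or.inl rfl
    · exact Or.inr rfl

theorem braid_A2 : sA 2 0 * sA 2 1 * sA 2 0 = sA 2 1 * sA 2 0 * sA 2 1 := by
  rw [sA_lt (by omega), sA_lt (by omega)]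
  exact braid_A 2 _ _ rfl

/-- The free generators. -/
def b3T : FreeGroup (Fin 2) →* FreeGroup (Fin 3) := FreeGroup.lift ![(of 1)⁻¹, (of 2)⁻¹]

theorem b3T_inj : Function.Injective b3T := by
  let L : FreeGroup (Fin 3) →* FreeGroup (Fin 2) := FreeGroup.lift ![1, (of 0)⁻¹, (of 1)⁻¹]
  have h : L.comp b3T = MonoidHom.id _ := by
    refine FreeGroup.ext_hom _ _ fun i => ?_
    fin_cases i <;> simp [b3T, L]
  intro x y hxy
  have h1 := congrArg L hxy
  rw [← MonoidHom.comp_apply, ← MonoidHom.comp_apply, h] at h1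
  exact h1

theorem of_pow_ne {α : Type} (a : α) (k : ℤ) (h : (of a : FreeGroup α) ^ k = 1) : k = 0 := by
  let L : FreeGroup α →* Multiplicative ℤ := FreeGroup.lift fun _ => Multiplicative.ofAdd (1 : ℤ)
  have h1 : L (of a ^ k) = L 1 := by rw [h]
  have h3 : L (of a) = Multiplicative.ofAdd (1 : ℤ) := FreeGroup.lift_apply_of
  rw [map_zpow, map_one, h3, ← ofAdd_zsmul] at h1
  have h2 : k • (1 : ℤ) = 0 := h1
  rwa [smul_eq_mul, mul_one] at h2

/-- Elements of `⟨σ 1⟩` in the kernel. -/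
theorem b3_pow (k : ℤ) (h : rho 2 (sA 2 1 ^ k) = 1) : k = 0 := by
  have hw : ∀ s ∈ ([(1, true), (1, true)] : Wd), s.1 < 2 := by decide
  have h1 := push_word (n := 2) (a := 1) (by omega) ⊥ [(1, true), (1, true)] [(1, true), (2, true)] []
    ev_mem_bot hw (by decide) (by decide)
  have e : ev (sA 2) [(1, true), (1, true)] = sA 2 1 * sA 2 1 := by
    simp [ev_cons, ev_nil, lt]
  rw [e] at h1
  let θ : FreeGroup Unit →* Art (CoxeterMatrix.A 2) := FreeGroup.lift fun _ => sA 2 1 * sA 2 1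
  let T : FreeGroup Unit →* FreeGroup (Fin 3) := FreeGroup.lift fun _ => (of 2)⁻¹
  have hT : Function.Injective T := by
    let L : FreeGroup (Fin 3) →* FreeGroup Unit := FreeGroup.lift ![1, 1, (of ())⁻¹]
    have h : L.comp T = MonoidHom.id _ := by
      refine FreeGroup.ext_hom _ _ fun i => ?_
      simp [T, L]
    intro x y hxy
    have h1 := congrArg L hxy
    rw [← MonoidHom.comp_apply, ← MonoidHom.comp_apply, h] at h1
    exact h1
  have h2 : ∀ x : Unit, Push ⊥ (1 : Fin 3) (rho 2 (θ (of x))) (T (of x)) := by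
    intro x
    have e1 : θ (of x) = sA 2 1 * sA 2 1 := by simp [θ]
    have e2 : T (of x) = (ev (gx 3) (kw 1 [(1, true), (2, true)]))⁻¹ * ev (gx 3) [] := by
      have e3 : kw 1 [(1, true), (2, true)] = [(2, true)] := by decide
      rw [e3, ev_single, ev_nil, mul_one]
      simp [T, lt, gx]
    rw [e1, e2]
    exact h1
  have h3 := push_free_bot (1 : Fin 3) (rho 2) θ T hT h2 (of () ^ k) (by
    rw [map_zpow]
    have e1 : θ (of ()) = sA 2 1 * sA 2 1 := by simp [θ]
    rw [e1]
    have e2 : (sA 2 1 * sA 2 1) ^ k = sA 2 1 ^ k * sA 2 1 ^ k :=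
      (Commute.refl (sA 2 1)).mul_zpow k
    rw [e2, map_mul, h, one_mul])
  exact of_pow_ne () k h3

/-- The conjugacy class of the generator `a` is preserved. -/
def Fx {n : ℕ} (a : Fin n) : Subgroup (MulAut (FreeGroup (Fin n))) where
  carrier := {β | ∃ W, β (of a) = W * of a * W⁻¹}
  one_mem' := ⟨1, by simp⟩
  mul_mem' := by
    rintro β β' ⟨W, h⟩ ⟨W', h'⟩
    refine ⟨β W' * W, ?_⟩
    rw [MulAut.mul_apply, h', map_mul, map_mul, h, map_inv]
    group
  inv_mem' := by
    rintro β ⟨W, h⟩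
    refine ⟨(β⁻¹ W)⁻¹, ?_⟩
    have h1 : β⁻¹ (β (of a)) = β⁻¹ (W * of a * W⁻¹) := by rw [h]
    have h5 : β⁻¹ (β (of a)) = of a := by
      rw [← MulAut.mul_apply, inv_mul_cancel]
      rfl
    rw [h5, map_mul, map_mul, map_inv] at h1
    rw [inv_inv]
    generalize β⁻¹ (of a) = p at h1 ⊢
    rw [h1]
    group

theorem mem_Fx {n : ℕ} {a : Fin n} {β : MulAut (FreeGroup (Fin n))} :
    β ∈ Fx a ↔ ∃ W, β (of a) = W * of a * W⁻¹ := Iff.rfl

/-- The automorphism `β` commutes with killing the generator `a`. -/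
def Ck {n : ℕ} (a : Fin n) : Subgroup (MulAut (FreeGroup (Fin n))) where
  carrier := {β | ∀ x, kill a (β x) = β (kill a x)}
  one_mem' := fun _ => rfl
  mul_mem' := by
    intro β β' h h' x
    rw [MulAut.mul_apply, h, h', MulAut.mul_apply]
  inv_mem' := by
    intro β h x
    have h1 : ∀ y, β (β⁻¹ y) = y := fun y => by
      rw [← MulAut.mul_apply, mul_inv_cancel]
      rfl
    have h2 : ∀ y, β⁻¹ (β y) = y := fun y => by
      rw [← MulAut.mul_apply, inv_mul_cancel]
      rfl
    have h3 := h (β⁻¹ x)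
    rw [h1] at h3
    rw [h3, h2]

end Pool.Agent.Lib.MP_9dbb0e_al.GT
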