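import Pool.Agent.Lib.MP_9dbb0e_al.GT.B3f

/-!
# The Artin representation of the braid group on three strands is faithful: the theorem
-/

set_option autoImplicit false

namespace Pool.Agent.Lib.MP_9dbb0e_al.GT

open FreeGroup (of)

/-- The automorphism `β` is trivial after killing the generator `a`. -/
def Kr {n : ℕ} (a : Fin n) : Subgroup (MulAut (FreeGroup (Fin n))) where
  carrier := {β | ∀ x, kill a (β x) = kill a x}
  one_mem' := fun _ => rfl
  mul_mem' := by
    intro β β' h h' x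
    rw [MulAut.mul_apply, h, h']
  inv_mem' := by
    intro β h x
    have h1 : ∀ y, β (β⁻¹ y) = y := fun y => by
      rw [← MulAut.mul_apply, mul_inv_cancel]
      rfl
    have h3 := h (β⁻¹ x)
    rw [h1] at h3
    exact h3.symm

theorem Push.fx {n : ℕ} {S : Subgroup (FreeGroup (Fin n))} {a : Fin n} {β : MulAut (FreeGroup (Fin n))}
    {t : FreeGroup (Fin n)} (h : Push S a β t) : β ∈ Fx a := by
  obtain ⟨W, u, _, h1, _, _⟩ := h
  exact ⟨W, h1⟩

theorem Push.kr {n : ℕ} {a : Fin n} {β : MulAut (FreeGroup (Fin n))}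
    {t : FreeGroup (Fin n)} (h : Push ⊥ a β t) : β ∈ Kr a := by
  obtain ⟨W, u, hu, _, h2, _⟩ := h
  rw [Subgroup.mem_bot] at hu
  intro x
  rw [h2 x, hu]
  simp

/-- The automorphism `β` fixes the generator `a`. -/
def St {n : ℕ} (a : Fin n) : Subgroup (MulAut (FreeGroup (Fin n))) where
  carrier := {β | β (of a) = of a}
  one_mem' := rfl
  mul_mem' := by
    intro β β' h h'
    show (β * β') (of a) = of a
    rw [MulAut.mul_apply, show β' (of a) = of a from h', show β (of a) = of a from h]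
  inv_mem' := by
    intro β h
    have h2 : β⁻¹ (β (of a)) = of a := by
      rw [← MulAut.mul_apply, inv_mul_cancel]
      rfl
    rw [show β (of a) = of a from h] at h2
    exact h2

theorem of_gx {n : ℕ} (i : Fin n) : of i = ev (gx n) [((i : ℕ), true)] := by
  rw [ev_single]
  unfold lt
  rw [if_pos rfl, gx_lt i.isLt]

theorem b3_push0 : Push ⊥ (0 : Fin 3) (rho 2 (sA 2 0 * sA 2 0)) ((of 1)⁻¹) := by
  have h1 := push_word (n := 2) (a := 0) (by omega) ⊥ [(0, true), (0, true)] [(0, true), (1, true)] []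
    ev_mem_bot (by decide) (by decide) (by decide)
  have e : ev (sA 2) [(0, true), (0, true)] = sA 2 0 * sA 2 0 := by
    simp [ev_cons, ev_nil, lt]
  have e2 : ((of 1)⁻¹ : FreeGroup (Fin 3)) =
      (ev (gx 3) (kw 0 [(0, true), (1, true)]))⁻¹ * ev (gx 3) [] := by
    have e3 : kw 0 [(0, true), (1, true)] = [(1, true)] := by decide
    rw [e3, ev_single, ev_nil, mul_one]
    simp [lt, gx]
  rw [e2, ← e]
  exact h1

theorem b3_push1 : Push ⊥ (0 : Fin 3) (rho 2 ((sA 2 1)⁻¹ * (sA 2 0 * sA 2 0) * sA 2 1)) ((of 2)⁻¹) := by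
  have h1 := push_word (n := 2) (a := 0) (by omega) ⊥ [(1, false), (0, true), (0, true), (1, true)]
    [(0, true), (2, true)] [] ev_mem_bot (by decide) (by decide) (by decide)
  have e : ev (sA 2) [(1, false), (0, true), (0, true), (1, true)] =
      (sA 2 1)⁻¹ * (sA 2 0 * sA 2 0) * sA 2 1 := by
    simp [ev_cons, ev_nil, lt, mul_assoc]
  have e2 : ((of 2)⁻¹ : FreeGroup (Fin 3)) =
      (ev (gx 3) (kw 0 [(0, true), (2, true)]))⁻¹ * ev (gx 3) [] := by
    have e3 : kw 0 [(0, true), (2, true)] = [(2, true)] := by decide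
    rw [e3, ev_single, ev_nil, mul_one]
    simp [lt, gx]
  rw [e2, ← e]
  exact h1

theorem b3_ck : rho 2 (sA 2 1) ∈ Ck (0 : Fin 3) := by
  intro x
  have h : (kill (0 : Fin 3)).comp (rho 2 (sA 2 1)).toMonoidHom =
      (rho 2 (sA 2 1)).toMonoidHom.comp (kill 0) := by
    refine FreeGroup.ext_hom _ _ fun i => ?_
    show kill 0 (rho 2 (sA 2 1) (of i)) = rho 2 (sA 2 1) (kill 0 (of i))
    rw [sA_lt (by omega), rho_σ, tw_apply]
    show kill 0 (twF (1 : Fin 3) 2 (of i)) = twF (1 : Fin 3) 2 (kill 0 (of i))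
    fin_cases i
    · show kill 0 (twF (1 : Fin 3) 2 (of 0)) = twF (1 : Fin 3) 2 (kill 0 (of 0))
      rw [twF_ne (by decide) (by decide), kill_self, map_one]
    · show kill 0 (twF (1 : Fin 3) 2 (of 1)) = twF (1 : Fin 3) 2 (kill 0 (of 1))
      rw [kill_ne (by decide), twF_p, map_mul, map_mul, map_inv, kill_ne (by decide),
        kill_ne (by decide)]
    · show kill 0 (twF (1 : Fin 3) 2 (of 2)) = twF (1 : Fin 3) 2 (kill 0 (of 2))
      rw [kill_ne (by decide), twF_q (by decide), kill_ne (by decide)]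
  exact DFunLike.congr_fun h x

theorem b3_st : rho 2 (sA 2 1) ∈ St (0 : Fin 3) := by
  show rho 2 (sA 2 1) (of 0) = of 0
  rw [sA_lt (by omega), rho_σ, tw_apply]
  exact twF_ne (by decide) (by decide)

/-- The Artin representation of the braid group on three strands is faithful. -/
theorem rho_two_inj (g : Art (CoxeterMatrix.A 2)) (hg : rho 2 g = 1) : g = 1 := by
  obtain ⟨u, hu, k, j, rfl⟩ := b3_rep braid_A2 closure_A2 g
  let θ : FreeGroup (Fin 2) →* Art (CoxeterMatrix.A 2) :=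
    FreeGroup.lift ![sA 2 0 * sA 2 0, (sA 2 1)⁻¹ * (sA 2 0 * sA 2 0) * sA 2 1]
  have hfx : rho 2 u ∈ Fx (0 : Fin 3) := by
    have h1 : Subgroup.closure ({sA 2 0 * sA 2 0, (sA 2 1)⁻¹ * (sA 2 0 * sA 2 0) * sA 2 1} : Set _) ≤
        (Fx (0 : Fin 3)).comap (rho 2) := by
      rw [Subgroup.closure_le]
      rintro x (rfl | hx)
      · exact b3_push0.fx
      · rw [Set.mem_singleton_iff] at hx
        rw [hx]
        exact b3_push1.fx
    exact h1 hu
  have hkr : rho 2 u ∈ Kr (0 : Fin 3) := by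
    have h1 : Subgroup.closure ({sA 2 0 * sA 2 0, (sA 2 1)⁻¹ * (sA 2 0 * sA 2 0) * sA 2 1} : Set _) ≤
        (Kr (0 : Fin 3)).comap (rho 2) := by
      rw [Subgroup.closure_le]
      rintro x (rfl | hx)
      · exact b3_push0.kr
      · rw [Set.mem_singleton_iff] at hx
        rw [hx]
        exact b3_push1.kr
    exact h1 hu
  have hst : rho 2 (sA 2 1 ^ k) ∈ St (0 : Fin 3) := by
    rw [map_zpow]
    exact Subgroup.zpow_mem _ b3_st k
  have hck : rho 2 (sA 2 1 ^ k) ∈ Ck (0 : Fin 3) := by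
    rw [map_zpow]
    exact Subgroup.zpow_mem _ b3_ck k
  have hfx2 : rho 2 (u * sA 2 1 ^ k) ∈ Fx (0 : Fin 3) := by
    obtain ⟨W, hW⟩ := hfx
    refine ⟨W, ?_⟩
    rw [map_mul, MulAut.mul_apply, show rho 2 (sA 2 1 ^ k) (of 0) = of 0 from hst, hW]
  have hne : ∀ i : Fin 3, i ≠ 0 → ∀ W : FreeGroup (Fin 3), W * of 0 * W⁻¹ ≠ of i := by
    intro i hi W h
    have h1 := congrArg (kill (0 : Fin 3)) h
    rw [map_mul, map_mul, kill_self, mul_one, map_inv, mul_inv_cancel, kill_ne hi] at h1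
    exact FreeGroup.of_ne_one i h1.symm
  have hs1 : rho 2 (sA 2 0) (of 1) = of 0 := by
    rw [sA_lt (by omega), rho_σ, tw_apply]
    exact twF_q (by decide)
  have ht2 : rho 2 (sA 2 1) (of 2) = of 1 := by
    rw [sA_lt (by omega), rho_σ, tw_apply]
    exact twF_q (by decide)
  have hj : j = 0 := by
    by_contra hj0
    obtain ⟨W, hW⟩ := hfx2
    fin_cases j
    · exact hj0 rfl
    · apply hne 1 (by decide) W
      rw [← hW, ← hs1, ← MulAut.mul_apply, ← map_mul]
      have e : u * sA 2 1 ^ k * sA 2 0 = u * sA 2 1 ^ k * b3c (sA 2 0) (sA 2 1) 1 := by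
        simp [b3c]
      rw [e]
      exact DFunLike.congr_fun hg (of 1)
    · apply hne 2 (by decide) W
      rw [← hW, ← hs1, ← ht2, ← MulAut.mul_apply, ← MulAut.mul_apply, ← map_mul, ← map_mul]
      have e : u * sA 2 1 ^ k * (sA 2 0 * sA 2 1) = u * sA 2 1 ^ k * b3c (sA 2 0) (sA 2 1) 2 := by
        simp [b3c]
      rw [← mul_assoc] at e
      rw [e]
      exact DFunLike.congr_fun hg (of 2)
  subst hj
  have e0 : b3c (sA 2 0) (sA 2 1) 0 = 1 := by simp [b3c]
  rw [e0, mul_one] at hg ⊢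
  have hpow : rho 2 (sA 2 1 ^ k) = 1 := by
    refine aut_ext fun i => ?_
    by_cases hi : i = 0
    · rw [hi]
      exact hst
    · have h1 : kill 0 (rho 2 (u * sA 2 1 ^ k) (of i)) = rho 2 (sA 2 1 ^ k) (kill 0 (of i)) := by
        rw [map_mul, MulAut.mul_apply, hkr, hck]
      rw [hg, MulAut.one_apply, kill_ne hi] at h1
      exact h1.symm
  have hk := b3_pow k hpow
  subst hk
  rw [zpow_zero, mul_one] at hg ⊢
  have hrange : u ∈ θ.range := by
    have e : θ.range = Subgroup.closure ({sA 2 0 * sA 2 0, (sA 2 1)⁻¹ * (sA 2 0 * sA 2 0) * sA 2 1} : Set _) := by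
      rw [FreeGroup.range_lift_eq_closure, Matrix.range_cons, Matrix.range_cons,
        Matrix.range_empty, Set.union_empty]
      rfl
    rw [e]
    exact hu
  obtain ⟨v, rfl⟩ := hrange
  have hv := push_free_bot (0 : Fin 3) (rho 2) θ b3T b3T_inj (by
    intro x
    fin_cases x
    · have e1 : θ (of 0) = sA 2 0 * sA 2 0 := by simp [θ]
      have e2 : b3T (of 0) = (of 1)⁻¹ := by simp [b3T]
      show Push ⊥ 0 (rho 2 (θ (of 0))) (b3T (of 0))
      rw [e1, e2]
      exact b3_push0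
    · have e1 : θ (of 1) = (sA 2 1)⁻¹ * (sA 2 0 * sA 2 0) * sA 2 1 := by simp [θ]
      have e2 : b3T (of 1) = (of 2)⁻¹ := by simp [b3T]
      show Push ⊥ 0 (rho 2 (θ (of 1))) (b3T (of 1))
      rw [e1, e2]
      exact b3_push1) v hg
  rw [hv, map_one]

/-- The value of a word depends only on the values of its letters. -/
theorem ev_congr {G : Type*} [Group G] {g g' : ℕ → G} {w : Wd} (h : ∀ s ∈ w, g s.1 = g' s.1) :
    ev g w = ev g' w := by
  induction w with
  | nil => rfl
  | cons s w ih =>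
    rw [ev_cons, ev_cons, ih fun q hq => h q (List.mem_cons_of_mem _ hq)]
    congr 1
    unfold lt
    rw [h s List.mem_cons_self]

/-- Identities in groups with a braid relation can be checked by computation. -/
theorem b3_id {H : Type*} [Group H] {g : ℕ → H} (h : g 0 * g 1 * g 0 = g 1 * g 0 * g 1) (w w' : Wd)
    (hw : ∀ s ∈ w, s.1 < 2) (hw' : ∀ s ∈ w', s.1 < 2)
    (hact : ∀ i, i < 3 → act w [(i, true)] = act w' [(i, true)]) : ev g w = ev g w' := by
  have h1 : ev (sA 2) w = ev (sA 2) w' := by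
    have h2 := rho_eq w w' hw hw' hact
    have h3 := rho_two_inj (ev (sA 2) w * (ev (sA 2) w')⁻¹) (by
      rw [map_mul, map_inv, h2, mul_inv_cancel])
    exact mul_inv_eq_one.1 h3
  obtain ⟨Φ, hΦ⟩ := lift_A 2 (fun i : Fin 2 => g i) (by
    intro i j hij
    fin_cases i <;> fin_cases j
    · simp at hij
    · exact h
    · simp at hij
    · simp at hij) (by
    intro i j hij
    fin_cases i <;> fin_cases j <;> simp at hij)
  have h2 : ∀ i, i < 2 → Φ (sA 2 i) = g i := by
    intro i hi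
    rw [sA_lt hi, hΦ]
  have h3 : ∀ w : Wd, (∀ s ∈ w, s.1 < 2) → Φ (ev (sA 2) w) = ev g w := by
    intro w hw
    rw [map_ev]
    exact ev_congr fun s hs => h2 s.1 (hw s hs)
  rw [← h3 w hw, ← h3 w' hw', h1]

end Pool.Agent.Lib.MP_9dbb0e_al.GT
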