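import Pool.Agent.Lib.MP_9dbb0e_al.GT.Gn

/-!
# The Artin groups of type `B₂` and `B₃` in braid groups
-/

set_option autoImplicit false
set_option maxRecDepth 100000

namespace Pool.Agent.Lib.MP_9dbb0e_al.GT

open FreeGroup (of)

section

variable {A : Type*} [Group A]

/-- Type `B₂`. -/
theorem b2_rel {b c : A} (h : b * c * b * c = c * b * c * b) (f : A →* Art (CoxeterMatrix.A 2))
    (hb : f b = sA 2 1) (hc : f c = sA 2 0 * sA 2 0) (g : A)
    (hg : g ∈ Subgroup.closure ({b, c} : Set A)) (h1 : rho 2 (f g) = 1) : g = 1 := by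
  let y : Fin 2 → A := ![c, b⁻¹ * c * b]
  have hy0 : c ∈ Subgroup.closure (Set.range y) := Subgroup.subset_closure ⟨0, rfl⟩
  have hy1 : b⁻¹ * c * b ∈ Subgroup.closure (Set.range y) := Subgroup.subset_closure ⟨1, rfl⟩
  have hp : ∀ x, Push ⊥ (0 : Fin 3) (rho 2 (f (y x))) ((of ((![1, 2] : Fin 2 → Fin 3) x))⁻¹) := by
    intro x
    fin_cases x
    · show Push ⊥ 0 (rho 2 (f c)) ((of 1)⁻¹)
      rw [hc]
      exact b3_push0
    · show Push ⊥ 0 (rho 2 (f (b⁻¹ * c * b))) ((of 2)⁻¹)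
      have e : f (b⁻¹ * c * b) = (sA 2 1)⁻¹ * (sA 2 0 * sA 2 0) * sA 2 1 := by
        rw [map_mul, map_mul, map_inv, hb, hc]
      rw [e]
      exact b3_push1
  obtain ⟨n, hn, w, hw, rfl⟩ := decomp (Set.range y) {b} {b, c} (by
    rintro t ht x ⟨i, rfl⟩
    rw [Set.mem_singleton_iff] at ht
    subst ht
    fin_cases i
    · show t * c * t⁻¹ ∈ _
      rw [lab4 h]
      exact Subgroup.mul_mem _ (Subgroup.mul_mem _ (Subgroup.inv_mem _ hy0) hy1) hy0
    · show t * (t⁻¹ * c * t) * t⁻¹ ∈ _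
      have e : t * (t⁻¹ * c * t) * t⁻¹ = c := by group
      rw [e]
      exact hy0) (by
    rintro t ht x ⟨i, rfl⟩
    rw [Set.mem_singleton_iff] at ht
    subst ht
    fin_cases i
    · exact hy1
    · show t⁻¹ * (t⁻¹ * c * t) * t ∈ _
      rw [lab4' h]
      exact Subgroup.mul_mem _ (Subgroup.mul_mem _ hy1 hy0) (Subgroup.inv_mem _ hy1)) (by
    rintro s (rfl | hs)
    · exact ⟨1, Subgroup.one_mem _, s, Subgroup.subset_closure rfl, by rw [one_mul]⟩
    · rw [Set.mem_singleton_iff] at hs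
      subst hs
      exact ⟨s, hy0, 1, Subgroup.one_mem _, by rw [mul_one]⟩) g hg
  rw [← Subgroup.zpowers_eq_closure] at hw
  obtain ⟨k, rfl⟩ := Subgroup.mem_zpowers_iff.1 hw
  have hkr : rho 2 (f n) ∈ Kr (0 : Fin 3) := by
    have h2 : Subgroup.closure (Set.range y) ≤ (Kr (0 : Fin 3)).comap ((rho 2).comp f) := by
      rw [Subgroup.closure_le]
      rintro x ⟨i, rfl⟩
      exact (hp i).kr
    exact h2 hn
  have hst : rho 2 (sA 2 1 ^ k) ∈ St (0 : Fin 3) := by
    rw [map_zpow]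
    exact Subgroup.zpow_mem _ b3_st k
  have hck : rho 2 (sA 2 1 ^ k) ∈ Ck (0 : Fin 3) := by
    rw [map_zpow]
    exact Subgroup.zpow_mem _ b3_ck k
  have hpow : rho 2 (sA 2 1 ^ k) = 1 := by
    refine aut_ext fun i => ?_
    by_cases hi : i = 0
    · rw [hi]
      exact hst
    · have h2 : kill 0 (rho 2 (f (n * b ^ k)) (of i)) = rho 2 (sA 2 1 ^ k) (kill 0 (of i)) := by
        rw [map_mul, map_mul, MulAut.mul_apply, hkr, map_zpow, hb, hck]
      rw [h1, MulAut.one_apply, kill_ne hi] at h2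
      exact h2.symm
  have hk := b3_pow k hpow
  subst hk
  rw [zpow_zero, mul_one] at h1 ⊢
  exact push_rel f 0 y ![1, 2] (by decide) hp n hn h1

end

/-- the map to the free group with one generator less -/
def pB (j : ℕ) : Wd := if j = 1 then [(0, true)] else if j = 2 then [(1, true)]
  else if j = 3 then [(2, true)] else []

theorem pB_nil : ∀ j, 3 + 1 ≤ j → pB j = [] := by
  intro j hj
  have h1 : j ≠ 1 := by omega
  have h2 : j ≠ 2 := by omega
  have h3 : j ≠ 3 := by omega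
  simp [pB, h1, h2, h3]

/-- the words of the three conjugates -/
def wB (i : Fin 3) : Wd :=
  ![[(0, true), (0, true)],
    [(1, false), (0, true), (0, true), (1, true)],
    [(2, false), (1, false), (0, true), (0, true), (1, true), (2, true)]] i

/-- the conjugators -/
def WB (i : Fin 3) : Wd := [(0, true), ((i : ℕ) + 1, true)]

theorem push_B (i : Fin 3) : Push ⊥ (0 : Fin 4) (rho 3 (ev (sA 3) (wB i))) ((of i.succ)⁻¹) := by
  have h1 := push_word (n := 3) (a := 0) (by omega) ⊥ (wB i) (WB i) [] ev_mem_bot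
    (by revert i; decide) (by revert i; decide) (by revert i; decide)
  have e : (ev (gx 4) (kw 0 (WB i)))⁻¹ * ev (gx 4) [] = (of i.succ)⁻¹ := by
    have e1 : ∀ i : Fin 3, kw 0 (WB i) = [((i.succ : ℕ), true)] := by decide
    rw [e1 i, ev_nil, mul_one, ← of_gx]
  rw [← e]
  exact h1

section

variable {A : Type*} [Group A] {a b c : A}

theorem B3_inj (hab : a * b * a = b * a * b) (hac : a * c = c * a)
    (hbc : b * c * b * c = c * b * c * b)
    (hgen : Subgroup.closure ({a, b, c} : Set A) = ⊤) (f : A →* Art (CoxeterMatrix.A 3))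
    (ha : f a = sA 3 2) (hb : f b = sA 3 1) (hc : f c = sA 3 0 * sA 3 0)
    (Φ : A →* Art (CoxeterMatrix.A 2)) (hΦa : Φ a = sA 2 1) (hΦb : Φ b = sA 2 0) (hΦc : Φ c = 1) :
    Function.Injective f := by
  rw [injective_iff_map_eq_one]
  intro g hg
  have hTw : g ∈ Twi f Φ (psG 3 2 pB) := by
    have h1 : Subgroup.closure ({a, b, c} : Set A) ≤ Twi f Φ (psG 3 2 pB) := by
      rw [Subgroup.closure_le]
      rintro x (rfl | rfl | hx)
      · exact mem_Twi pB_nil [(2, true)] [(1, true)] (by decide) (by decide)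
          (by rw [ha, ev_single]; rfl) (by rw [hΦa, ev_single]; rfl) (by decide)
      · exact mem_Twi pB_nil [(1, true)] [(0, true)] (by decide) (by decide)
          (by rw [hb, ev_single]; rfl) (by rw [hΦb, ev_single]; rfl) (by decide)
      · rw [Set.mem_singleton_iff] at hx
        subst hx
        exact mem_Twi pB_nil [(0, true), (0, true)] [] (by decide) (by decide)
          (by rw [hc, ev_cons, ev_single]; rfl) (by rw [hΦc, ev_nil]) (by decide)
    rw [hgen] at h1
    exact h1 (Subgroup.mem_top g)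
  have hsurj : Function.Surjective (psG 3 2 pB) := by
    have h : (psG 3 2 pB).comp (FreeGroup.lift ![of 1, of 2, of 3]) = MonoidHom.id _ := by
      refine FreeGroup.ext_hom _ _ fun i => ?_
      fin_cases i
      · simp [psG, pB, ev_cons, ev_nil, lt, gx]
      · simp [psG, pB, ev_cons, ev_nil, lt, gx]
      · simp [psG, pB, ev_cons, ev_nil, lt, gx]
    intro x
    exact ⟨_, DFunLike.congr_fun h x⟩
  have hΦg : Φ g = 1 := by
    apply rho_two_inj
    refine MulEquiv.ext fun y => ?_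
    obtain ⟨x, rfl⟩ := hsurj y
    rw [← hTw x, hg, map_one]
    rfl
  obtain ⟨q, hq⟩ : ∃ q, q = b⁻¹ * c * b := ⟨_, rfl⟩
  have e1 : (a * b)⁻¹ * c * (a * b) = q := by
    rw [hq]
    calc (a * b)⁻¹ * c * (a * b) = b⁻¹ * (a⁻¹ * (c * a)) * b := by group
      _ = b⁻¹ * (a⁻¹ * (a * c)) * b := by rw [hac]
      _ = b⁻¹ * c * b := by group
  have e3 : (a * b)⁻¹ * b * (a * b) = a := by
    calc (a * b)⁻¹ * b * (a * b) = b⁻¹ * a⁻¹ * (b * a * b) := by group
      _ = b⁻¹ * a⁻¹ * (a * b * a) := by rw [hab]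
      _ = a := by group
  have e4 : b * a⁻¹ * b⁻¹ = a⁻¹ * b⁻¹ * a := by
    have h := b3_id (gg_braid hab) [(1, true), (0, false), (1, false)]
      [(0, false), (1, false), (0, true)] (by decide) (by decide) (by decide)
    simp only [ev_cons, ev_nil, lt, gg_zero, gg_one, mul_one] at h
    rw [mul_assoc, mul_assoc]
    exact h
  obtain ⟨r, hr⟩ : ∃ r, r = a⁻¹ * q * a := ⟨_, rfl⟩
  have e6 : b * r * b⁻¹ = r := by
    have e6' : b * r * b⁻¹ = (b * a⁻¹ * b⁻¹) * c * (b * a⁻¹ * b⁻¹)⁻¹ := by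
      rw [hr, hq]
      group
    rw [e6', e4, hr, hq]
    calc a⁻¹ * b⁻¹ * a * c * (a⁻¹ * b⁻¹ * a)⁻¹ = a⁻¹ * b⁻¹ * (a * c) * a⁻¹ * b * a := by group
      _ = a⁻¹ * b⁻¹ * (c * a) * a⁻¹ * b * a := by rw [hac]
      _ = a⁻¹ * (b⁻¹ * c * b) * a := by group
  have e6' : b⁻¹ * r * b = r := by
    have h : b⁻¹ * (b * r * b⁻¹) * b = b⁻¹ * r * b := by rw [e6]
    rw [← h]
    group
  have e2 : (a * b)⁻¹ * q * (a * b) = r := by
    calc (a * b)⁻¹ * q * (a * b) = b⁻¹ * (a⁻¹ * q * a) * b := by group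
      _ = b⁻¹ * r * b := by rw [hr]
      _ = r := e6'
  have f1 : b * c * b⁻¹ = c⁻¹ * q * c := by rw [hq]; exact lab4 hbc
  have f2 : b⁻¹ * q * b = q * c * q⁻¹ := by rw [hq]; exact lab4' hbc
  have f3 : a * q * a⁻¹ = q⁻¹ * r * q := by
    calc a * q * a⁻¹ = ((a * b)⁻¹ * b * (a * b)) * ((a * b)⁻¹ * c * (a * b)) *
          ((a * b)⁻¹ * b * (a * b))⁻¹ := by rw [e3, e1]
      _ = (a * b)⁻¹ * (b * c * b⁻¹) * (a * b) := by group
      _ = (a * b)⁻¹ * (c⁻¹ * q * c) * (a * b) := by rw [f1]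
      _ = ((a * b)⁻¹ * c * (a * b))⁻¹ * ((a * b)⁻¹ * q * (a * b)) * ((a * b)⁻¹ * c * (a * b)) := by
        group
      _ = q⁻¹ * r * q := by rw [e1, e2]
  have f4 : a⁻¹ * r * a = r * q * r⁻¹ := by
    calc a⁻¹ * r * a = ((a * b)⁻¹ * b * (a * b))⁻¹ * ((a * b)⁻¹ * q * (a * b)) *
          ((a * b)⁻¹ * b * (a * b)) := by rw [e3, e2]
      _ = (a * b)⁻¹ * (b⁻¹ * q * b) * (a * b) := by group
      _ = (a * b)⁻¹ * (q * c * q⁻¹) * (a * b) := by rw [f2]
      _ = ((a * b)⁻¹ * q * (a * b)) * ((a * b)⁻¹ * c * (a * b)) * ((a * b)⁻¹ * q * (a * b))⁻¹ := by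
        group
      _ = r * q * r⁻¹ := by rw [e1, e2]
  have g1 : a * c * a⁻¹ = c := by rw [hac]; group
  have g2 : a⁻¹ * c * a = c := by rw [mul_assoc, ← hac]; group
  let y : Fin 3 → A := ![c, q, r]
  have hy0 : c ∈ Subgroup.closure (Set.range y) := Subgroup.subset_closure ⟨0, rfl⟩
  have hy1 : q ∈ Subgroup.closure (Set.range y) := Subgroup.subset_closure ⟨1, rfl⟩
  have hy2 : r ∈ Subgroup.closure (Set.range y) := Subgroup.subset_closure ⟨2, rfl⟩
  obtain ⟨n, hn, w, hw, rfl⟩ := decomp (Set.range y) {a, b} {a, b, c} (by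
    rintro t (rfl | ht) x ⟨i, rfl⟩
    · fin_cases i
      · show t * c * t⁻¹ ∈ _
        rw [g1]
        exact hy0
      · show t * q * t⁻¹ ∈ _
        rw [f3]
        exact Subgroup.mul_mem _ (Subgroup.mul_mem _ (Subgroup.inv_mem _ hy1) hy2) hy1
      · show t * r * t⁻¹ ∈ _
        have e : t * r * t⁻¹ = q := by rw [hr]; group
        rw [e]
        exact hy1
    · rw [Set.mem_singleton_iff] at ht
      subst ht
      fin_cases i
      · show t * c * t⁻¹ ∈ _
        rw [f1]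
        exact Subgroup.mul_mem _ (Subgroup.mul_mem _ (Subgroup.inv_mem _ hy0) hy1) hy0
      · show t * q * t⁻¹ ∈ _
        have e : t * q * t⁻¹ = c := by rw [hq]; group
        rw [e]
        exact hy0
      · show t * r * t⁻¹ ∈ _
        rw [e6]
        exact hy2) (by
    rintro t (rfl | ht) x ⟨i, rfl⟩
    · fin_cases i
      · show t⁻¹ * c * t ∈ _
        rw [g2]
        exact hy0
      · show t⁻¹ * q * t ∈ _
        rw [← hr]
        exact hy2
      · show t⁻¹ * r * t ∈ _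
        rw [f4]
        exact Subgroup.mul_mem _ (Subgroup.mul_mem _ hy2 hy1) (Subgroup.inv_mem _ hy2)
    · rw [Set.mem_singleton_iff] at ht
      subst ht
      fin_cases i
      · show t⁻¹ * c * t ∈ _
        rw [← hq]
        exact hy1
      · show t⁻¹ * q * t ∈ _
        rw [f2]
        exact Subgroup.mul_mem _ (Subgroup.mul_mem _ hy1 hy0) (Subgroup.inv_mem _ hy1)
      · show t⁻¹ * r * t ∈ _
        rw [e6']
        exact hy2) (by
    rintro s (rfl | rfl | hs)
    · exact ⟨1, Subgroup.one_mem _, s, Subgroup.subset_closure (Or.inl rfl), by rw [one_mul]⟩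
    · exact ⟨1, Subgroup.one_mem _, s, Subgroup.subset_closure (Or.inr rfl), by rw [one_mul]⟩
    · rw [Set.mem_singleton_iff] at hs
      subst hs
      exact ⟨s, hy0, 1, Subgroup.one_mem _, by rw [mul_one]⟩) g (by
    rw [hgen]
    exact Subgroup.mem_top g)
  have hΦq : Φ q = 1 := by rw [hq, map_mul, map_mul, hΦc, mul_one, map_inv, inv_mul_cancel]
  have hΦr : Φ r = 1 := by rw [hr, map_mul, map_mul, hΦq, mul_one, map_inv, inv_mul_cancel]
  have hΦn : Φ n = 1 := by
    have h2 : Subgroup.closure (Set.range y) ≤ Φ.ker := by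
      rw [Subgroup.closure_le]
      rintro x ⟨i, rfl⟩
      fin_cases i
      · exact hΦc
      · exact hΦq
      · exact hΦr
    exact h2 hn
  obtain ⟨Ψ, hΨ⟩ := lift_A 2 (fun i : Fin 2 => gg b a i) (by
    intro i j hij
    fin_cases i <;> fin_cases j
    · simp at hij
    · exact hab.symm
    · simp at hij
    · simp at hij) (by
    intro i j hij
    fin_cases i <;> fin_cases j <;> simp at hij)
  have hw1 : w = 1 := by
    have h2 : Ψ (Φ w) = w := by
      have h3 : Subgroup.closure ({a, b} : Set A) ≤ (Ψ.comp Φ).eqLocus (MonoidHom.id A) := by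
        rw [Subgroup.closure_le]
        rintro x (rfl | hx)
        · show Ψ (Φ x) = x
          rw [hΦa, sA_lt (by omega), hΨ]
          rfl
        · rw [Set.mem_singleton_iff] at hx
          subst hx
          show Ψ (Φ x) = x
          rw [hΦb, sA_lt (by omega), hΨ]
          rfl
      exact h3 hw
    rw [map_mul, hΦn, one_mul] at hΦg
    rw [← h2, hΦg, map_one]
  subst hw1
  rw [mul_one] at hg ⊢
  refine push_rel f 0 y Fin.succ (Fin.succ_injective _) ?_ n hn (by rw [hg, map_one])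
  intro x
  have h1 := push_B x
  fin_cases x
  · show Push ⊥ 0 (rho 3 (f c)) ((of (Fin.succ 0))⁻¹)
    have e : f c = ev (sA 3) (wB 0) := by
      rw [hc]
      simp [wB, ev_cons, ev_nil, lt]
    rw [e]
    exact h1
  · show Push ⊥ 0 (rho 3 (f q)) ((of (Fin.succ 1))⁻¹)
    have e : f q = ev (sA 3) (wB 1) := by
      rw [hq, map_mul, map_mul, map_inv, hb, hc]
      simp [wB, ev_cons, ev_nil, lt, mul_assoc]
    rw [e]
    exact h1
  · show Push ⊥ 0 (rho 3 (f r)) ((of (Fin.succ 2))⁻¹)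
    have e : f r = ev (sA 3) (wB 2) := by
      rw [hr, hq, map_mul, map_mul, map_mul, map_mul, map_inv, map_inv, ha, hb, hc]
      simp [wB, ev_cons, ev_nil, lt, mul_assoc]
    rw [e]
    exact h1

end

end Pool.Agent.Lib.MP_9dbb0e_al.GT
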