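import Pool.Agent.Lib.MP_9dbb0e_al.GT.Bt

/-!
# The Artin group of type `C₂~` in the braid group on four strands
-/

set_option autoImplicit false
set_option maxRecDepth 100000

namespace Pool.Agent.Lib.MP_9dbb0e_al.GT

open FreeGroup (of)

/-- the full twist on four strands -/
def FT4 : Wd := ps [0, 1, 2, 0, 1, 2, 0, 1, 2, 0, 1, 2]

/-- the full twist on three strands -/
def FT3 : Wd := ps [0, 0, 1, 0, 0, 1]

/-- the words of the three generators -/
def wC (i : Fin 3) : Wd :=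
  ![wi (ps [2, 2, 1, 2, 2] ++ [(1, false)]) ++ (FT4 ++ wi FT3),
    ps [1, 2, 2] ++ [(1, false)],
    ps [2, 2]] i

/-- the conjugators -/
def WC (i : Fin 3) : Wd := [((i : ℕ), true)]

theorem push_C (i : Fin 3) : Push ⊥ (3 : Fin 4) (rho 3 (ev (sA 3) (wC i))) ((of i.castSucc)⁻¹) := by
  have h1 := push_word (n := 3) (a := 3) (by omega) ⊥ (wC i) (WC i) [] ev_mem_bot
    (by revert i; decide +kernel) (by revert i; decide +kernel) (by revert i; decide +kernel)
  have e : (ev (gx 4) (kw 3 (WC i)))⁻¹ * ev (gx 4) [] = (of i.castSucc)⁻¹ := by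
    have e1 : ∀ i : Fin 3, kw 3 (WC i) = [((i.castSucc : ℕ), true)] := by decide
    rw [e1 i, ev_nil, mul_one, ← of_gx]
  rw [← e]
  exact h1

/-- the map to the free group with one generator less -/
def pC (j : ℕ) : Wd := if j < 3 then [(j, true)] else []

theorem pC_nil : ∀ j, 3 + 1 ≤ j → pC j = [] := by
  intro j hj
  unfold pC
  rw [if_neg (by omega)]

section

variable {A : Type*} [Group A] {a b c z : A}

theorem C2_rel (hab : a * b * a * b = b * a * b * a) (hac : a * c = c * a)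
    (hbc : b * c * b * c = c * b * c * b) (hza : z * a = a * z) (hzb : z * b = b * z)
    (hzc : z * c = c * z) (f : A →* Art (CoxeterMatrix.A 3))
    (ha : f a = sA 3 0 * sA 3 0) (hb : f b = sA 3 1) (hc : f c = sA 3 2 * sA 3 2)
    (hz : f z = ev (sA 3) FT4)
    (Φ : A →* Art (CoxeterMatrix.A 2)) (hΦa : Φ a = sA 2 0 * sA 2 0) (hΦb : Φ b = sA 2 1)
    (hΦc : Φ c = 1) (hΦz : Φ z = ev (sA 2) FT3) (g : A)
    (hg' : g ∈ Subgroup.closure ({a, b, c, z} : Set A)) (hg : f g = 1) : g = 1 := by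
  have hTw : g ∈ Twi f Φ (psG 3 2 pC) := by
    have h1 : Subgroup.closure ({a, b, c, z} : Set A) ≤ Twi f Φ (psG 3 2 pC) := by
      rw [Subgroup.closure_le]
      rintro x (rfl | rfl | rfl | hx)
      · exact mem_Twi pC_nil (ps [0, 0]) (ps [0, 0]) (by decide) (by decide)
          (by rw [ha, ev_ps]; simp [pv]) (by rw [hΦa, ev_ps]; simp [pv]) (by decide)
      · exact mem_Twi pC_nil (ps [1]) (ps [1]) (by decide) (by decide)
          (by rw [hb, ev_ps]; simp [pv]) (by rw [hΦb, ev_ps]; simp [pv]) (by decide)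
      · exact mem_Twi pC_nil (ps [2, 2]) [] (by decide) (by decide)
          (by rw [hc, ev_ps]; simp [pv]) (by rw [hΦc, ev_nil]) (by decide)
      · rw [Set.mem_singleton_iff] at hx
        subst hx
        exact mem_Twi pC_nil FT4 FT3 (by decide) (by decide) hz hΦz (by decide +kernel)
    exact h1 hg'
  have hsurj : Function.Surjective (psG 3 2 pC) := by
    have h : (psG 3 2 pC).comp (FreeGroup.lift ![of 0, of 1, of 2]) = MonoidHom.id _ := by
      refine FreeGroup.ext_hom _ _ fun i => ?_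
      fin_cases i
      · simp [psG, pC, ev_cons, ev_nil, lt, gx]
      · simp [psG, pC, ev_cons, ev_nil, lt, gx]
      · simp [psG, pC, ev_cons, ev_nil, lt, gx]
    intro x
    exact ⟨_, DFunLike.congr_fun h x⟩
  have hΦg : Φ g = 1 := by
    apply rho_two_inj
    refine MulEquiv.ext fun y => ?_
    obtain ⟨x, rfl⟩ := hsurj y
    rw [← hTw x, hg, map_one]
    rfl
  obtain ⟨D, hD⟩ : ∃ D, D = a * b * a * b := ⟨_, rfl⟩
  have hDa : D * a = a * D := by
    calc D * a = a * (b * a * b * a) := by rw [hD]; group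
      _ = a * (a * b * a * b) := by rw [hab]
      _ = a * D := by rw [hD]
  have hDb : D * b = b * D := by
    calc D * b = (a * b * a * b) * b := by rw [hD]
      _ = (b * a * b * a) * b := by rw [hab]
      _ = b * (a * b * a * b) := by group
      _ = b * D := by rw [hD]
  obtain ⟨x1, hx1⟩ : ∃ x1, x1 = b * c * b⁻¹ := ⟨_, rfl⟩
  obtain ⟨x0, hx0⟩ : ∃ x0, x0 = (c * x1)⁻¹ * (z * D⁻¹) := ⟨_, rfl⟩
  obtain ⟨P, hP⟩ : ∃ P, P = c⁻¹ * (z * D⁻¹) := ⟨_, rfl⟩
  have hx0P : x0 = x1⁻¹ * P := by rw [hx0, hP]; group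
  have hPx : P = x1 * x0 := by rw [hx0P]; group
  have f0 : x1 = c⁻¹ * (b⁻¹ * c * b) * c := by rw [hx1]; exact lab4 hbc
  have f1 : b⁻¹ * c * b = c * x1 * c⁻¹ := by
    rw [f0]
    group
  have f2 : b * x1 * b⁻¹ = x1⁻¹ * c * x1 := by
    have e : c = b * (b⁻¹ * c * b) * b⁻¹ := by group
    have e' : c = x1 * (b * x1 * b⁻¹) * x1⁻¹ := by
      rw [f1] at e
      have e2 : b * (c * x1 * c⁻¹) * b⁻¹ = (b * c * b⁻¹) * (b * x1 * b⁻¹) * (b * c * b⁻¹)⁻¹ := by
        group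
      rw [e2, ← hx1] at e
      exact e
    calc b * x1 * b⁻¹ = x1⁻¹ * (x1 * (b * x1 * b⁻¹) * x1⁻¹) * x1 := by group
      _ = x1⁻¹ * c * x1 := by rw [← e']
  have hzD : b * (z * D⁻¹) * b⁻¹ = z * D⁻¹ := by
    have e : b * D⁻¹ = D⁻¹ * b := by
      rw [← mul_right_inj D, ← mul_left_inj D]
      calc D * (b * D⁻¹) * D = D * b := by group
        _ = b * D := hDb
        _ = D * (D⁻¹ * b) * D := by group
    calc b * (z * D⁻¹) * b⁻¹ = (b * z) * D⁻¹ * b⁻¹ := by group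
      _ = (z * b) * D⁻¹ * b⁻¹ := by rw [hzb]
      _ = z * (b * D⁻¹) * b⁻¹ := by group
      _ = z * (D⁻¹ * b) * b⁻¹ := by rw [e]
      _ = z * D⁻¹ := by group
  have hzDa : a * (z * D⁻¹) * a⁻¹ = z * D⁻¹ := by
    have e : a * D⁻¹ = D⁻¹ * a := by
      rw [← mul_right_inj D, ← mul_left_inj D]
      calc D * (a * D⁻¹) * D = D * a := by group
        _ = a * D := hDa
        _ = D * (D⁻¹ * a) * D := by group
    calc a * (z * D⁻¹) * a⁻¹ = (a * z) * D⁻¹ * a⁻¹ := by group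
      _ = (z * a) * D⁻¹ * a⁻¹ := by rw [hza]
      _ = z * (a * D⁻¹) * a⁻¹ := by group
      _ = z * (D⁻¹ * a) * a⁻¹ := by rw [e]
      _ = z * D⁻¹ := by group
  have f3 : b * x0 * b⁻¹ = x0 := by
    calc b * x0 * b⁻¹ = ((b * c * b⁻¹) * (b * x1 * b⁻¹))⁻¹ * (b * (z * D⁻¹) * b⁻¹) := by
          rw [hx0]; group
      _ = (x1 * (x1⁻¹ * c * x1))⁻¹ * (z * D⁻¹) := by rw [← hx1, f2, hzD]
      _ = x0 := by rw [hx0]; group
  have f3' : b⁻¹ * x0 * b = x0 := by
    have h : b⁻¹ * (b * x0 * b⁻¹) * b = b⁻¹ * x0 * b := by rw [f3]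
    rw [← h]
    group
  have g0 : a * c * a⁻¹ = c := by rw [hac]; group
  have g0' : a⁻¹ * c * a = c := by rw [mul_assoc, ← hac]; group
  have hP2 : a * P * a⁻¹ = P := by
    calc a * P * a⁻¹ = (a * c * a⁻¹)⁻¹ * (a * (z * D⁻¹) * a⁻¹) := by rw [hP]; group
      _ = P := by rw [g0, hzDa, hP]
  have hP2' : a⁻¹ * P * a = P := by
    have h : a⁻¹ * (a * P * a⁻¹) * a = a⁻¹ * P * a := by rw [hP2]
    rw [← h]
    group
  have g1 : a⁻¹ * x1 * a = P * x1 * P⁻¹ := by
    have e1 : z * x1 = x1 * z := by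
      have c1 : Commute z b := hzb
      have c2 : Commute z c := hzc
      rw [hx1]
      exact (c1.mul_right c2).mul_right c1.inv_right
    have e2 : D⁻¹ * x1 * D = a⁻¹ * (b⁻¹ * c * b) * a := by
      have e3 : D⁻¹ * c * D = b⁻¹ * a⁻¹ * (b⁻¹ * c * b) * a * b := by
        calc D⁻¹ * c * D = (b * a * b)⁻¹ * (a⁻¹ * c * a) * (b * a * b) := by rw [hD]; group
          _ = (b * a * b)⁻¹ * c * (b * a * b) := by rw [g0']
          _ = b⁻¹ * a⁻¹ * (b⁻¹ * c * b) * a * b := by group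
      have e4 : D⁻¹ * b = b * D⁻¹ := by
        rw [← mul_right_inj D, ← mul_left_inj D]
        calc D * (D⁻¹ * b) * D = b * D := by group
          _ = D * b := hDb.symm
          _ = D * (b * D⁻¹) * D := by group
      have e5 : b⁻¹ * D = D * b⁻¹ := by
        rw [← mul_right_inj b, ← mul_left_inj b]
        calc b * (b⁻¹ * D) * b = D * b := by group
          _ = b * D := hDb
          _ = b * (D * b⁻¹) * b := by group
      calc D⁻¹ * x1 * D = (D⁻¹ * b) * c * (b⁻¹ * D) := by rw [hx1]; group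
        _ = (b * D⁻¹) * c * (D * b⁻¹) := by rw [e4, e5]
        _ = b * (D⁻¹ * c * D) * b⁻¹ := by group
        _ = b * (b⁻¹ * a⁻¹ * (b⁻¹ * c * b) * a * b) * b⁻¹ := by rw [e3]
        _ = a⁻¹ * (b⁻¹ * c * b) * a := by group
    have hzD' : z * D = D * z := by
      have c1 : Commute z a := hza
      have c2 : Commute z b := hzb
      rw [hD]
      exact ((c1.mul_right c2).mul_right c1).mul_right c2
    symm
    calc P * x1 * P⁻¹ = c⁻¹ * (z * (D⁻¹ * x1 * D) * z⁻¹) * c := by rw [hP]; group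
      _ = c⁻¹ * (D⁻¹ * x1 * D) * c := by
        have c1 : Commute z D := hzD'
        have c2 : Commute z x1 := e1
        have c3 : z * (D⁻¹ * x1 * D) = D⁻¹ * x1 * D * z :=
          ((c1.inv_right).mul_right c2).mul_right c1
        rw [c3]
        group
      _ = c⁻¹ * (a⁻¹ * (b⁻¹ * c * b) * a) * c := by rw [e2]
      _ = (c⁻¹ * a⁻¹) * (b⁻¹ * c * b) * (a * c) := by group
      _ = (a⁻¹ * c⁻¹) * (b⁻¹ * c * b) * (c * a) := by
        have e6 : c⁻¹ * a⁻¹ = a⁻¹ * c⁻¹ := by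
          rw [← mul_inv_rev, ← mul_inv_rev, hac]
        rw [e6, hac]
      _ = a⁻¹ * (c⁻¹ * (b⁻¹ * c * b) * c) * a := by group
      _ = a⁻¹ * x1 * a := by rw [← f0]
  have g2 : a * x1 * a⁻¹ = P⁻¹ * x1 * P := by
    calc a * x1 * a⁻¹ = (a * P * a⁻¹)⁻¹ * (a * (P * x1 * P⁻¹) * a⁻¹) * (a * P * a⁻¹) := by group
      _ = P⁻¹ * (a * (a⁻¹ * x1 * a) * a⁻¹) * P := by rw [hP2, g1]
      _ = P⁻¹ * x1 * P := by group
  have g3 : a * x0 * a⁻¹ = P⁻¹ * x0 * P := by
    calc a * x0 * a⁻¹ = (a * x1 * a⁻¹)⁻¹ * (a * P * a⁻¹) := by rw [hx0P]; group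
      _ = (P⁻¹ * x1 * P)⁻¹ * P := by rw [g2, hP2]
      _ = P⁻¹ * x0 * P := by rw [hx0P]; group
  have g3' : a⁻¹ * x0 * a = P * x0 * P⁻¹ := by
    calc a⁻¹ * x0 * a = (a⁻¹ * x1 * a)⁻¹ * (a⁻¹ * P * a) := by rw [hx0P]; group
      _ = (P * x1 * P⁻¹)⁻¹ * P := by rw [g1, hP2']
      _ = P * x0 * P⁻¹ := by rw [hx0P]; group
  let y : Fin 3 → A := ![x0, x1, c]
  have hy0 : x0 ∈ Subgroup.closure (Set.range y) := Subgroup.subset_closure ⟨0, rfl⟩
  have hy1 : x1 ∈ Subgroup.closure (Set.range y) := Subgroup.subset_closure ⟨1, rfl⟩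
  have hy2 : c ∈ Subgroup.closure (Set.range y) := Subgroup.subset_closure ⟨2, rfl⟩
  have hyP : P ∈ Subgroup.closure (Set.range y) := by
    rw [hPx]
    exact Subgroup.mul_mem _ hy1 hy0
  obtain ⟨n, hn, w, hw, rfl⟩ := decomp (Set.range y) {a, b} {a, b, c, z} (by
    rintro t (rfl | ht) x ⟨i, rfl⟩
    · fin_cases i
      · show t * x0 * t⁻¹ ∈ _
        rw [g3]
        exact Subgroup.mul_mem _ (Subgroup.mul_mem _ (Subgroup.inv_mem _ hyP) hy0) hyP
      · show t * x1 * t⁻¹ ∈ _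
        rw [g2]
        exact Subgroup.mul_mem _ (Subgroup.mul_mem _ (Subgroup.inv_mem _ hyP) hy1) hyP
      · show t * c * t⁻¹ ∈ _
        rw [g0]
        exact hy2
    · rw [Set.mem_singleton_iff] at ht
      subst ht
      fin_cases i
      · show t * x0 * t⁻¹ ∈ _
        rw [f3]
        exact hy0
      · show t * x1 * t⁻¹ ∈ _
        rw [f2]
        exact Subgroup.mul_mem _ (Subgroup.mul_mem _ (Subgroup.inv_mem _ hy1) hy2) hy1
      · show t * c * t⁻¹ ∈ _
        rw [← hx1]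
        exact hy1) (by
    rintro t (rfl | ht) x ⟨i, rfl⟩
    · fin_cases i
      · show t⁻¹ * x0 * t ∈ _
        rw [g3']
        exact Subgroup.mul_mem _ (Subgroup.mul_mem _ hyP hy0) (Subgroup.inv_mem _ hyP)
      · show t⁻¹ * x1 * t ∈ _
        rw [g1]
        exact Subgroup.mul_mem _ (Subgroup.mul_mem _ hyP hy1) (Subgroup.inv_mem _ hyP)
      · show t⁻¹ * c * t ∈ _
        rw [g0']
        exact hy2
    · rw [Set.mem_singleton_iff] at ht
      subst ht
      fin_cases i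
      · show t⁻¹ * x0 * t ∈ _
        rw [f3']
        exact hy0
      · show t⁻¹ * x1 * t ∈ _
        have e : t⁻¹ * x1 * t = c := by rw [hx1]; group
        rw [e]
        exact hy2
      · show t⁻¹ * c * t ∈ _
        rw [f1]
        exact Subgroup.mul_mem _ (Subgroup.mul_mem _ hy2 hy1) (Subgroup.inv_mem _ hy2)) (by
    rintro s (rfl | rfl | rfl | hs)
    · exact ⟨1, Subgroup.one_mem _, s, Subgroup.subset_closure (Or.inl rfl), by rw [one_mul]⟩
    · exact ⟨1, Subgroup.one_mem _, s, Subgroup.subset_closure (Or.inr rfl), by rw [one_mul]⟩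
    · exact ⟨s, hy2, 1, Subgroup.one_mem _, by rw [mul_one]⟩
    · rw [Set.mem_singleton_iff] at hs
      subst hs
      have hta : a ∈ Subgroup.closure ({a, b} : Set A) := Subgroup.subset_closure (Or.inl rfl)
      have htb : b ∈ Subgroup.closure ({a, b} : Set A) := Subgroup.subset_closure (Or.inr rfl)
      refine ⟨c * x1 * x0, Subgroup.mul_mem _ (Subgroup.mul_mem _ hy2 hy1) hy0, D, ?_, ?_⟩
      · rw [hD]
        exact Subgroup.mul_mem _ (Subgroup.mul_mem _ (Subgroup.mul_mem _ hta htb) hta) htb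
      · rw [hx0]
        group) g hg'
  have hΦ1 : Φ x1 = 1 := by rw [hx1, map_mul, map_mul, hΦc, mul_one, map_inv, mul_inv_cancel]
  have hΦ0 : Φ x0 = 1 := by
    have e : Φ D = ev (sA 2) FT3 := by
      rw [hD, map_mul, map_mul, map_mul, hΦa, hΦb]
      unfold FT3
      rw [ev_ps]
      simp [pv, mul_assoc]
    rw [hx0, map_mul, map_inv, map_mul, map_mul, hΦc, hΦ1, map_inv, hΦz, e]
    group
  have hΦn : Φ n = 1 := by
    have h2 : Subgroup.closure (Set.range y) ≤ Φ.ker := by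
      rw [Subgroup.closure_le]
      rintro x ⟨i, rfl⟩
      fin_cases i
      · exact hΦ0
      · exact hΦ1
      · exact hΦc
    exact h2 hn
  have hw1 : w = 1 := by
    rw [map_mul, hΦn, one_mul] at hΦg
    refine b2_rel (b := b) (c := a) hab.symm Φ hΦb hΦa w ?_ (by rw [hΦg, map_one])
    rw [Set.pair_comm]
    exact hw
  subst hw1
  rw [mul_one] at hg ⊢
  refine push_rel f 3 y Fin.castSucc (Fin.castSucc_injective _) ?_ n hn (by rw [hg, map_one])
  intro x
  have h1 := push_C x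
  fin_cases x
  · show Push ⊥ 3 (rho 3 (f x0)) ((of (Fin.castSucc 0))⁻¹)
    have e : f x0 = ev (sA 3) (wC 0) := by
      show f x0 = ev (sA 3) (wi (ps [2, 2, 1, 2, 2] ++ [(1, false)]) ++ (FT4 ++ wi FT3))
      rw [hx0, hx1, hD, ev_append, ev_append, ev_wi, ev_wi, ev_append, map_mul, map_mul, map_inv, map_inv,
        map_mul, map_mul, map_mul, map_mul, map_mul, map_mul, map_inv, ha, hb, hc, hz]
      have e2 : ev (sA 3) FT3 = sA 3 0 * sA 3 0 * sA 3 1 * (sA 3 0 * sA 3 0) * sA 3 1 := by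
        unfold FT3
        rw [ev_ps]
        simp [pv, mul_assoc]
      have e3 : ev (sA 3) (ps [2, 2, 1, 2, 2]) * ev (sA 3) [(1, false)] =
          sA 3 2 * sA 3 2 * (sA 3 1 * (sA 3 2 * sA 3 2) * (sA 3 1)⁻¹) := by
        rw [ev_ps]
        simp [pv, ev_cons, ev_nil, lt, mul_assoc]
      rw [e2, e3]
    rw [e]
    exact h1
  · show Push ⊥ 3 (rho 3 (f x1)) ((of (Fin.castSucc 1))⁻¹)
    have e : f x1 = ev (sA 3) (wC 1) := by
      show f x1 = ev (sA 3) (ps [1, 2, 2] ++ [(1, false)])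
      rw [hx1, map_mul, map_mul, map_inv, hb, hc, ev_append, ev_ps]
      simp [pv, ev_cons, ev_nil, lt, mul_assoc]
    rw [e]
    exact h1
  · show Push ⊥ 3 (rho 3 (f c)) ((of (Fin.castSucc 2))⁻¹)
    have e : f c = ev (sA 3) (wC 2) := by
      show f c = ev (sA 3) (ps [2, 2])
      rw [hc, ev_ps]
      simp [pv]
    rw [e]
    exact h1

end

end Pool.Agent.Lib.MP_9dbb0e_al.GT
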