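import Pool.Agent.Lib.MP_9dbb0e_al.GT.Ct

/-!
# Embeddings of Artin groups with three generators in the braid group on four strands
-/

set_option autoImplicit false
set_option maxRecDepth 100000

namespace Pool.Agent.Lib.MP_9dbb0e_al.GT

open FreeGroup (of)

theorem ne_of_label {B : Type} (M : CoxeterMatrix B) {a b : B} {m : ℕ} (h : M.M a b = m)
    (hm : m ≠ 1) : a ≠ b := by
  rintro rfl
  rw [M.diagonal] at h
  exact hm h.symm

theorem sq_comm {G : Type*} [Group G] {x y : G} (h : x * y * x = y * x * y) :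
    x * x * y * (x * x) * y = y * (x * x) * y * (x * x) := by
  have h1 := b3_id (gg_braid h) (ps [0, 0, 1, 0, 0, 1]) (ps [1, 0, 0, 1, 0, 0]) (by decide)
    (by decide) (by decide)
  rw [ev_ps, ev_ps] at h1
  simp only [pv, List.map_cons, List.map_nil, List.prod_cons, List.prod_nil, mul_one, gg_zero,
    gg_one] at h1
  simp only [mul_assoc]
  exact h1

theorem sq_comm' {G : Type*} [Group G] {x y : G} (h : x * y * x = y * x * y) :
    x * (y * y) * x * (y * y) = y * y * x * (y * y) * x := (sq_comm h.symm).symm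

/-- Type `A₃`. -/
theorem A3_embeds {B : Type} (M : CoxeterMatrix B) {a b c : B} (hu : ∀ i, i = a ∨ i = b ∨ i = c)
    (hab : M.M a b = 3) (hac : M.M a c = 2) (hbc : M.M b c = 3) :
    ∃ F : Art M →* Art (CoxeterMatrix.A 3), Function.Injective F := by
  have nab := ne_of_label M hab (by decide)
  have nac := ne_of_label M hac (by decide)
  have nbc := ne_of_label M hbc (by decide)
  obtain ⟨f, fa, fb, fc⟩ := lift3 M nab nac nbc hu (sA 3 0) (sA 3 1) (sA 3 2)
    (by
      intro _
      rw [hab, alt_three, alt_three, sA_braid 0 (by omega)])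
    (by
      intro _
      rw [hac, alt_two, alt_two, sA_comm 0 2 (by omega) (by omega) (by omega)])
    (by
      intro _
      rw [hbc, alt_three, alt_three, sA_braid 1 (by omega)])
  have r1 := rel_three M nab hab
  have r2 := rel_two M nac hac
  have r3 := rel_three M nbc hbc
  obtain ⟨G, hG⟩ := lift_A 3 (fun i : Fin 3 => (![σ M a, σ M b, σ M c] : Fin 3 → Art M) i) (by
    intro i j hij
    fin_cases i <;> fin_cases j
    · simp at hij
    · exact r1
    · simp at hij
    · simp at hij
    · simp at hij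
    · exact r3
    · simp at hij
    · simp at hij
    · simp at hij) (by
    intro i j hij
    fin_cases i <;> fin_cases j
    · simp at hij
    · simp at hij
    · exact r2
    · simp at hij
    · simp at hij
    · simp at hij
    · simp at hij
    · simp at hij
    · simp at hij)
  refine ⟨f, ?_⟩
  have h : G.comp f = MonoidHom.id _ := by
    refine art_ext M _ _ fun i => ?_
    rcases hu i with rfl | rfl | rfl
    · rw [MonoidHom.comp_apply, fa, sA_lt (by omega), hG]
      rfl
    · rw [MonoidHom.comp_apply, fb, sA_lt (by omega), hG]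
      rfl
    · rw [MonoidHom.comp_apply, fc, sA_lt (by omega), hG]
      rfl
  intro x y hxy
  have h1 := congrArg G hxy
  rw [← MonoidHom.comp_apply, ← MonoidHom.comp_apply, h] at h1
  exact h1

/-- Type `B₃`. -/
theorem B3_embeds {B : Type} (M : CoxeterMatrix B) {a b c : B} (hu : ∀ i, i = a ∨ i = b ∨ i = c)
    (hab : M.M a b = 3) (hac : M.M a c = 2) (hbc : M.M b c = 4) :
    ∃ F : Art M →* Art (CoxeterMatrix.A 3), Function.Injective F := by
  have nab := ne_of_label M hab (by decide)
  have nac := ne_of_label M hac (by decide)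
  have nbc := ne_of_label M hbc (by decide)
  have r01 : sA 3 0 * sA 3 1 * sA 3 0 = sA 3 1 * sA 3 0 * sA 3 1 := sA_braid 0 (by omega)
  obtain ⟨f, fa, fb, fc⟩ := lift3 M nab nac nbc hu (sA 3 2) (sA 3 1) (sA 3 0 * sA 3 0)
    (by
      intro _
      rw [hab, alt_three, alt_three, sA_braid 1 (by omega)])
    (by
      intro _
      have h : Commute (sA 3 2) (sA 3 0) := (sA_comm 0 2 (by omega) (by omega) (by omega)).symm
      rw [hac, alt_two, alt_two]
      exact h.mul_right h)
    (by
      intro _
      rw [hbc, alt_four, alt_four]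
      exact (sq_comm r01).symm)
  obtain ⟨Φ, Φa, Φb, Φc⟩ := lift3 M nab nac nbc hu (sA 2 1) (sA 2 0) (1 : Art (CoxeterMatrix.A 2))
    (by
      intro _
      rw [hab, alt_three, alt_three]
      exact braid_A2.symm)
    (by
      intro _
      rw [hac, alt_two, alt_two]
      group)
    (by
      intro _
      rw [hbc, alt_four, alt_four]
      group)
  exact ⟨f, B3_inj (rel_three M nab hab) (rel_two M nac hac) (rel_four M nbc hbc) (closure3 M hu) f
    fa fb fc Φ Φa Φb Φc⟩

theorem FT4_central (x : Art (CoxeterMatrix.A 3)) : Commute x (ev (sA 3) FT4) := by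
  have h1 : Subgroup.closure (Set.range (σ (CoxeterMatrix.A 3))) ≤
      Subgroup.centralizer {ev (sA 3) FT4} := by
    rw [Subgroup.closure_le]
    rintro y ⟨i, rfl⟩
    show σ (CoxeterMatrix.A 3) i ∈ Subgroup.centralizer {ev (sA 3) FT4}
    rw [Subgroup.mem_centralizer_singleton_iff]
    unfold FT4
    rw [ev_ps]
    fin_cases i
    · have h := sA_mvs (n := 3) [3, 1, 3, 2, 6, 7, 9, 11] ([0] ++ [0, 1, 2, 0, 1, 2, 0, 1, 2, 0, 1, 2])
        ([0, 1, 2, 0, 1, 2, 0, 1, 2, 0, 1, 2] ++ [0]) (by decide +kernel)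
      rw [pv_append, pv_append, pv_cons, pv_nil, mul_one, sA_lt (by omega)] at h
      exact h
    · have h := sA_mvs (n := 3) [0, 2, 6, 4, 6, 5, 9, 10] ([1] ++ [0, 1, 2, 0, 1, 2, 0, 1, 2, 0, 1, 2])
        ([0, 1, 2, 0, 1, 2, 0, 1, 2, 0, 1, 2] ++ [1]) (by decide +kernel)
      rw [pv_append, pv_append, pv_cons, pv_nil, mul_one, sA_lt (by omega)] at h
      exact h
    · have h := sA_mvs (n := 3) [0, 1, 3, 5, 9, 7, 9, 8] ([2] ++ [0, 1, 2, 0, 1, 2, 0, 1, 2, 0, 1, 2])
        ([0, 1, 2, 0, 1, 2, 0, 1, 2, 0, 1, 2] ++ [2]) (by decide +kernel)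
      rw [pv_append, pv_append, pv_cons, pv_nil, mul_one, sA_lt (by omega)] at h
      exact h
  rw [art_closure] at h1
  have h2 := h1 (Subgroup.mem_top x)
  rw [Subgroup.mem_centralizer_singleton_iff] at h2
  exact h2

theorem FT3_central (x : Art (CoxeterMatrix.A 2)) : Commute x (ev (sA 2) FT3) := by
  have h1 : Subgroup.closure (Set.range (σ (CoxeterMatrix.A 2))) ≤
      Subgroup.centralizer {ev (sA 2) FT3} := by
    rw [Subgroup.closure_le]
    rintro y ⟨i, rfl⟩
    show σ (CoxeterMatrix.A 2) i ∈ Subgroup.centralizer {ev (sA 2) FT3}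
    rw [Subgroup.mem_centralizer_singleton_iff]
    fin_cases i
    · have h := b3_id (g := sA 2) braid_A2 ([(0, true)] ++ FT3) (FT3 ++ [(0, true)]) (by decide)
        (by decide) (by decide)
      rw [ev_append, ev_append, ev_single] at h
      have e : lt (sA 2) (0, true) = σ (CoxeterMatrix.A 2) ((fun i => i) ⟨0, by omega⟩) := by
        rw [← sA_lt (by omega)]
        rfl
      rw [e] at h
      exact h
    · have h := b3_id (g := sA 2) braid_A2 ([(1, true)] ++ FT3) (FT3 ++ [(1, true)]) (by decide)
        (by decide) (by decide)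
      rw [ev_append, ev_append, ev_single] at h
      have e : lt (sA 2) (1, true) = σ (CoxeterMatrix.A 2) ((fun i => i) ⟨1, by omega⟩) := by
        rw [← sA_lt (by omega)]
        rfl
      rw [e] at h
      exact h
  rw [art_closure] at h1
  have h2 := h1 (Subgroup.mem_top x)
  rw [Subgroup.mem_centralizer_singleton_iff] at h2
  exact h2

end Pool.Agent.Lib.MP_9dbb0e_al.GT
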