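import Pool.Agent.Lib.MP_9dbb0e_al.GT.E3

/-!
# The affine types `C₂~` and `A₂~`
-/

set_option autoImplicit false
set_option maxRecDepth 100000

namespace Pool.Agent.Lib.MP_9dbb0e_al.GT

open FreeGroup (of)

/-- Type `C₂~`. -/
theorem C2_embeds {B : Type} (M : CoxeterMatrix B) {a b c : B} (hu : ∀ i, i = a ∨ i = b ∨ i = c)
    (hab : M.M a b = 4) (hac : M.M a c = 2) (hbc : M.M b c = 4) :
    ∃ F : Art M →* Art (CoxeterMatrix.A 3), Function.Injective F := by
  have nab := ne_of_label M hab (by decide)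
  have nac := ne_of_label M hac (by decide)
  have nbc := ne_of_label M hbc (by decide)
  have r01 : sA 3 0 * sA 3 1 * sA 3 0 = sA 3 1 * sA 3 0 * sA 3 1 := sA_braid 0 (by omega)
  have r12 : sA 3 1 * sA 3 2 * sA 3 1 = sA 3 2 * sA 3 1 * sA 3 2 := sA_braid 1 (by omega)
  obtain ⟨f, fa, fb, fc⟩ := lift3 M nab nac nbc hu (sA 3 0 * sA 3 0) (sA 3 1) (sA 3 2 * sA 3 2)
    (by
      intro _
      rw [hab, alt_four, alt_four]
      exact sq_comm r01)
    (by
      intro _
      have h : Commute (sA 3 0) (sA 3 2) := sA_comm 0 2 (by omega) (by omega) (by omega)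
      rw [hac, alt_two, alt_two]
      exact (h.mul_right h).mul_left (h.mul_right h))
    (by
      intro _
      rw [hbc, alt_four, alt_four]
      exact sq_comm' r12)
  obtain ⟨Φ, Φa, Φb, Φc⟩ := lift3 M nab nac nbc hu (sA 2 0 * sA 2 0) (sA 2 1)
    (1 : Art (CoxeterMatrix.A 2))
    (by
      intro _
      rw [hab, alt_four, alt_four]
      exact sq_comm braid_A2)
    (by
      intro _
      rw [hac, alt_two, alt_two]
      group)
    (by
      intro _
      rw [hbc, alt_four, alt_four]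
      group)
  have hcf : ∀ (m : Art M) (n : Multiplicative ℤ),
      Commute (f m) (zpowersHom _ (ev (sA 3) FT4) n) := by
    intro m n
    rw [zpowersHom_apply]
    exact (FT4_central (f m)).zpow_right _
  have hcΦ : ∀ (m : Art M) (n : Multiplicative ℤ),
      Commute (Φ m) (zpowersHom _ (ev (sA 2) FT3) n) := by
    intro m n
    rw [zpowersHom_apply]
    exact (FT3_central (Φ m)).zpow_right _
  let f' : Art M × Multiplicative ℤ →* Art (CoxeterMatrix.A 3) :=
    MonoidHom.noncommCoprod f (zpowersHom _ (ev (sA 3) FT4)) hcf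
  let Φ' : Art M × Multiplicative ℤ →* Art (CoxeterMatrix.A 2) :=
    MonoidHom.noncommCoprod Φ (zpowersHom _ (ev (sA 2) FT3)) hcΦ
  have hf' : ∀ x, f' (x, 1) = f x := by
    intro x
    show f x * zpowersHom _ (ev (sA 3) FT4) 1 = f x
    rw [map_one, mul_one]
  have hΦ' : ∀ x, Φ' (x, 1) = Φ x := by
    intro x
    show Φ x * zpowersHom _ (ev (sA 2) FT3) 1 = Φ x
    rw [map_one, mul_one]
  have hfz : f' (1, Multiplicative.ofAdd 1) = ev (sA 3) FT4 := by
    show f 1 * zpowersHom _ (ev (sA 3) FT4) (Multiplicative.ofAdd 1) = _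
    rw [map_one, one_mul, zpowersHom_apply]
    show ev (sA 3) FT4 ^ (1 : ℤ) = _
    rw [zpow_one]
  have hΦz : Φ' (1, Multiplicative.ofAdd 1) = ev (sA 2) FT3 := by
    show Φ 1 * zpowersHom _ (ev (sA 2) FT3) (Multiplicative.ofAdd 1) = _
    rw [map_one, one_mul, zpowersHom_apply]
    show ev (sA 2) FT3 ^ (1 : ℤ) = _
    rw [zpow_one]
  have hz : ∀ x : Art M, ((1 : Art M), Multiplicative.ofAdd (1 : ℤ)) * (x, 1) =
      (x, 1) * (1, Multiplicative.ofAdd 1) := by
    intro x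
    rw [Prod.mk_mul_mk, Prod.mk_mul_mk, one_mul, mul_one, one_mul, mul_one]
  have r1 := rel_four M nab hab
  have r2 := rel_two M nac hac
  have r3 := rel_four M nbc hbc
  refine ⟨f, (injective_iff_map_eq_one f).2 fun g hg => ?_⟩
  have hmem : ((g, 1) : Art M × Multiplicative ℤ) ∈
      Subgroup.closure ({(σ M a, 1), (σ M b, 1), (σ M c, 1), (1, Multiplicative.ofAdd 1)} :
        Set (Art M × Multiplicative ℤ)) := by
    have h1 : Subgroup.closure ({σ M a, σ M b, σ M c} : Set (Art M)) ≤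
        (Subgroup.closure ({(σ M a, 1), (σ M b, 1), (σ M c, 1), (1, Multiplicative.ofAdd 1)} :
        Set (Art M × Multiplicative ℤ))).comap (MonoidHom.inl (Art M) (Multiplicative ℤ)) := by
      rw [Subgroup.closure_le]
      rintro x (rfl | rfl | hx)
      · exact Subgroup.subset_closure (Or.inl rfl)
      · exact Subgroup.subset_closure (Or.inr (Or.inl rfl))
      · rw [Set.mem_singleton_iff] at hx
        subst hx
        exact Subgroup.subset_closure (Or.inr (Or.inr (Or.inl rfl)))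
    rw [closure3 M hu] at h1
    exact h1 (Subgroup.mem_top g)
  have key := C2_rel (a := ((σ M a, 1) : Art M × Multiplicative ℤ)) (b := (σ M b, 1))
    (c := (σ M c, 1)) (z := (1, Multiplicative.ofAdd 1))
    (by
      simp only [Prod.mk_mul_mk, mul_one]
      rw [r1])
    (by
      simp only [Prod.mk_mul_mk, mul_one]
      rw [r2])
    (by
      simp only [Prod.mk_mul_mk, mul_one]
      rw [r3])
    (hz _) (hz _) (hz _) f' (by rw [hf', fa]) (by rw [hf', fb]) (by rw [hf', fc]) hfz Φ'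
    (by rw [hΦ', Φa]) (by rw [hΦ', Φb]) (by rw [hΦ', Φc]) hΦz (g, 1) hmem (by rw [hf', hg])
  exact congrArg Prod.fst key

/-- The Coxeter matrix of type `B₃`. -/
def mB3 : CoxeterMatrix (Fin 3) where
  M := !![1, 3, 2; 3, 1, 4; 2, 4, 1]

/-- Identities between three letters. -/
theorem braid_inv {G : Type*} [Group G] {a b : G} (hab : a * b * a = b * a * b) :
    b * a⁻¹ * b⁻¹ = a⁻¹ * b⁻¹ * a := by
  have h := b3_id (gg_braid hab) [(1, true), (0, false), (1, false)]
    [(0, false), (1, false), (0, true)] (by decide) (by decide) (by decide)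
  simp only [ev_cons, ev_nil, lt, gg_zero, gg_one, mul_one] at h
  rw [mul_assoc, mul_assoc]
  exact h

theorem tau_b {G : Type*} [Group G] {a b c : G} (hab : a * b * a = b * a * b) (hac : a * c = c * a) :
    (c * b * a) * b * (c * b * a)⁻¹ = a := by
  calc (c * b * a) * b * (c * b * a)⁻¹ = c * (b * a * b) * a⁻¹ * b⁻¹ * c⁻¹ := by group
    _ = c * (a * b * a) * a⁻¹ * b⁻¹ * c⁻¹ := by rw [hab]
    _ = (c * a) * c⁻¹ := by group
    _ = (a * c) * c⁻¹ := by rw [hac]
    _ = a := by group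

theorem tau_rot {G : Type*} [Group G] {a b c : G} (hab : a * b * a = b * a * b) (hac : a * c = c * a)
    (hbc : b * c * b * c = c * b * c * b) :
    (c * b * a)⁻¹ * b * (c * b * a) = (c * b * a) * a * (c * b * a)⁻¹ := by
  have h1 : b * a * b⁻¹ = a⁻¹ * b * a := by
    have h := braid_inv hab
    have h2 : b * a * b⁻¹ = (b * a⁻¹ * b⁻¹)⁻¹ := by group
    rw [h2, h]
    group
  have h2 : c * b * c⁻¹ = b⁻¹ * c⁻¹ * (b * c * b) := by
    rw [mul_inv_eq_iff_eq_mul, ← mul_right_inj (c * b)]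
    calc c * b * (c * b) = c * b * c * b := by group
      _ = b * c * b * c := hbc.symm
      _ = c * b * (b⁻¹ * c⁻¹ * (b * c * b) * c) := by group
  have hac' : a⁻¹ * c = c * a⁻¹ := by
    have h : Commute a c := hac
    exact h.inv_left
  have hac'' : a * c⁻¹ = c⁻¹ * a := by
    have h : Commute a c := hac
    exact h.inv_right
  symm
  calc (c * b * a) * a * (c * b * a)⁻¹ = c * (b * a * b⁻¹) * c⁻¹ := by group
    _ = c * (a⁻¹ * b * a) * c⁻¹ := by rw [h1]
    _ = (c * a⁻¹) * b * (a * c⁻¹) := by group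
    _ = (a⁻¹ * c) * b * (c⁻¹ * a) := by rw [hac', hac'']
    _ = a⁻¹ * (c * b * c⁻¹) * a := by group
    _ = a⁻¹ * (b⁻¹ * c⁻¹ * (b * c * b)) * a := by rw [h2]
    _ = (c * b * a)⁻¹ * b * (c * b * a) := by group

/-- Type `A₂~`. -/
theorem A2t_embeds {B : Type} (M : CoxeterMatrix B) {a b c : B} (hu : ∀ i, i = a ∨ i = b ∨ i = c)
    (hab : M.M a b = 3) (hac : M.M a c = 3) (hbc : M.M b c = 3) :
    ∃ F : Art M →* Art (CoxeterMatrix.A 3), Function.Injective F := by
  have nab := ne_of_label M hab (by decide)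
  have nac := ne_of_label M hac (by decide)
  have nbc := ne_of_label M hbc (by decide)
  have r1 := rel_three M nab hab
  have r2 := rel_three M nac hac
  have r3 := rel_three M nbc hbc
  have m01 : (0 : Fin 3) ≠ 1 := by decide
  have m02 : (0 : Fin 3) ≠ 2 := by decide
  have m12 : (1 : Fin 3) ≠ 2 := by decide
  have hu3 : ∀ i : Fin 3, i = 0 ∨ i = 1 ∨ i = 2 := by decide
  have l01 : mB3.M 0 1 = 3 := rfl
  have l02 : mB3.M 0 2 = 2 := rfl
  have l12 : mB3.M 1 2 = 4 := rfl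
  obtain ⟨β, hβ⟩ := B3_embeds mB3 hu3 l01 l02 l12
  have q1 := rel_three mB3 m01 l01
  have q2 := rel_two mB3 m02 l02
  have q3 := rel_four mB3 m12 l12
  have ht1 := tau_b q1 q2
  have ht2 := tau_rot q1 q2 q3
  obtain ⟨τ, hτ⟩ : ∃ τ, τ = σ mB3 2 * σ mB3 1 * σ mB3 0 := ⟨_, rfl⟩
  rw [← hτ] at ht1 ht2
  have conjrel : ∀ t x y : Art mB3, x * y * x = y * x * y →
      (t * x * t⁻¹) * (t * y * t⁻¹) * (t * x * t⁻¹) = (t * y * t⁻¹) * (t * x * t⁻¹) * (t * y * t⁻¹) := by
    intro t x y h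
    calc (t * x * t⁻¹) * (t * y * t⁻¹) * (t * x * t⁻¹) = t * (x * y * x) * t⁻¹ := by group
      _ = t * (y * x * y) * t⁻¹ := by rw [h]
      _ = _ := by group
  have s1 : σ mB3 0 * (τ * σ mB3 0 * τ⁻¹) * σ mB3 0 =
      (τ * σ mB3 0 * τ⁻¹) * σ mB3 0 * (τ * σ mB3 0 * τ⁻¹) := by
    have h := conjrel τ (σ mB3 1) (σ mB3 0) q1.symm
    rwa [ht1] at h
  have s2 : σ mB3 1 * (τ * σ mB3 0 * τ⁻¹) * σ mB3 1 =
      (τ * σ mB3 0 * τ⁻¹) * σ mB3 1 * (τ * σ mB3 0 * τ⁻¹) := by
    have h := conjrel τ _ _ s1.symm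
    rw [← ht2] at h
    have e : τ * (τ⁻¹ * σ mB3 1 * τ) * τ⁻¹ = σ mB3 1 := by group
    rw [e, ht2] at h
    exact h
  obtain ⟨f, fa, fb, fc⟩ := lift3 M nab nac nbc hu (σ mB3 1) (σ mB3 0) (τ * σ mB3 0 * τ⁻¹)
    (by
      intro _
      rw [hab, alt_three, alt_three]
      exact q1.symm)
    (by
      intro _
      rw [hac, alt_three, alt_three]
      exact s2)
    (by
      intro _
      rw [hbc, alt_three, alt_three]
      exact s1)
  obtain ⟨R, Ra, Rb, Rc⟩ := lift3 M nab nac nbc hu (σ M b) (σ M c) (σ M a)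
    (by
      intro _
      rw [hab, alt_three, alt_three]
      exact r3)
    (by
      intro _
      rw [hac, alt_three, alt_three]
      exact r1.symm)
    (by
      intro _
      rw [hbc, alt_three, alt_three]
      exact r2.symm)
  have R3 : ∀ x, R (R (R x)) = x := by
    have h : (R.comp R).comp R = MonoidHom.id _ := by
      refine art_ext M _ _ fun i => ?_
      show R (R (R (σ M i))) = σ M i
      rcases hu i with rfl | rfl | rfl
      · rw [Ra, Rb, Rc]
      · rw [Rb, Rc, Ra]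
      · rw [Rc, Ra, Rb]
    exact fun x => DFunLike.congr_fun h x
  let r : Equiv.Perm (Art M) :=
    { toFun := R
      invFun := fun x => R (R x)
      left_inv := R3
      right_inv := R3 }
  let L : Art M →* Equiv.Perm (Art M) := MulAction.toPermHom (Art M) (Art M)
  have hL : ∀ x, L (R x) * r = r * L x := by
    intro x
    refine Equiv.ext fun y => ?_
    show R x * R y = R (x * y)
    rw [map_mul]
  have hLinj : Function.Injective L := by
    intro x y hxy
    have h : L x 1 = L y 1 := by rw [hxy]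
    have h1 : x * 1 = y * 1 := h
    rwa [mul_one, mul_one] at h1
  have La : L (σ M b) * r = r * L (σ M a) := by rw [← Ra, hL]
  have Lb : L (σ M c) * r = r * L (σ M b) := by rw [← Rb, hL]
  have Lc : L (σ M a) * r = r * L (σ M c) := by rw [← Rc, hL]
  have w1 : (σ M a) * (σ M b)⁻¹ * (σ M a)⁻¹ = (σ M b)⁻¹ * (σ M a)⁻¹ * σ M b := braid_inv r1.symm
  have w2 : (σ M b) * (σ M a)⁻¹ * (σ M b)⁻¹ = (σ M a)⁻¹ * (σ M b)⁻¹ * σ M a := braid_inv r1
  obtain ⟨A, hA⟩ : ∃ A, A = L (σ M a) := ⟨_, rfl⟩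
  obtain ⟨D, hD⟩ : ∃ D, D = L (σ M b) := ⟨_, rfl⟩
  obtain ⟨E, hE⟩ : ∃ E, E = L (σ M c) := ⟨_, rfl⟩
  have v1 : A * D⁻¹ * A⁻¹ = D⁻¹ * A⁻¹ * D := by
    rw [hA, hD, ← map_inv, ← map_inv, ← map_mul, ← map_mul, w1, map_mul, map_mul]
  have v2 : D * A⁻¹ * D⁻¹ = A⁻¹ * D⁻¹ * A := by
    rw [hA, hD, ← map_inv, ← map_inv, ← map_mul, ← map_mul, w2, map_mul, map_mul]
  have v3 : A * D * A = D * A * D := by
    rw [hA, hD, ← map_mul, ← map_mul, r1, map_mul, map_mul]
  rw [← hA, ← hD] at La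
  rw [← hD, ← hE] at Lb
  rw [← hA, ← hE] at Lc
  obtain ⟨g, g0, g1, g2⟩ := lift3 mB3 m01 m02 m12 hu3 D A (r * (D⁻¹ * A⁻¹))
    (by
      intro _
      rw [l01, alt_three, alt_three]
      exact v3.symm)
    (by
      intro _
      rw [l02, alt_two, alt_two]
      calc D * (r * (D⁻¹ * A⁻¹)) = (D * r) * (D⁻¹ * A⁻¹) := by group
        _ = r * (A * D⁻¹ * A⁻¹) := by rw [La]; group
        _ = r * (D⁻¹ * A⁻¹ * D) := by rw [v1]
        _ = r * (D⁻¹ * A⁻¹) * D := by group)
    (by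
      intro _
      rw [l12, alt_four, alt_four]
      have u1 : D⁻¹ * r = r * A⁻¹ := by
        rw [← mul_right_inj D, ← mul_left_inj A]
        calc D * (D⁻¹ * r) * A = r * A := by group
          _ = D * r := La.symm
          _ = D * (r * A⁻¹) * A := by group
      calc A * (r * (D⁻¹ * A⁻¹)) * A * (r * (D⁻¹ * A⁻¹)) = (A * r) * (D⁻¹ * r) * (D⁻¹ * A⁻¹) := by
            group
        _ = (r * E) * (r * A⁻¹) * (D⁻¹ * A⁻¹) := by rw [Lc, u1]
        _ = r * (E * r) * A⁻¹ * D⁻¹ * A⁻¹ := by group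
        _ = r * (r * D) * A⁻¹ * D⁻¹ * A⁻¹ := by rw [Lb]
        _ = r * r * (D * A⁻¹ * D⁻¹) * A⁻¹ := by group
        _ = r * r * (A⁻¹ * D⁻¹ * A) * A⁻¹ := by rw [v2]
        _ = r * (r * A⁻¹) * D⁻¹ := by group
        _ = r * (D⁻¹ * r) * D⁻¹ := by rw [u1]
        _ = r * (D⁻¹ * A⁻¹) * A * (r * (D⁻¹ * A⁻¹)) * A := by group)
  have hgτ : g τ = r := by
    rw [hτ, map_mul, map_mul, g0, g1, g2]
    group
  have hgf : g.comp f = L := by
    refine art_ext M _ _ fun i => ?_
    rcases hu i with rfl | rfl | rfl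
    · rw [MonoidHom.comp_apply, fa, g1, hA]
    · rw [MonoidHom.comp_apply, fb, g0, hD]
    · rw [MonoidHom.comp_apply, fc, map_mul, map_mul, map_inv, hgτ, g0, ← Lb, ← hE]
      group
  refine ⟨β.comp f, ?_⟩
  intro x y hxy
  have h1 : f x = f y := hβ hxy
  apply hLinj
  rw [← hgf, MonoidHom.comp_apply, MonoidHom.comp_apply, h1]

end Pool.Agent.Lib.MP_9dbb0e_al.GT
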