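import Pool.Agent.Lib.MP_9dbb0e_al.Defs

/-!
# Automorphisms of free groups which are pushes of one generator

* `kill a`: the endomorphism of `FreeGroup α` which kills the generator `a`.
* `kill_of_comm`: if `W` commutes with the generator `a` then `kill a W = 1`.
* `Push S a β t`: the automorphism `β` maps the generator `a` to its conjugate by `W` and induces on the
  quotient by the generator `a` the conjugation by `u ∈ S`, and `t = (kill a W)⁻¹ * u`. This relation is
  multiplicative.
* `push_free`: the elements with free push values generate freely.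
-/

set_option autoImplicit false

namespace Pool.Agent.Lib.MP_9dbb0e_al.GT

open FreeGroup (of)

section

variable {α : Type} [DecidableEq α]

/-- the endomorphism which kills the generator `a` -/
def kill (a : α) : FreeGroup α →* FreeGroup α := FreeGroup.lift fun i => if i = a then 1 else of i

theorem kill_self (a : α) : kill a (of a) = 1 := by
  unfold kill
  rw [FreeGroup.lift_apply_of, if_pos rfl]

theorem kill_ne {a i : α} (h : i ≠ a) : kill a (of i) = of i := by
  unfold kill
  rw [FreeGroup.lift_apply_of, if_neg h]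

theorem kill_kill (a : α) (x : FreeGroup α) : kill a (kill a x) = kill a x := by
  have h : (kill a).comp (kill a) = kill a := by
    refine FreeGroup.ext_hom _ _ fun i => ?_
    rw [MonoidHom.comp_apply]
    by_cases h : i = a
    · rw [h, kill_self, map_one]
    · rw [kill_ne h, kill_ne h]
  exact DFunLike.congr_fun h x

/-- the permutation of `FreeGroup α × Bool` which exchanges `(1, true)` and `(1, false)` -/
def swp (α : Type) [DecidableEq α] : Equiv.Perm (FreeGroup α × Bool) :=
  Function.Involutive.toPerm (fun p => if p.1 = 1 then (p.1, !p.2) else p) (by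
    rintro ⟨h, t⟩
    by_cases hh : h = 1
    · simp [hh]
    · simp [hh])

/-- the permutation representation used in `kill_of_comm` -/
def prep (a : α) : FreeGroup α →* Equiv.Perm (FreeGroup α × Bool) :=
  FreeGroup.lift fun i => if i = a then swp α else
    Equiv.prodCongr (Equiv.mulLeft (of i)) (Equiv.refl Bool)

theorem prep_fst (a : α) (W : FreeGroup α) : ∀ p : FreeGroup α × Bool,
    (prep a W p).1 = kill a W * p.1 := by
  have key : ∀ (i : α) (p : FreeGroup α × Bool), (prep a (of i) p).1 = kill a (of i) * p.1 := by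
    rintro i ⟨h, t⟩
    unfold prep
    rw [FreeGroup.lift_apply_of]
    by_cases hi : i = a
    · rw [if_pos hi, hi, kill_self, one_mul]
      show (if h = 1 then (h, !t) else (h, t)).1 = h
      split_ifs <;> rfl
    · rw [if_neg hi, kill_ne hi]
      rfl
  induction W using FreeGroup.induction_on with
  | C1 => intro p; rw [map_one, map_one, one_mul]; rfl
  | of i => exact key i
  | inv_of i _ =>
    intro p
    rw [map_inv, map_inv, eq_inv_mul_iff_mul_eq, ← key i, ← Equiv.Perm.mul_apply, mul_inv_cancel]
    rfl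
  | mul x y hx hy =>
    intro p
    rw [map_mul, Equiv.Perm.mul_apply, hx, hy, map_mul, mul_assoc]

/-- An element which commutes with the generator `a` is killed together with `a`. -/
theorem kill_of_comm {a : α} {W : FreeGroup α} (h : W * of a * W⁻¹ = of a) : kill a W = 1 := by
  by_contra hne
  have h1 : W * of a = of a * W := by
    rw [← mul_inv_eq_iff_eq_mul]
    exact h
  have h2 : prep a W (prep a (of a) (1, true)) = prep a (of a) (prep a W (1, true)) := by
    rw [← Equiv.Perm.mul_apply, ← Equiv.Perm.mul_apply, ← map_mul, ← map_mul, h1]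
  have h3 : ∀ p : FreeGroup α × Bool, p.1 ≠ 1 → prep a (of a) p = p := by
    rintro ⟨g, t⟩ hg
    unfold prep
    rw [FreeGroup.lift_apply_of, if_pos rfl]
    show (if g = 1 then (g, !t) else (g, t)) = (g, t)
    rw [if_neg hg]
  have h4 : prep a (of a) ((1 : FreeGroup α), true) = (1, false) := by
    unfold prep
    rw [FreeGroup.lift_apply_of, if_pos rfl]
    show (if (1 : FreeGroup α) = 1 then ((1 : FreeGroup α), !true) else (1, true)) = (1, false)
    rw [if_pos rfl]
    rfl
  rw [h3 (prep a W (1, true)), h4] at h2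
  · have h5 := (prep a W).injective h2
    have h6 := congrArg Prod.snd h5
    simp at h6
  · rw [prep_fst, mul_one]
    exact hne

/-- `β` conjugates the generator `a` by `W`, and modulo this generator it is the conjugation by `u`;
`t = (kill a W)⁻¹ * u`. -/
def Push (S : Subgroup (FreeGroup α)) (a : α) (β : MulAut (FreeGroup α)) (t : FreeGroup α) : Prop :=
  ∃ W u : FreeGroup α, u ∈ S ∧ β (of a) = W * of a * W⁻¹ ∧
    (∀ y, kill a (β y) = u * kill a y * u⁻¹) ∧ t = (kill a W)⁻¹ * u

theorem Push.of_gens {S : Subgroup (FreeGroup α)} {a : α} {β : MulAut (FreeGroup α)}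
    (W u : FreeGroup α) (hu : u ∈ S) (h1 : β (of a) = W * of a * W⁻¹)
    (h2 : ∀ i, i ≠ a → kill a (β (of i)) = u * of i * u⁻¹) :
    Push S a β ((kill a W)⁻¹ * u) := by
  refine ⟨W, u, hu, h1, ?_, rfl⟩
  have h : (kill a).comp β.toMonoidHom = ((MulAut.conj u).toMonoidHom).comp (kill a) := by
    refine FreeGroup.ext_hom _ _ fun i => ?_
    show kill a (β (of i)) = u * kill a (of i) * u⁻¹
    by_cases hi : i = a
    · rw [hi, h1, kill_self, map_mul, map_mul, kill_self, mul_one, mul_one, map_inv,
        mul_inv_cancel, mul_inv_cancel]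
    · rw [h2 i hi, kill_ne hi]
  exact fun y => DFunLike.congr_fun h y

theorem Push.one (S : Subgroup (FreeGroup α)) (a : α) : Push S a 1 1 := by
  refine ⟨1, 1, S.one_mem, ?_, ?_, ?_⟩
  · simp
  · intro y
    simp
  · simp

theorem Push.mul {S : Subgroup (FreeGroup α)} {a : α} {β β' : MulAut (FreeGroup α)}
    {t t' : FreeGroup α} (h : Push S a β t) (h' : Push S a β' t') : Push S a (β * β') (t * t') := by
  obtain ⟨W, u, hu, h1, h2, h3⟩ := h
  obtain ⟨W', u', hu', h1', h2', h3'⟩ := h'
  refine ⟨β W' * W, u * u', S.mul_mem hu hu', ?_, ?_, ?_⟩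
  · rw [MulAut.mul_apply, h1', map_mul, map_mul, h1, map_inv]
    group
  · intro y
    rw [MulAut.mul_apply, h2, h2']
    group
  · rw [h3, h3', map_mul, h2]
    group

theorem Push.inv {S : Subgroup (FreeGroup α)} {a : α} {β : MulAut (FreeGroup α)}
    {t : FreeGroup α} (h : Push S a β t) : Push S a β⁻¹ t⁻¹ := by
  obtain ⟨W, u, hu, h1, h2, h3⟩ := h
  have h4 : ∀ y, β (β⁻¹ y) = y := fun y => by
    rw [← MulAut.mul_apply, mul_inv_cancel]
    rfl
  have h5 : ∀ y, β⁻¹ (β y) = y := fun y => by
    rw [← MulAut.mul_apply, inv_mul_cancel]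
    rfl
  have h6 : ∀ y, kill a (β⁻¹ y) = u⁻¹ * kill a y * u := by
    intro y
    have h7 := h2 (β⁻¹ y)
    rw [h4] at h7
    rw [h7]
    group
  refine ⟨(β⁻¹ W)⁻¹, u⁻¹, S.inv_mem hu, ?_, ?_, ?_⟩
  · have h7 : β⁻¹ (β (of a)) = β⁻¹ (W * of a * W⁻¹) := by rw [h1]
    rw [h5, map_mul, map_mul, map_inv] at h7
    rw [inv_inv]
    generalize β⁻¹ (of a) = p at h7 ⊢
    rw [h7]
    group
  · intro y
    rw [h6, inv_inv]
  · rw [h3, map_inv, h6]
    group

/-- A homomorphism from a free group all of whose generators are pushes, with values which are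
freely independent, is injective. -/
theorem push_free {X G : Type} [Group G] (S : Subgroup (FreeGroup α)) (a : α)
    (hS : ∀ u ∈ S, (∀ i, i ≠ a → u * of i * u⁻¹ = of i) → u = 1)
    (ρ : G →* MulAut (FreeGroup α)) (θ : FreeGroup X →* G) (T : FreeGroup X →* FreeGroup α)
    (hT : Function.Injective T) (h : ∀ x, Push S a (ρ (θ (of x))) (T (of x)))
    (v : FreeGroup X) (hv : ρ (θ v) = 1) : v = 1 := by
  have h1 : ∀ v : FreeGroup X, Push S a (ρ (θ v)) (T v) := by
    intro v
    induction v using FreeGroup.induction_on with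
    | C1 => rw [map_one, map_one, map_one]; exact Push.one S a
    | of x => exact h x
    | inv_of x hx => rw [map_inv, map_inv, map_inv]; exact hx.inv
    | mul x y hx hy => rw [map_mul, map_mul, map_mul]; exact hx.mul hy
  obtain ⟨W, u, hu, h2, h3, h4⟩ := h1 v
  rw [hv] at h2 h3
  have h5 : kill a W = 1 := kill_of_comm h2.symm
  have h6 : u = 1 := by
    refine hS u hu fun i hi => ?_
    have h7 := h3 (of i)
    rw [MulAut.one_apply, kill_ne hi] at h7
    exact h7.symm
  apply hT
  rw [h4, h5, h6, map_one]
  simp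

/-- The case in which no conjugation occurs. -/
theorem push_free_bot {X G : Type} [Group G] (a : α)
    (ρ : G →* MulAut (FreeGroup α)) (θ : FreeGroup X →* G) (T : FreeGroup X →* FreeGroup α)
    (hT : Function.Injective T) (h : ∀ x, Push ⊥ a (ρ (θ (of x))) (T (of x)))
    (v : FreeGroup X) (hv : ρ (θ v) = 1) : v = 1 := by
  refine push_free ⊥ a (fun u hu _ => ?_) ρ θ T hT h v hv
  rwa [Subgroup.mem_bot] at hu

end

end Pool.Agent.Lib.MP_9dbb0e_al.GT
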