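import Pool.Agent.Lib.MP_9dbb0e_al.GT.G2n

/-!
# The structure of the Artin group of type `G₂~`: more conjugates in the subgroup
-/

set_option autoImplicit false

namespace Pool.Agent.Lib.MP_9dbb0e_al.GT

section

variable {A : Type*} [Group A] {a b c : A}

theorem cu_inf : Y a b c [] ∈ Ns a b c := bs_mem 0

theorem cu_m1 : Y a b c [(1, true)] ∈ Ns a b c := bs_mem 1

theorem cu_p1 : Y a b c [(1, false)] ∈ Ns a b c := bs_mem 2

theorem cu_p0 : Y a b c [(0, true), (1, true)] ∈ Ns a b c := bs_mem 3

theorem cu_p2 : Y a b c [(0, true), (1, false)] ∈ Ns a b c := bs_mem 4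

theorem cu_h1 : Y a b c [(1, false), (1, false)] ∈ Ns a b c := bs_mem 5

theorem cu_m2 (hab : a * b * a = b * a * b) (hac : a * c = c * a)
    (hbc : b * c * b * c * b * c = c * b * c * b * c * b) : Y a b c [(0, false), (1, true)] ∈ Ns a b c := by
  have h1 : Y a b c [(1, true)] ∈ Ns a b c :=
    (P_id hab hac [(1, true)] [(1, true)] 0 true 0 true (by decide) (by decide) (by decide +kernel)).2 cu_m1
  have h3 : Y a b c [(1, true), (0, true), (0, true), (0, true), (1, true), (0, true), (0, true), (0, true), (1, true)] ∈ Ns a b c :=
    (P_id hab hac [(1, true), (0, true), (0, true), (0, true), (1, true), (0, true), (0, true), (0, true), (1, true)] [] 3 false 2 true (by decide) (by decide) (by decide +kernel)).2 cu_inf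
  have h4 : Y a b c [] ∈ Ns a b c :=
    (P_id hab hac [] [] 0 true 0 true (by decide) (by decide) (by decide +kernel)).2 cu_inf
  have h5 : Y a b c [(0, true), (0, true), (0, true), (1, true)] ∈ Ns a b c :=
    (P_id hab hac [(0, true), (0, true), (0, true), (1, true)] [(0, true), (1, false)] 2 false 1 true (by decide) (by decide) (by decide +kernel)).2 cu_p2
  have h6 : Y a b c [(0, true), (0, true), (0, true), (1, true), (0, true), (0, true), (0, true), (1, true)] ∈ Ns a b c :=
    (P_id hab hac [(0, true), (0, true), (0, true), (1, true), (0, true), (0, true), (0, true), (1, true)] [(1, false)] 3 false 2 true (by decide) (by decide) (by decide +kernel)).2 cu_p1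
  have h0 := R_left hab hbc [] h1 h3 h4 h5 h6
  exact (P_id hab hac [(1, true), (0, true), (0, true), (0, true), (1, true)] [(0, false), (1, true)] 1 false 1 true (by decide) (by decide) (by decide +kernel)).1 h0

theorem cu_p3 (hab : a * b * a = b * a * b) (hac : a * c = c * a)
    (hbc : b * c * b * c * b * c = c * b * c * b * c * b) : Y a b c [(0, true), (0, true), (1, false)] ∈ Ns a b c := by
  have h1 : Y a b c [(0, true), (1, true)] ∈ Ns a b c :=
    (P_id hab hac [(0, true), (1, true)] [(0, true), (1, true)] 0 true 0 true (by decide) (by decide) (by decide +kernel)).2 cu_p0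
  have h2 : Y a b c [(0, true), (1, true), (0, true), (0, true), (0, true), (1, true)] ∈ Ns a b c :=
    (P_id hab hac [(0, true), (1, true), (0, true), (0, true), (0, true), (1, true)] [(1, true)] 1 false 1 true (by decide) (by decide) (by decide +kernel)).2 cu_m1
  have h3 : Y a b c [(0, true), (1, true), (0, true), (0, true), (0, true), (1, true), (0, true), (0, true), (0, true), (1, true)] ∈ Ns a b c :=
    (P_id hab hac [(0, true), (1, true), (0, true), (0, true), (0, true), (1, true), (0, true), (0, true), (0, true), (1, true)] [] 2 false 2 true (by decide) (by decide) (by decide +kernel)).2 cu_inf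
  have h4 : Y a b c [(0, true)] ∈ Ns a b c :=
    (P_id hab hac [(0, true)] [] 1 true 0 true (by decide) (by decide) (by decide +kernel)).2 cu_inf
  have h6 : Y a b c [(0, true), (0, true), (0, true), (0, true), (1, true), (0, true), (0, true), (0, true), (1, true)] ∈ Ns a b c :=
    (P_id hab hac [(0, true), (0, true), (0, true), (0, true), (1, true), (0, true), (0, true), (0, true), (1, true)] [(0, true), (1, false)] 3 false 2 true (by decide) (by decide) (by decide +kernel)).2 cu_p2
  have h0 := R_right hab hbc [(0, true)] h1 h2 h3 h4 h6
  exact (P_id hab hac [(0, true), (0, true), (0, true), (0, true), (1, true)] [(0, true), (0, true), (1, false)] 2 false 1 true (by decide) (by decide) (by decide +kernel)).1 h0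

theorem cu_mh (hab : a * b * a = b * a * b) (hac : a * c = c * a)
    (hbc : b * c * b * c * b * c = c * b * c * b * c * b) : Y a b c [(1, true), (1, true)] ∈ Ns a b c := by
  have h1 : Y a b c [(0, true), (1, true), (0, true), (1, true)] ∈ Ns a b c :=
    (P_id hab hac [(0, true), (1, true), (0, true), (1, true)] [(1, false)] 1 false 1 true (by decide) (by decide) (by decide +kernel)).2 cu_p1
  have h2 : Y a b c [(0, true), (1, true), (0, true), (1, true), (0, true), (0, true), (0, true), (1, true)] ∈ Ns a b c :=
    (P_id hab hac [(0, true), (1, true), (0, true), (1, true), (0, true), (0, true), (0, true), (1, true)] [(1, false), (1, false)] 2 false 2 true (by decide) (by decide) (by decide +kernel)).2 cu_h1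
  have h3 : Y a b c [(0, true), (1, true), (0, true), (1, true), (0, true), (0, true), (0, true), (1, true), (0, true), (0, true), (0, true), (1, true)] ∈ Ns a b c :=
    (P_id hab hac [(0, true), (1, true), (0, true), (1, true), (0, true), (0, true), (0, true), (1, true), (0, true), (0, true), (0, true), (1, true)] [(0, true), (1, true)] 2 false 2 true (by decide) (by decide) (by decide +kernel)).2 cu_p0
  have h4 : Y a b c [(0, true), (1, true), (0, true)] ∈ Ns a b c :=
    (P_id hab hac [(0, true), (1, true), (0, true)] [(0, true), (1, true)] 1 true 0 true (by decide) (by decide) (by decide +kernel)).2 cu_p0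
  have h6 : Y a b c [(0, true), (1, true), (0, true), (0, true), (0, true), (0, true), (1, true), (0, true), (0, true), (0, true), (1, true)] ∈ Ns a b c :=
    (P_id hab hac [(0, true), (1, true), (0, true), (0, true), (0, true), (0, true), (1, true), (0, true), (0, true), (0, true), (1, true)] [(1, true)] 2 false 2 true (by decide) (by decide) (by decide +kernel)).2 cu_m1
  have h0 := R_right hab hbc [(0, true), (1, true), (0, true)] h1 h2 h3 h4 h6
  exact (P_id hab hac [(0, true), (1, true), (0, true), (0, true), (0, true), (0, true), (1, true)] [(1, true), (1, true)] 1 false 1 true (by decide) (by decide) (by decide +kernel)).1 h0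

theorem cu_t1 (hab : a * b * a = b * a * b) (hac : a * c = c * a)
    (hbc : b * c * b * c * b * c = c * b * c * b * c * b) : Y a b c [(1, false), (1, false), (1, false)] ∈ Ns a b c := by
  have h1 : Y a b c [(0, true), (1, true), (1, true)] ∈ Ns a b c :=
    (P_id hab hac [(0, true), (1, true), (1, true)] [(1, false), (1, false)] 1 false 1 true (by decide) (by decide) (by decide +kernel)).2 cu_h1
  have h3 : Y a b c [(0, true), (1, true), (1, true), (0, true), (0, true), (0, true), (1, true), (0, true), (0, true), (0, true), (1, true)] ∈ Ns a b c :=
    (P_id hab hac [(0, true), (1, true), (1, true), (0, true), (0, true), (0, true), (1, true), (0, true), (0, true), (0, true), (1, true)] [(0, true), (1, true)] 3 false 2 true (by decide) (by decide) (by decide +kernel)).2 cu_p0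
  have h4 : Y a b c [(0, true), (1, true)] ∈ Ns a b c :=
    (P_id hab hac [(0, true), (1, true)] [(0, true), (1, true)] 0 true 0 true (by decide) (by decide) (by decide +kernel)).2 cu_p0
  have h5 : Y a b c [(0, true), (1, true), (0, true), (0, true), (0, true), (1, true)] ∈ Ns a b c :=
    (P_id hab hac [(0, true), (1, true), (0, true), (0, true), (0, true), (1, true)] [(1, true)] 1 false 1 true (by decide) (by decide) (by decide +kernel)).2 cu_m1
  have h6 : Y a b c [(0, true), (1, true), (0, true), (0, true), (0, true), (1, true), (0, true), (0, true), (0, true), (1, true)] ∈ Ns a b c :=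
    (P_id hab hac [(0, true), (1, true), (0, true), (0, true), (0, true), (1, true), (0, true), (0, true), (0, true), (1, true)] [] 2 false 2 true (by decide) (by decide) (by decide +kernel)).2 cu_inf
  have h0 := R_left hab hbc [(0, true), (1, true)] h1 h3 h4 h5 h6
  exact (P_id hab hac [(0, true), (1, true), (1, true), (0, true), (0, true), (0, true), (1, true)] [(1, false), (1, false), (1, false)] 2 false 2 true (by decide) (by decide) (by decide +kernel)).1 h0

theorem cu_h3 (hab : a * b * a = b * a * b) (hac : a * c = c * a)
    (hbc : b * c * b * c * b * c = c * b * c * b * c * b) : Y a b c [(0, true), (1, false), (1, false)] ∈ Ns a b c := by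
  have h1 : Y a b c [(0, true), (0, true), (1, true), (0, true), (1, true)] ∈ Ns a b c :=
    (P_id hab hac [(0, true), (0, true), (1, true), (0, true), (1, true)] [(0, true), (1, false)] 1 false 1 true (by decide) (by decide) (by decide +kernel)).2 cu_p2
  have h3 : Y a b c [(0, true), (0, true), (1, true), (0, true), (1, true), (0, true), (0, true), (0, true), (1, true), (0, true), (0, true), (0, true), (1, true)] ∈ Ns a b c :=
    (P_id hab hac [(0, true), (0, true), (1, true), (0, true), (1, true), (0, true), (0, true), (0, true), (1, true), (0, true), (0, true), (0, true), (1, true)] [(1, false)] 4 false 3 true (by decide) (by decide) (by decide +kernel)).2 cu_p1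
  have h4 : Y a b c [(0, true), (0, true), (1, true), (0, true)] ∈ Ns a b c :=
    (P_id hab hac [(0, true), (0, true), (1, true), (0, true)] [(1, false)] 1 false 1 true (by decide) (by decide) (by decide +kernel)).2 cu_p1
  have h5 : Y a b c [(0, true), (0, true), (1, true), (0, true), (0, true), (0, true), (0, true), (1, true)] ∈ Ns a b c :=
    (P_id hab hac [(0, true), (0, true), (1, true), (0, true), (0, true), (0, true), (0, true), (1, true)] [(1, false), (1, false)] 2 false 2 true (by decide) (by decide) (by decide +kernel)).2 cu_h1
  have h6 : Y a b c [(0, true), (0, true), (1, true), (0, true), (0, true), (0, true), (0, true), (1, true), (0, true), (0, true), (0, true), (1, true)] ∈ Ns a b c :=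
    (P_id hab hac [(0, true), (0, true), (1, true), (0, true), (0, true), (0, true), (0, true), (1, true), (0, true), (0, true), (0, true), (1, true)] [(0, true), (1, true)] 2 false 2 true (by decide) (by decide) (by decide +kernel)).2 cu_p0
  have h0 := R_left hab hbc [(0, true), (0, true), (1, true), (0, true)] h1 h3 h4 h5 h6
  exact (P_id hab hac [(0, true), (0, true), (1, true), (0, true), (1, true), (0, true), (0, true), (0, true), (1, true)] [(0, true), (1, false), (1, false)] 2 false 2 true (by decide) (by decide) (by decide +kernel)).1 h0

theorem cu_t2 (hab : a * b * a = b * a * b) (hac : a * c = c * a)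
    (hbc : b * c * b * c * b * c = c * b * c * b * c * b) : Y a b c [(1, false), (0, true), (1, false)] ∈ Ns a b c := by
  have h1 : Y a b c [(1, false), (1, true)] ∈ Ns a b c :=
    (P_id hab hac [(1, false), (1, true)] [] 0 true 0 true (by decide) (by decide) (by decide +kernel)).2 cu_inf
  have h2 : Y a b c [(1, false), (1, true), (0, true), (0, true), (0, true), (1, true)] ∈ Ns a b c :=
    (P_id hab hac [(1, false), (1, true), (0, true), (0, true), (0, true), (1, true)] [(0, true), (1, false)] 2 false 1 true (by decide) (by decide) (by decide +kernel)).2 cu_p2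
  have h3 : Y a b c [(1, false), (1, true), (0, true), (0, true), (0, true), (1, true), (0, true), (0, true), (0, true), (1, true)] ∈ Ns a b c :=
    (P_id hab hac [(1, false), (1, true), (0, true), (0, true), (0, true), (1, true), (0, true), (0, true), (0, true), (1, true)] [(1, false)] 3 false 2 true (by decide) (by decide) (by decide +kernel)).2 cu_p1
  have h4 : Y a b c [(1, false)] ∈ Ns a b c :=
    (P_id hab hac [(1, false)] [(1, false)] 0 true 0 true (by decide) (by decide) (by decide +kernel)).2 cu_p1
  have h6 : Y a b c [(1, false), (0, true), (0, true), (0, true), (1, true), (0, true), (0, true), (0, true), (1, true)] ∈ Ns a b c :=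
    (P_id hab hac [(1, false), (0, true), (0, true), (0, true), (1, true), (0, true), (0, true), (0, true), (1, true)] [(1, false), (1, false)] 3 false 2 true (by decide) (by decide) (by decide +kernel)).2 cu_h1
  have h0 := R_right hab hbc [(1, false)] h1 h2 h3 h4 h6
  exact (P_id hab hac [(1, false), (0, true), (0, true), (0, true), (1, true)] [(1, false), (0, true), (1, false)] 2 false 1 true (by decide) (by decide) (by decide +kernel)).1 h0

/-- The conjugates of the generators by the generators are in the subgroup. -/
theorem conj_bs (hab : a * b * a = b * a * b) (hac : a * c = c * a)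
    (hbc : b * c * b * c * b * c = c * b * c * b * c * b) (s : ℕ × Bool) (hs : s.1 < 2) (i : Fin 6) :
    Y a b c (s :: bs i) ∈ Ns a b c := by
  obtain ⟨m, d⟩ := s
  have hm : m = 0 ∨ m = 1 := by
    have hs' : m < 2 := hs
    omega
  rcases hm with rfl | rfl
  · cases d
    · fin_cases i
      · exact (P_id hab hac [(0, false)] [] 1 false 0 true (by decide) (by decide) (by decide +kernel)).2 cu_inf
      · exact (P_id hab hac [(0, false), (1, true)] [(0, false), (1, true)] 0 true 0 true (by decide) (by decide) (by decide +kernel)).2 (cu_m2 hab hac hbc)
      · exact (P_id hab hac [(0, false), (1, false)] [(0, true), (1, true)] 2 true 1 false (by decide) (by decide) (by decide +kernel)).2 cu_p0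
      · exact (P_id hab hac [(0, false), (0, true), (1, true)] [(1, true)] 0 true 0 true (by decide) (by decide) (by decide +kernel)).2 cu_m1
      · exact (P_id hab hac [(0, false), (0, true), (1, false)] [(1, false)] 0 true 0 true (by decide) (by decide) (by decide +kernel)).2 cu_p1
      · exact (P_id hab hac [(0, false), (1, false), (1, false)] [(1, true), (1, true)] 1 true 1 false (by decide) (by decide) (by decide +kernel)).2 (cu_mh hab hac hbc)
    · fin_cases i
      · exact (P_id hab hac [(0, true)] [] 1 true 0 true (by decide) (by decide) (by decide +kernel)).2 cu_inf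
      · exact (P_id hab hac [(0, true), (1, true)] [(0, true), (1, true)] 0 true 0 true (by decide) (by decide) (by decide +kernel)).2 cu_p0
      · exact (P_id hab hac [(0, true), (1, false)] [(0, true), (1, false)] 0 true 0 true (by decide) (by decide) (by decide +kernel)).2 cu_p2
      · exact (P_id hab hac [(0, true), (0, true), (1, true)] [(1, false)] 2 false 1 true (by decide) (by decide) (by decide +kernel)).2 cu_p1
      · exact (P_id hab hac [(0, true), (0, true), (1, false)] [(0, true), (0, true), (1, false)] 0 true 0 true (by decide) (by decide) (by decide +kernel)).2 (cu_p3 hab hac hbc)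
      · exact (P_id hab hac [(0, true), (1, false), (1, false)] [(0, true), (1, false), (1, false)] 0 true 0 true (by decide) (by decide) (by decide +kernel)).2 (cu_h3 hab hac hbc)
  · cases d
    · fin_cases i
      · exact (P_id hab hac [(1, false)] [(1, false)] 0 true 0 true (by decide) (by decide) (by decide +kernel)).2 cu_p1
      · exact (P_id hab hac [(1, false), (1, true)] [] 0 true 0 true (by decide) (by decide) (by decide +kernel)).2 cu_inf
      · exact (P_id hab hac [(1, false), (1, false)] [(1, false), (1, false)] 0 true 0 true (by decide) (by decide) (by decide +kernel)).2 cu_h1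
      · exact (P_id hab hac [(1, false), (0, true), (1, true)] [(0, true), (1, true)] 1 false 0 true (by decide) (by decide) (by decide +kernel)).2 cu_p0
      · exact (P_id hab hac [(1, false), (0, true), (1, false)] [(1, false), (0, true), (1, false)] 0 true 0 true (by decide) (by decide) (by decide +kernel)).2 (cu_t2 hab hac hbc)
      · exact (P_id hab hac [(1, false), (1, false), (1, false)] [(1, false), (1, false), (1, false)] 0 true 0 true (by decide) (by decide) (by decide +kernel)).2 (cu_t1 hab hac hbc)
    · fin_cases i
      · exact (P_id hab hac [(1, true)] [(1, true)] 0 true 0 true (by decide) (by decide) (by decide +kernel)).2 cu_m1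
      · exact (P_id hab hac [(1, true), (1, true)] [(1, true), (1, true)] 0 true 0 true (by decide) (by decide) (by decide +kernel)).2 (cu_mh hab hac hbc)
      · exact (P_id hab hac [(1, true), (1, false)] [] 0 true 0 true (by decide) (by decide) (by decide +kernel)).2 cu_inf
      · exact (P_id hab hac [(1, true), (0, true), (1, true)] [(0, true), (1, true)] 1 true 0 true (by decide) (by decide) (by decide +kernel)).2 cu_p0
      · exact (P_id hab hac [(1, true), (0, true), (1, false)] [(0, false), (1, true)] 1 true 0 true (by decide) (by decide) (by decide +kernel)).2 (cu_m2 hab hac hbc)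
      · exact (P_id hab hac [(1, true), (1, false), (1, false)] [(1, false)] 0 true 0 true (by decide) (by decide) (by decide +kernel)).2 cu_p1

end

end Pool.Agent.Lib.MP_9dbb0e_al.GT
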