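import Pool.Agent.Lib.MP_9dbb0e_al.GT.G2i
import Pool.Agent.Lib.MP_9dbb0e_al.GT.L3

/-!
# The Artin group of type `G₂~` embeds in the braid group on eight strands
-/

set_option autoImplicit false
set_option maxRecDepth 100000

namespace Pool.Agent.Lib.MP_9dbb0e_al.GT

/-- The theorem. -/
theorem g2_embeds {B : Type} (M : CoxeterMatrix B) {a b c : B} (hu : ∀ i, i = a ∨ i = b ∨ i = c)
    (hab : M.M a b = 3) (hac : M.M a c = 2) (hbc : M.M b c = 6) :
    ∃ F : Art M →* Art (CoxeterMatrix.A 7), Function.Injective F := by
  have nab : a ≠ b := by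
    rintro rfl
    rw [M.diagonal] at hab
    omega
  have nac : a ≠ c := by
    rintro rfl
    rw [M.diagonal] at hac
    omega
  have nbc : b ≠ c := by
    rintro rfl
    rw [M.diagonal] at hbc
    omega
  have r1 := rel_ab
  have r2 := rel_aA
  have r3 := rel_bc
  rw [pv_append, pv_append, pv_append, pv_append] at r1
  rw [pv_append, pv_append] at r2
  simp only [pv_append] at r3
  have r2' : pv (sA 7) wa * pv (sA 7) wc = pv (sA 7) wc * pv (sA 7) wa := by
    have e : pv (sA 7) wc = pv (sA 7) wA * (pv (sA 7) wa * (pv (sA 7) wa * pv (sA 7) wa)) := by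
      unfold wc
      rw [pv_append, pv_append, pv_append]
    rw [e, ← mul_assoc, r2]
    group
  obtain ⟨f, fa, fb, fc⟩ := lift3 M nab nac nbc hu (pv (sA 7) wa) (pv (sA 7) wb) (pv (sA 7) wc)
    (by
      intro _
      rw [hab, alt_three, alt_three, mul_assoc, r1, mul_assoc])
    (by
      intro _
      rw [hac, alt_two, alt_two, r2'])
    (by
      intro _
      rw [hbc, alt_six, alt_six]
      simp only [mul_assoc]
      exact r3)
  have braid2 := b3_id (g := sA 2) braid_A2
  obtain ⟨Φ, Φa, Φb, Φc⟩ := lift3 M nab nac nbc hu (sA 2 0) (sA 2 1) (sA 2 0 * sA 2 0 * sA 2 0)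
    (by
      intro _
      rw [hab, alt_three, alt_three]
      exact braid_A2)
    (by
      intro _
      rw [hac, alt_two, alt_two]
      group)
    (by
      intro _
      rw [hbc, alt_six, alt_six]
      have h := braid2
        [(1, true), (0, true), (0, true), (0, true), (1, true), (0, true), (0, true), (0, true),
          (1, true), (0, true), (0, true), (0, true)]
        [(0, true), (0, true), (0, true), (1, true), (0, true), (0, true), (0, true), (1, true),
          (0, true), (0, true), (0, true), (1, true)] (by decide) (by decide) (by decide +kernel)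
      simp only [ev_cons, ev_nil, lt, if_true, mul_one] at h
      simp only [mul_assoc]
      exact h)
  exact ⟨f, g2_inj (rel_three M nab hab) (rel_two M nac hac) (rel_six M nbc hbc) (closure3 M hu) f
    fa fb fc Φ Φa Φb (by rw [Φc, Φa])⟩

end Pool.Agent.Lib.MP_9dbb0e_al.GT
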