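import Pool.Agent.Lib.MP_9dbb0e_al.GT.G2k
import Pool.Agent.Lib.MP_9dbb0e_al.GT.Rel

/-!
# The Artin group of type `G₂~` in the braid group on eight strands: words and pushes
-/

set_option autoImplicit false
set_option maxRecDepth 100000

namespace Pool.Agent.Lib.MP_9dbb0e_al.GT

open FreeGroup (of)

/-- substitution of words -/
def sub (m : ℕ → Wd) (L : Wd) : Wd := L.flatMap fun p => if p.2 then m p.1 else wi (m p.1)

theorem sub_cons (m : ℕ → Wd) (p : ℕ × Bool) (L : Wd) :
    sub m (p :: L) = (if p.2 then m p.1 else wi (m p.1)) ++ sub m L := by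
  unfold sub
  rw [List.flatMap_cons]

theorem ev_sub {G : Type*} [Group G] (g : ℕ → G) (m : ℕ → Wd) (L : Wd) :
    ev g (sub m L) = ev (fun i => ev g (m i)) L := by
  induction L with
  | nil => rfl
  | cons p L ih =>
    rw [sub_cons, ev_append, ih, ev_cons]
    congr 1
    unfold lt
    split_ifs
    · rfl
    · rw [ev_wi]

/-- positive words -/
def ps (L : List ℕ) : Wd := L.map fun i => (i, true)

theorem ev_ps {G : Type*} [Group G] (g : ℕ → G) (L : List ℕ) : ev g (ps L) = pv g L := by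
  induction L with
  | nil => rfl
  | cons p L ih =>
    rw [pv_cons, ← ih]
    show lt g (p, true) * ev g (ps L) = _
    unfold lt
    rw [if_pos rfl]

/-- the map to the free group of rank three, on words -/
def psw (L : Wd) : Wd := L.flatMap fun p =>
  if p.1 = 2 then [(0, p.2)] else if p.1 = 4 then [(1, p.2)] else if p.1 = 6 then [(2, p.2)] else []

theorem psw_cons (p : ℕ × Bool) (L : Wd) : psw (p :: L) = psw [p] ++ psw L := by
  unfold psw
  rw [List.flatMap_cons, List.flatMap_cons, List.flatMap_nil, List.append_nil]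

/-- the map to the free group of rank three -/
def psi : FreeGroup (Fin 8) →* FreeGroup (Fin 3) :=
  FreeGroup.lift fun i => ev (gx 3) (psw [((i : ℕ), true)])

theorem psi_lt (p : ℕ × Bool) : psi (lt (gx 8) p) = ev (gx 3) (psw [p]) := by
  obtain ⟨j, b⟩ := p
  have h1 : psi (gx 8 j) = ev (gx 3) (psw [(j, true)]) := by
    by_cases hj : j < 8
    · rw [gx_lt hj]
      unfold psi
      rw [FreeGroup.lift_apply_of]
    · have e3 : gx 8 j = 1 := dif_neg hj
      have e4 : psw [(j, true)] = [] := by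
        have h2 : j ≠ 2 := by omega
        have h4 : j ≠ 4 := by omega
        have h6 : j ≠ 6 := by omega
        simp [psw, h2, h4, h6]
      rw [e3, e4, map_one, ev_nil]
  cases b with
  | true =>
    unfold lt
    rw [if_pos rfl]
    exact h1
  | false =>
    have e : lt (gx 8) (j, false) = (gx 8 j)⁻¹ := by simp [lt]
    rw [e, map_inv, h1, ← ev_wi]
    congr 1
    by_cases h2 : j = 2
    · subst h2; decide
    · by_cases h4 : j = 4
      · subst h4; decide
      · by_cases h6 : j = 6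
        · subst h6; decide
        · simp [psw, h2, h4, h6, wi]

theorem psi_ev (L : Wd) : psi (ev (gx 8) L) = ev (gx 3) (psw L) := by
  induction L with
  | nil => rw [ev_nil, map_one]; rfl
  | cons p L ih => rw [ev_cons, map_mul, ih, psw_cons, ev_append, psi_lt]

/-- the images of the words in `a, b` -/
def mab (i : ℕ) : Wd := if i = 0 then ps wa else if i = 1 then ps wb else []

/-- the braid words of the generators -/
def bY (i : Fin 6) : Wd := sub mab (bs i) ++ (ps wA ++ wi (sub mab (bs i)))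

/-- the conjugators -/
def Wp (i : Fin 6) : Wd :=
  ![ps [0, 1, 2, 3, 4, 5],
    ps [0, 1, 2, 3, 4, 5, 6, 7] ++ [(5, false), (4, false)],
    ps [0, 1, 2, 5, 6, 7],
    ps [0, 1, 2, 3, 4, 5, 6, 7] ++ [(2, false), (1, false)],
    ps [0, 1, 2, 3, 4] ++ (2, false) :: ps [6, 7],
    ps [0, 1, 2] ++ (6, false) :: (5, false) :: ps [3, 4, 5, 6, 7]] i

/-- the product of the last seven generators -/
def Pw : Wd := ps [1, 2, 3, 4, 5, 6, 7]

theorem act_Y0 (i : Fin 6) : act (bY i) [(0, true)] = red (Wp i ++ (0, true) :: wi (Wp i)) := by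
  revert i
  decide +kernel

theorem act_Y1 (i : Fin 6) : ∀ j, j < 8 → j ≠ 0 →
    red (kw 0 (act (bY i) [(j, true)])) = red ([] ++ (j, true) :: wi []) := by
  revert i
  decide +kernel

theorem bY_lt (i : Fin 6) : ∀ s ∈ bY i, s.1 < 7 := by
  revert i
  decide +kernel

theorem act_Z0 : act (sub mab zw) [(0, true)] = red ([] ++ (0, true) :: wi []) := by
  decide +kernel

theorem act_Z1 : ∀ j, j < 8 → j ≠ 0 →
    red (kw 0 (act (sub mab zw) [(j, true)])) = red (Pw ++ (j, true) :: wi Pw) := by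
  decide +kernel

theorem bZ_lt : ∀ s ∈ sub mab zw, s.1 < 7 := by
  decide +kernel

/-- the subgroup generated by the product of the last seven generators -/
def SP : Subgroup (FreeGroup (Fin 8)) := Subgroup.zpowers (ev (gx 8) Pw)

theorem push_Y (i : Fin 6) : Push SP (0 : Fin 8) (rho 7 (ev (sA 7) (bY i)))
    ((ev (gx 8) (kw 0 (Wp i)))⁻¹ * ev (gx 8) []) :=
  push_word (n := 7) (a := 0) (by omega) SP (bY i) (Wp i) [] (Subgroup.one_mem _) (bY_lt i)
    (act_Y0 i) (act_Y1 i)

theorem push_Z : Push SP (0 : Fin 8) (rho 7 (ev (sA 7) (sub mab zw)))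
    ((ev (gx 8) (kw 0 []))⁻¹ * ev (gx 8) Pw) :=
  push_word (n := 7) (a := 0) (by omega) SP (sub mab zw) [] Pw (Subgroup.mem_zpowers _) bZ_lt
    act_Z0 act_Z1

/-- The centraliser condition. -/
theorem SP_cond (u : FreeGroup (Fin 8)) (hu : u ∈ SP)
    (h : ∀ i : Fin 8, i ≠ 0 → u * of i * u⁻¹ = of i) : u = 1 := by
  obtain ⟨k, rfl⟩ := Subgroup.mem_zpowers_iff.1 hu
  have h1 := kill_of_comm (h 1 (by decide))
  have h2 : kill (1 : Fin 8) (ev (gx 8) Pw) = ev (gx 8) (kw 1 Pw) := kill_ev (n := 8) (a := 1) (by omega) Pw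
  rw [map_zpow, h2] at h1
  let F : FreeGroup (Fin 8) →* Multiplicative ℤ :=
    FreeGroup.lift fun i => if i = 2 then Multiplicative.ofAdd (1 : ℤ) else 1
  have h3 : F (ev (gx 8) (kw 1 Pw)) = Multiplicative.ofAdd (1 : ℤ) := by
    have e : kw 1 Pw = ps [2, 3, 4, 5, 6, 7] := by decide
    rw [e, ev_ps]
    simp [pv, F, gx]
  have h4 := congrArg F h1
  rw [map_zpow, map_one, h3, ← ofAdd_zsmul] at h4
  have h5 : k • (1 : ℤ) = 0 := h4
  rw [smul_eq_mul, mul_one] at h5
  rw [h5, zpow_zero]

end Pool.Agent.Lib.MP_9dbb0e_al.GT
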