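import Pool.Agent.Lib.MP_9dbb0e_al.GT.G2h

/-!
# The Artin group of type `G₂~` embeds in the braid group on eight strands: injectivity
-/

set_option autoImplicit false
set_option maxRecDepth 100000

namespace Pool.Agent.Lib.MP_9dbb0e_al.GT

open FreeGroup (of)

/-- the words of the push values -/
def tT (i : Fin 7) : Wd := Fin.cases Pw (fun j : Fin 6 => wi (kw 0 (Wp j))) i

/-- `x₁ x₂` -/
def qe : Wd := [(4, true), (0, true)]

/-- `x₆ x₇` -/
def qf : Wd := [(1, true), (0, true)]

/-- `x₄ x₅` -/
def qg : Wd := [(2, true), (0, true)]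

/-- `x₅` -/
def q5 : Wd := wi qe ++ (3, false) :: wi qf

/-- `x₄` -/
def q4 : Wd := qg ++ wi q5

/-- `x₃` -/
def q3 : Wd := wi qe ++ (0, true) :: (wi qf ++ wi qg)

/-- `x₂` -/
def q2 : Wd := qf ++ (5, true) :: (qe ++ (q3 ++ q4))

/-- `x₁` -/
def q1 : Wd := qe ++ wi q2

/-- `x₆` -/
def q6 : Wd := wi q5 ++ (q3 ++ (q4 ++ (q5 ++ (qf ++ (6, true) :: qe))))

/-- `x₇` -/
def q7 : Wd := wi q6 ++ qf

/-- the left inverse on generators -/
def mL (i : ℕ) : Wd :=
  if i = 1 then q1 else if i = 2 then q2 else if i = 3 then q3 else if i = 4 then q4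
    else if i = 5 then q5 else if i = 6 then q6 else if i = 7 then q7 else []

theorem mL_tT (i : Fin 7) : red (sub mL (tT i)) = [((i : ℕ), true)] := by
  revert i
  decide +kernel

/-- the push values -/
def TT : FreeGroup (Fin 7) →* FreeGroup (Fin 8) := FreeGroup.lift fun i => ev (gx 8) (tT i)

theorem TT_inj : Function.Injective TT := by
  let L : FreeGroup (Fin 8) →* FreeGroup (Fin 7) := FreeGroup.lift fun i => ev (gx 7) (mL i)
  have hL : ∀ w : Wd, L (ev (gx 8) w) = ev (gx 7) (sub mL w) := by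
    intro w
    rw [map_ev, ev_sub]
    have e : ∀ j, L (gx 8 j) = ev (gx 7) (mL j) := by
      intro j
      by_cases hj : j < 8
      · rw [gx_lt hj]
        exact FreeGroup.lift_apply_of
      · have e3 : gx 8 j = 1 := dif_neg hj
        have e4 : mL j = [] := by
          have h1 : j ≠ 1 := by omega
          have h2 : j ≠ 2 := by omega
          have h3 : j ≠ 3 := by omega
          have h4 : j ≠ 4 := by omega
          have h5 : j ≠ 5 := by omega
          have h6 : j ≠ 6 := by omega
          have h7 : j ≠ 7 := by omega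
          simp [mL, h1, h2, h3, h4, h5, h6, h7]
        rw [e3, e4, map_one, ev_nil]
    exact congrFun (congrArg ev (funext e)) w
  have h : L.comp TT = MonoidHom.id _ := by
    refine FreeGroup.ext_hom _ _ fun i => ?_
    show L (TT (of i)) = of i
    have e : TT (of i) = ev (gx 8) (tT i) := FreeGroup.lift_apply_of
    rw [e, hL, ← ev_red, mL_tT, ← of_gx]
  intro x y hxy
  have h1 := congrArg L hxy
  rw [← MonoidHom.comp_apply, ← MonoidHom.comp_apply, h] at h1
  exact h1

section

variable {A : Type*} [Group A]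

/-- The elements whose action on the free group of rank eight is compatible with the retraction. -/
def Tw (f : A →* Art (CoxeterMatrix.A 7)) (Φ : A →* Art (CoxeterMatrix.A 2)) : Subgroup A where
  carrier := {g | ∀ x, psi (rho 7 (f g) x) = rho 2 (Φ g) (psi x)}
  one_mem' := by
    intro x
    rw [map_one, map_one, map_one, map_one]
    rfl
  mul_mem' := by
    intro g g' h h' x
    rw [map_mul, map_mul, MulAut.mul_apply, h, h', map_mul, map_mul, MulAut.mul_apply]
  inv_mem' := by
    intro g h x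
    have h1 := h ((rho 7 (f g))⁻¹ x)
    have h2 : rho 7 (f g) ((rho 7 (f g))⁻¹ x) = x := by
      rw [← MulAut.mul_apply, mul_inv_cancel]
      rfl
    rw [h2] at h1
    rw [map_inv, map_inv, map_inv, map_inv, h1]
    have h3 : ∀ y, (rho 2 (Φ g))⁻¹ (rho 2 (Φ g) y) = y := fun y => by
      rw [← MulAut.mul_apply, inv_mul_cancel]
      rfl
    rw [h3]

theorem mem_Tw {f : A →* Art (CoxeterMatrix.A 7)} {Φ : A →* Art (CoxeterMatrix.A 2)} {g : A}
    (w v : Wd) (hw : ∀ s ∈ w, s.1 < 7) (hv : ∀ s ∈ v, s.1 < 2) (hf : f g = ev (sA 7) w)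
    (hΦ : Φ g = ev (sA 2) v)
    (h : ∀ j, j < 8 → red (psw (act w [(j, true)])) = red (act v (psw [(j, true)]))) :
    g ∈ Tw f Φ := by
  have h1 : (psi.comp (rho 7 (f g)).toMonoidHom) = ((rho 2 (Φ g)).toMonoidHom.comp psi) := by
    refine FreeGroup.ext_hom _ _ fun i => ?_
    show psi (rho 7 (f g) (of i)) = rho 2 (Φ g) (psi (of i))
    rw [of_gx, hf, rho_act w hw, psi_ev, psi_ev, hΦ, rho_act v hv, ← ev_red, h i i.isLt, ev_red]
  exact fun x => DFunLike.congr_fun h1 x

theorem psi_surj : Function.Surjective psi := by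
  have h : psi.comp (FreeGroup.lift ![of 2, of 4, of 6]) = MonoidHom.id _ := by
    refine FreeGroup.ext_hom _ _ fun i => ?_
    fin_cases i
    · simp [psi, psw, ev_cons, ev_nil, lt, gx]
    · simp [psi, psw, ev_cons, ev_nil, lt, gx]
    · simp [psi, psw, ev_cons, ev_nil, lt, gx]
  intro x
  exact ⟨_, DFunLike.congr_fun h x⟩

variable {a b c : A}

/-- Injectivity. -/
theorem g2_inj (hab : a * b * a = b * a * b) (hac : a * c = c * a)
    (hbc : b * c * b * c * b * c = c * b * c * b * c * b)
    (hgen : Subgroup.closure ({a, b, c} : Set A) = ⊤) (f : A →* Art (CoxeterMatrix.A 7))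
    (hfa : f a = pv (sA 7) wa) (hfb : f b = pv (sA 7) wb) (hfc : f c = pv (sA 7) wc)
    (Φ : A →* Art (CoxeterMatrix.A 2))
    (ha : Φ a = sA 2 0) (hb : Φ b = sA 2 1) (hc : Φ c = Φ a * Φ a * Φ a) :
    Function.Injective f := by
  rw [injective_iff_map_eq_one]
  intro g hg
  have hTw : g ∈ Tw f Φ := by
    have h1 : Subgroup.closure ({a, b, c} : Set A) ≤ Tw f Φ := by
      rw [Subgroup.closure_le]
      rintro x (rfl | rfl | hx)
      · refine mem_Tw (ps wa) [(0, true)] (by decide) (by decide) (by rw [ev_ps, hfa])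
          (by rw [ev_single, ha]; rfl) (by decide +kernel)
      · refine mem_Tw (ps wb) [(1, true)] (by decide) (by decide) (by rw [ev_ps, hfb])
          (by rw [ev_single, hb]; rfl) (by decide +kernel)
      · rw [Set.mem_singleton_iff] at hx
        subst hx
        refine mem_Tw (ps wc) [(0, true), (0, true), (0, true)] (by decide) (by decide)
          (by rw [ev_ps, hfc]) ?_ (by decide +kernel)
        rw [hc, ha, ev_cons, ev_cons, ev_cons, ev_nil, mul_one, mul_assoc]
        rfl
    rw [hgen] at h1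
    exact h1 (Subgroup.mem_top g)
  have hΦg : Φ g = 1 := by
    apply rho_two_inj
    refine MulEquiv.ext fun y => ?_
    obtain ⟨x, rfl⟩ := psi_surj y
    rw [← hTw x, hg, map_one]
    rfl
  have hN : g ∈ Ns a b c := g2_ker hab hac hbc hgen Φ ha hb hc g hΦg
  let θ : FreeGroup (Fin 7) →* A := FreeGroup.lift (gn a b c)
  have hθ : ∀ i, θ (of i) = gn a b c i := fun i => FreeGroup.lift_apply_of
  obtain ⟨v, rfl⟩ : ∃ v, θ v = g := by
    have h1 : Ns a b c ≤ θ.range := by
      unfold Ns
      rw [Subgroup.closure_le]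
      rintro x ⟨i, rfl⟩
      exact ⟨of i, hθ i⟩
    exact h1 hN
  have hfev : ∀ w : Wd, f (ev (gg a b) w) = ev (sA 7) (sub mab w) := by
    intro w
    rw [map_ev, ev_sub]
    have e : ∀ i, f (gg a b i) = ev (sA 7) (mab i) := by
      intro i
      unfold gg mab
      split_ifs
      · rw [hfa, ev_ps]
      · rw [hfb, ev_ps]
      · rw [map_one, ev_nil]
    exact congrFun (congrArg ev (funext e)) w
  have hfy : f (c * (a * a * a)⁻¹) = ev (sA 7) (ps wA) := by
    rw [map_mul, map_inv, map_mul, map_mul, hfa, hfc, ev_ps]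
    unfold wc
    rw [pv_append, pv_append, pv_append]
    group
  have hfY : ∀ i : Fin 6, f (Y a b c (bs i)) = ev (sA 7) (bY i) := by
    intro i
    unfold Y bY
    rw [map_mul, map_mul, map_inv, hfy, hfev, ev_append, ev_append, ev_wi, mul_assoc]
  have hv := push_free SP (0 : Fin 8) SP_cond (rho 7) (f.comp θ) TT TT_inj (by
    intro i
    have e : TT (of i) = ev (gx 8) (tT i) := FreeGroup.lift_apply_of
    rw [e, MonoidHom.comp_apply, hθ]
    refine Fin.cases ?_ (fun j => ?_) i
    · show Push SP 0 (rho 7 (f (Z a b))) (ev (gx 8) Pw)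
      have h1 := push_Z
      have e1 : (ev (gx 8) (kw 0 []))⁻¹ * ev (gx 8) Pw = ev (gx 8) Pw := by
        have e2 : kw 0 [] = [] := rfl
        rw [e2, ev_nil, inv_one, one_mul]
      rw [e1] at h1
      unfold Z
      rw [hfev]
      exact h1
    · show Push SP 0 (rho 7 (f (Y a b c (bs j)))) (ev (gx 8) (wi (kw 0 (Wp j))))
      have h1 := push_Y j
      rw [ev_nil, mul_one, ← ev_wi] at h1
      rw [hfY]
      exact h1) v (by
    rw [MonoidHom.comp_apply, hg, map_one])
  rw [hv, map_one]

end

end Pool.Agent.Lib.MP_9dbb0e_al.GT
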