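import Pool.Agent.Lib.MP_9dbb0e_al.GT.G2s

/-!
# The structure of the Artin group of type `G₂~`: a normal subgroup generated by seven elements
-/

set_option autoImplicit false

namespace Pool.Agent.Lib.MP_9dbb0e_al.GT

/-- the words of the six generators -/
def bs (i : Fin 6) : Wd :=
  ![[],
    [(1, true)],
    [(1, false)],
    [(0, true), (1, true)],
    [(0, true), (1, false)],
    [(1, false), (1, false)]] i

/-- the words `a^k z^l` -/
def tl (k : ℕ) (s : Bool) (l : ℕ) (s' : Bool) : Wd :=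
  List.replicate k (0, s) ++ (List.replicate l (if s' then zw else wi zw)).flatten

section

variable {A : Type*} [Group A] (a b c : A)

/-- the generators -/
def gn (i : Fin 7) : A := Fin.cases (Z a b) (fun j : Fin 6 => Y a b c (bs j)) i

/-- the subgroup -/
def Ns : Subgroup A := Subgroup.closure (Set.range (gn a b c))

variable {a b c}

theorem Z_mem : Z a b ∈ Ns a b c := Subgroup.subset_closure ⟨0, rfl⟩

theorem bs_mem (i : Fin 6) : Y a b c (bs i) ∈ Ns a b c := Subgroup.subset_closure ⟨i.succ, rfl⟩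

theorem P_rep (hac : a * c = c * a) (s : Bool) (k : ℕ) : ∀ w : Wd,
    Y a b c (w ++ List.replicate k (0, s)) = Y a b c w := by
  induction k with
  | zero => intro w; rw [List.replicate_zero, List.append_nil]
  | succ k ih =>
    intro w
    rw [List.replicate_succ, List.append_cons, ih, Y_a hac]

theorem P_z (hab : a * b * a = b * a * b) (s' : Bool) (l : ℕ) : ∀ w : Wd,
    Y a b c (w ++ (List.replicate l (if s' then zw else wi zw)).flatten) ∈ Ns a b c ↔
      Y a b c w ∈ Ns a b c := by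
  induction l with
  | zero => intro w; rw [List.replicate_zero, List.flatten_nil, List.append_nil]
  | succ l ih =>
    intro w
    rw [List.replicate_succ, List.flatten_cons, ← List.append_assoc, ih]
    cases s' with
    | true =>
      rw [if_pos rfl, Y_z hab]
      exact ⟨fun h => by
        have h1 := Subgroup.mul_mem _ (Subgroup.mul_mem _ (Subgroup.inv_mem _ (Z_mem (c := c))) h)
          (Z_mem (a := a) (b := b) (c := c))
        have e : (Z a b)⁻¹ * (Z a b * Y a b c w * (Z a b)⁻¹) * Z a b = Y a b c w := by group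
        rwa [e] at h1, fun h => Subgroup.mul_mem _ (Subgroup.mul_mem _ Z_mem h) (Subgroup.inv_mem _ Z_mem)⟩
    | false =>
      have e0 : (if (false : Bool) = true then zw else wi zw) = wi zw := rfl
      rw [e0, Y_z' hab]
      exact ⟨fun h => by
        have h1 := Subgroup.mul_mem _ (Subgroup.mul_mem _ (Z_mem (c := c)) h)
          (Subgroup.inv_mem _ (Z_mem (a := a) (b := b) (c := c)))
        have e : Z a b * ((Z a b)⁻¹ * Y a b c w * Z a b) * (Z a b)⁻¹ = Y a b c w := by group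
        rwa [e] at h1, fun h => Subgroup.mul_mem _ (Subgroup.mul_mem _ (Subgroup.inv_mem _ Z_mem) h) Z_mem⟩

theorem P_id (hab : a * b * a = b * a * b) (hac : a * c = c * a) (w w' : Wd) (k : ℕ) (s : Bool)
    (l : ℕ) (s' : Bool) (hw : ∀ q ∈ w, q.1 < 2) (hw' : ∀ q ∈ w' ++ tl k s l s', q.1 < 2)
    (h : ∀ i, i < 3 → act w [(i, true)] = act (w' ++ tl k s l s') [(i, true)]) :
    Y a b c w ∈ Ns a b c ↔ Y a b c w' ∈ Ns a b c := by
  have h1 : Y a b c w = Y a b c (w' ++ tl k s l s') := by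
    unfold Y
    rw [b3_id (gg_braid hab) w (w' ++ tl k s l s') hw hw' h]
  rw [h1]
  unfold tl
  rw [← List.append_assoc, P_z hab s' l, P_rep hac s k]

theorem R_left (hab : a * b * a = b * a * b)
    (hbc : b * c * b * c * b * c = c * b * c * b * c * b) (w : Wd)
    (h1 : Y a b c (w ++ bw) ∈ Ns a b c) (h3 : Y a b c (w ++ (bw ++ (uw ++ uw))) ∈ Ns a b c)
    (h4 : Y a b c w ∈ Ns a b c) (h5 : Y a b c (w ++ uw) ∈ Ns a b c)
    (h6 : Y a b c (w ++ (uw ++ uw)) ∈ Ns a b c) : Y a b c (w ++ (bw ++ uw)) ∈ Ns a b c := by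
  have h := Y_rel hab hbc w
  have e : Y a b c (w ++ (bw ++ uw)) = (Y a b c (w ++ bw))⁻¹ *
      (Y a b c w * Y a b c (w ++ uw) * Y a b c (w ++ (uw ++ uw))) *
      (Y a b c (w ++ (bw ++ (uw ++ uw))))⁻¹ := by
    rw [← h]
    group
  rw [e]
  exact Subgroup.mul_mem _ (Subgroup.mul_mem _ (Subgroup.inv_mem _ h1)
    (Subgroup.mul_mem _ (Subgroup.mul_mem _ h4 h5) h6)) (Subgroup.inv_mem _ h3)

theorem R_right (hab : a * b * a = b * a * b)
    (hbc : b * c * b * c * b * c = c * b * c * b * c * b) (w : Wd)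
    (h1 : Y a b c (w ++ bw) ∈ Ns a b c) (h2 : Y a b c (w ++ (bw ++ uw)) ∈ Ns a b c)
    (h3 : Y a b c (w ++ (bw ++ (uw ++ uw))) ∈ Ns a b c)
    (h4 : Y a b c w ∈ Ns a b c)
    (h6 : Y a b c (w ++ (uw ++ uw)) ∈ Ns a b c) : Y a b c (w ++ uw) ∈ Ns a b c := by
  have h := Y_rel hab hbc w
  have e : Y a b c (w ++ uw) = (Y a b c w)⁻¹ *
      (Y a b c (w ++ bw) * Y a b c (w ++ (bw ++ uw)) * Y a b c (w ++ (bw ++ (uw ++ uw)))) *
      (Y a b c (w ++ (uw ++ uw)))⁻¹ := by
    rw [h]
    group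
  rw [e]
  exact Subgroup.mul_mem _ (Subgroup.mul_mem _ (Subgroup.inv_mem _ h4)
    (Subgroup.mul_mem _ (Subgroup.mul_mem _ h1 h2) h3)) (Subgroup.inv_mem _ h6)

end

end Pool.Agent.Lib.MP_9dbb0e_al.GT
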