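import Pool.Agent.Lib.MP_9dbb0e_al.GT.B3g

/-!
# The structure of the Artin group of type `G₂~`: the relations between the conjugates

`a b a = b a b`, `a c = c a`, `(b c)^3 = (c b)^3`. `Y w` is the conjugate of `c a⁻³` by the word `w` in `a, b`.
-/

set_option autoImplicit false

namespace Pool.Agent.Lib.MP_9dbb0e_al.GT

/-- the two generators -/
def gg {A : Type*} [Group A] (a b : A) (i : ℕ) : A := if i = 0 then a else if i = 1 then b else 1

/-- the word `(a b)^3` -/
def zw : Wd := [(0, true), (1, true), (0, true), (1, true), (0, true), (1, true)]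

/-- the word `a^3 b` -/
def uw : Wd := [(0, true), (0, true), (0, true), (1, true)]

/-- the word `b` -/
def bw : Wd := [(1, true)]

section

variable {A : Type*} [Group A] (a b c : A)

/-- the conjugates of `c a⁻³` -/
def Y (w : Wd) : A := ev (gg a b) w * (c * (a * a * a)⁻¹) * (ev (gg a b) w)⁻¹

/-- the element `(a b)^3` -/
def Z : A := ev (gg a b) zw

variable {a b c}

theorem gg_zero : gg a b 0 = a := rfl

theorem gg_one : gg a b 1 = b := rfl

theorem gg_braid (hab : a * b * a = b * a * b) : gg a b 0 * gg a b 1 * gg a b 0 = gg a b 1 * gg a b 0 * gg a b 1 := hab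

theorem Z_a (hab : a * b * a = b * a * b) : Z a b * a = a * Z a b := by
  have h := b3_id (gg_braid hab) (zw ++ [(0, true)]) ((0, true) :: zw) (by decide) (by decide) (by decide +kernel)
  rw [ev_append, ev_single, ev_cons] at h
  exact h

theorem Z_b (hab : a * b * a = b * a * b) : Z a b * b = b * Z a b := by
  have h := b3_id (gg_braid hab) (zw ++ [(1, true)]) ((1, true) :: zw) (by decide) (by decide) (by decide +kernel)
  rw [ev_append, ev_single, ev_cons] at h
  exact h

theorem Z_gg (hab : a * b * a = b * a * b) (i : ℕ) : Commute (Z a b) (gg a b i) := by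
  unfold gg
  split_ifs
  · exact Z_a hab
  · exact Z_b hab
  · exact Commute.one_right _

theorem Z_ev (hab : a * b * a = b * a * b) (w : Wd) : Commute (Z a b) (ev (gg a b) w) := by
  induction w with
  | nil => exact Commute.one_right _
  | cons s w ih =>
    rw [ev_cons]
    refine Commute.mul_right ?_ ih
    unfold lt
    split_ifs
    · exact Z_gg hab s.1
    · exact (Z_gg hab s.1).inv_right

theorem uuu (hab : a * b * a = b * a * b) : ev (gg a b) (uw ++ (uw ++ uw)) = Z a b * Z a b := by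
  have h := b3_id (gg_braid hab) (uw ++ (uw ++ uw)) (zw ++ zw) (by decide) (by decide) (by decide +kernel)
  rw [h, ev_append]
  rfl

theorem Y_cons (s : ℕ × Bool) (w : Wd) : Y a b c (s :: w) = lt (gg a b) s * Y a b c w * (lt (gg a b) s)⁻¹ := by
  unfold Y
  rw [ev_cons]
  group

/-- `a` commutes with `c a⁻³`. -/
theorem a_y (hac : a * c = c * a) : Commute a (c * (a * a * a)⁻¹) := by
  refine Commute.mul_right hac ?_
  exact ((Commute.refl a).mul_right (Commute.refl a)).mul_right (Commute.refl a) |>.inv_right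

theorem Y_a (hac : a * c = c * a) (w : Wd) (s : Bool) : Y a b c (w ++ [(0, s)]) = Y a b c w := by
  unfold Y
  rw [ev_append, ev_single]
  have h : Commute (lt (gg a b) (0, s)) (c * (a * a * a)⁻¹) := by
    cases s
    · exact (a_y hac).inv_left
    · exact a_y hac
  have h1 : lt (gg a b) (0, s) * (c * (a * a * a)⁻¹) = c * (a * a * a)⁻¹ * lt (gg a b) (0, s) := h
  generalize c * (a * a * a)⁻¹ = y at h1 ⊢
  generalize lt (gg a b) (0, s) = x at h1 ⊢
  calc ev (gg a b) w * x * y * (ev (gg a b) w * x)⁻¹ = ev (gg a b) w * (x * y) * x⁻¹ * (ev (gg a b) w)⁻¹ := by group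
    _ = ev (gg a b) w * (y * x) * x⁻¹ * (ev (gg a b) w)⁻¹ := by rw [h1]
    _ = ev (gg a b) w * y * (ev (gg a b) w)⁻¹ := by group

theorem Y_z (hab : a * b * a = b * a * b) (w : Wd) :
    Y a b c (w ++ zw) = Z a b * Y a b c w * (Z a b)⁻¹ := by
  unfold Y
  rw [ev_append]
  have h : Z a b * ev (gg a b) w = ev (gg a b) w * Z a b := Z_ev hab w
  have e : ev (gg a b) zw = Z a b := rfl
  rw [e, ← h]
  group

theorem Y_z' (hab : a * b * a = b * a * b) (w : Wd) :
    Y a b c (w ++ wi zw) = (Z a b)⁻¹ * Y a b c w * Z a b := by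
  unfold Y
  rw [ev_append, ev_wi]
  have h : (Z a b)⁻¹ * ev (gg a b) w = ev (gg a b) w * (Z a b)⁻¹ := (Z_ev hab w).inv_left
  have e : ev (gg a b) zw = Z a b := rfl
  rw [e, ← h]
  group

/-- The basic relation. -/
theorem Y_base (hab : a * b * a = b * a * b)
    (hbc : b * c * b * c * b * c = c * b * c * b * c * b) :
    b * (Y a b c [] * Y a b c uw * Y a b c (uw ++ uw)) * b⁻¹ =
      Y a b c [] * Y a b c uw * Y a b c (uw ++ uw) := by
  obtain ⟨H, hH⟩ : ∃ H, H = Y a b c [] * Y a b c uw * Y a b c (uw ++ uw) := ⟨_, rfl⟩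
  obtain ⟨u, hu⟩ : ∃ u, u = ev (gg a b) uw := ⟨_, rfl⟩
  have hu2 : a * a * a * b = u := by
    rw [hu]
    simp [uw, ev_cons, ev_nil, lt, gg, mul_assoc]
  have hu3 : u * (u * u) = Z a b * Z a b := by
    rw [hu, ← ev_append, ← ev_append]
    exact uuu hab
  have h1 : c * b * c * b * c * b = H * (Z a b * Z a b) := by
    have hc : c * b = (c * (a * a * a)⁻¹) * u := by
      rw [← hu2]
      group
    have e1 : c * b * c * b * c * b = (c * b) * (c * b) * (c * b) := by group
    rw [e1, hc, hH, ← hu3]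
    unfold Y
    rw [ev_nil, ev_append, ← hu]
    group
  have h2 : b * c * b * c * b * c = b * (c * b * c * b * c * b) * b⁻¹ := by group
  rw [h2, h1] at hbc
  rw [← hH]
  have h3 : Z a b * Z a b * b⁻¹ = b⁻¹ * (Z a b * Z a b) := by
    have h4 : Commute (Z a b) b⁻¹ := Commute.inv_right (Z_b hab)
    exact h4.mul_left h4
  have h5 : b * H * b⁻¹ * (Z a b * Z a b) = H * (Z a b * Z a b) := by
    rw [← hbc, mul_assoc (b * H), ← h3]
    group
  exact mul_right_cancel h5

theorem Y_append (w w' : Wd) : Y a b c (w ++ w') = ev (gg a b) w * Y a b c w' * (ev (gg a b) w)⁻¹ := by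
  unfold Y
  rw [ev_append]
  group

/-- The conjugates of the basic relation. -/
theorem Y_rel (hab : a * b * a = b * a * b)
    (hbc : b * c * b * c * b * c = c * b * c * b * c * b) (w : Wd) :
    Y a b c (w ++ bw) * Y a b c (w ++ (bw ++ uw)) * Y a b c (w ++ (bw ++ (uw ++ uw))) =
      Y a b c w * Y a b c (w ++ uw) * Y a b c (w ++ (uw ++ uw)) := by
  have h := Y_base hab hbc
  have e0 : ∀ v : Wd, Y a b c (bw ++ v) = b * Y a b c v * b⁻¹ := by
    intro v
    rw [Y_append]
    have e1 : ev (gg a b) bw = b := by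
      unfold bw
      rw [ev_single]
      rfl
    rw [e1]
  have e1 : Y a b c (w ++ bw) = ev (gg a b) w * (b * Y a b c [] * b⁻¹) * (ev (gg a b) w)⁻¹ := by
    rw [Y_append, ← e0, List.append_nil]
  have e2 : Y a b c w = ev (gg a b) w * Y a b c [] * (ev (gg a b) w)⁻¹ := by
    rw [← Y_append, List.append_nil]
  rw [e1, Y_append w (bw ++ uw), Y_append w (bw ++ (uw ++ uw)), e0, e0, e2, Y_append w uw,
    Y_append w (uw ++ uw)]
  calc _ = ev (gg a b) w * (b * (Y a b c [] * Y a b c uw * Y a b c (uw ++ uw)) * b⁻¹) *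
        (ev (gg a b) w)⁻¹ := by group
    _ = ev (gg a b) w * (Y a b c [] * Y a b c uw * Y a b c (uw ++ uw)) * (ev (gg a b) w)⁻¹ := by rw [h]
    _ = _ := by group

end

end Pool.Agent.Lib.MP_9dbb0e_al.GT
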