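import Pool.Agent.Lib.MP_9dbb0e_al.GT.L3
import Pool.Agent.Lib.MP_9dbb0e_al.GT.G2h

/-!
# General lemmas for embeddings in braid groups
-/

set_option autoImplicit false

namespace Pool.Agent.Lib.MP_9dbb0e_al.GT

open FreeGroup (of)

section

variable {A : Type*} [Group A]

/-- Products of elements of a subgroup and of elements which normalise it. -/
theorem decomp (SN T S : Set A) (h1 : ∀ t ∈ T, ∀ x ∈ SN, t * x * t⁻¹ ∈ Subgroup.closure SN)
    (h2 : ∀ t ∈ T, ∀ x ∈ SN, t⁻¹ * x * t ∈ Subgroup.closure SN)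
    (hS : ∀ s ∈ S, ∃ n ∈ Subgroup.closure SN, ∃ h ∈ Subgroup.closure T, s = n * h) (g : A)
    (hg : g ∈ Subgroup.closure S) :
    ∃ n ∈ Subgroup.closure SN, ∃ h ∈ Subgroup.closure T, g = n * h := by
  have hT : Subgroup.closure T ≤ Subgroup.normalizer ((Subgroup.closure SN : Subgroup A) : Set A) := by
    rw [Subgroup.closure_le]
    intro t ht
    have h3 := mem_normalizer_of SN t (h1 t ht) (h2 t ht)
    show t ∈ Subgroup.normalizer ((Subgroup.closure SN : Subgroup A) : Set A)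
    rw [Subgroup.mem_normalizer_iff]
    exact h3
  have hn : ∀ h ∈ Subgroup.closure T, ∀ n ∈ Subgroup.closure SN,
      h * n * h⁻¹ ∈ Subgroup.closure SN := by
    intro h hh n hn
    have h3 := hT hh
    rw [Subgroup.mem_normalizer_iff] at h3
    exact (h3 n).1 hn
  induction hg using Subgroup.closure_induction with
  | mem x hx => exact hS x hx
  | one => exact ⟨1, Subgroup.one_mem _, 1, Subgroup.one_mem _, by rw [one_mul]⟩
  | mul x y _ _ hx hy =>
    obtain ⟨n, hn1, h, hh, rfl⟩ := hx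
    obtain ⟨n', hn', h', hh', rfl⟩ := hy
    refine ⟨n * (h * n' * h⁻¹), Subgroup.mul_mem _ hn1 (hn h hh n' hn'), h * h',
      Subgroup.mul_mem _ hh hh', ?_⟩
    group
  | inv x _ hx =>
    obtain ⟨n, hn1, h, hh, rfl⟩ := hx
    refine ⟨h⁻¹ * n⁻¹ * h⁻¹⁻¹, hn h⁻¹ (Subgroup.inv_mem _ hh) n⁻¹ (Subgroup.inv_mem _ hn1), h⁻¹,
      Subgroup.inv_mem _ hh, ?_⟩
    group

/-- Elements of a subgroup generated by free pushes. -/
theorem push_rel {n : ℕ} (f : A →* Art (CoxeterMatrix.A n)) (p : Fin (n + 1)) {X : Type}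
    (y : X → A) (e : X → Fin (n + 1)) (he : Function.Injective e)
    (hp : ∀ x, Push ⊥ p (rho n (f (y x))) ((of (e x))⁻¹)) (g : A)
    (hg : g ∈ Subgroup.closure (Set.range y)) (h : rho n (f g) = 1) : g = 1 := by
  classical
  let θ : FreeGroup X →* A := FreeGroup.lift y
  let T : FreeGroup X →* FreeGroup (Fin (n + 1)) := FreeGroup.lift fun x => (of (e x))⁻¹
  let L : FreeGroup (Fin (n + 1)) →* FreeGroup X :=
    FreeGroup.lift fun i => if h : ∃ x, e x = i then (of h.choose)⁻¹ else 1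
  have hT : Function.Injective T := by
    have h1 : L.comp T = MonoidHom.id _ := by
      refine FreeGroup.ext_hom _ _ fun x => ?_
      have e1 : T (of x) = (of (e x))⁻¹ := FreeGroup.lift_apply_of
      have hx : ∃ x', e x' = e x := ⟨x, rfl⟩
      have e2 : L (of (e x)) = (of x)⁻¹ := by
        have e3 : L (of (e x)) = if h : ∃ x', e x' = e x then (of h.choose)⁻¹ else 1 :=
          FreeGroup.lift_apply_of
        rw [e3, dif_pos hx, he hx.choose_spec]
      rw [MonoidHom.comp_apply, e1, map_inv, e2, inv_inv]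
      rfl
    intro a b hab
    have h2 := congrArg L hab
    rw [← MonoidHom.comp_apply, ← MonoidHom.comp_apply, h1] at h2
    exact h2
  obtain ⟨v, rfl⟩ : ∃ v, θ v = g := by
    have h1 : Subgroup.closure (Set.range y) ≤ θ.range := by
      rw [Subgroup.closure_le]
      rintro x ⟨i, rfl⟩
      exact ⟨of i, FreeGroup.lift_apply_of⟩
    exact h1 hg
  have hv := push_free_bot p (rho n) (f.comp θ) T hT (by
    intro x
    have e1 : T (of x) = (of (e x))⁻¹ := FreeGroup.lift_apply_of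
    have e2 : θ (of x) = y x := FreeGroup.lift_apply_of
    rw [e1, MonoidHom.comp_apply, e2]
    exact hp x) v (by rw [MonoidHom.comp_apply]; exact h)
  rw [hv, map_one]

/-- The elements whose action is compatible with a map of free groups. -/
def Twi {n m : ℕ} (f : A →* Art (CoxeterMatrix.A n)) (Φ : A →* Art (CoxeterMatrix.A m))
    (ψ : FreeGroup (Fin (n + 1)) →* FreeGroup (Fin (m + 1))) : Subgroup A where
  carrier := {g | ∀ x, ψ (rho n (f g) x) = rho m (Φ g) (ψ x)}
  one_mem' := by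
    intro x
    rw [map_one, map_one, map_one, map_one]
    rfl
  mul_mem' := by
    intro g g' h h' x
    rw [map_mul, map_mul, MulAut.mul_apply, h, h', map_mul, map_mul, MulAut.mul_apply]
  inv_mem' := by
    intro g h x
    have h1 := h ((rho n (f g))⁻¹ x)
    have h2 : rho n (f g) ((rho n (f g))⁻¹ x) = x := by
      rw [← MulAut.mul_apply, mul_inv_cancel]
      rfl
    rw [h2] at h1
    rw [map_inv, map_inv, map_inv, map_inv, h1]
    have h3 : ∀ y, (rho m (Φ g))⁻¹ (rho m (Φ g) y) = y := fun y => by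
      rw [← MulAut.mul_apply, inv_mul_cancel]
      rfl
    rw [h3]

/-- maps of free groups given by words -/
def psG (n m : ℕ) (pm : ℕ → Wd) : FreeGroup (Fin (n + 1)) →* FreeGroup (Fin (m + 1)) :=
  FreeGroup.lift fun i => ev (gx (m + 1)) (pm i)

theorem psG_ev {n m : ℕ} {pm : ℕ → Wd} (hpm : ∀ j, n + 1 ≤ j → pm j = []) (L : Wd) :
    psG n m pm (ev (gx (n + 1)) L) = ev (gx (m + 1)) (sub pm L) := by
  rw [map_ev, ev_sub]
  have e : ∀ j, psG n m pm (gx (n + 1) j) = ev (gx (m + 1)) (pm j) := by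
    intro j
    by_cases hj : j < n + 1
    · rw [gx_lt hj]
      exact FreeGroup.lift_apply_of
    · have e3 : gx (n + 1) j = 1 := dif_neg hj
      rw [e3, map_one, hpm j (by omega), ev_nil]
  exact congrFun (congrArg ev (funext e)) L

theorem mem_Twi {n m : ℕ} {f : A →* Art (CoxeterMatrix.A n)} {Φ : A →* Art (CoxeterMatrix.A m)}
    {pm : ℕ → Wd} (hpm : ∀ j, n + 1 ≤ j → pm j = []) {g : A} (w v : Wd) (hw : ∀ s ∈ w, s.1 < n)
    (hv : ∀ s ∈ v, s.1 < m) (hf : f g = ev (sA n) w) (hΦ : Φ g = ev (sA m) v)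
    (h : ∀ j, j < n + 1 → red (sub pm (act w [(j, true)])) = red (act v (sub pm [(j, true)]))) :
    g ∈ Twi f Φ (psG n m pm) := by
  have h1 : ((psG n m pm).comp (rho n (f g)).toMonoidHom) =
      ((rho m (Φ g)).toMonoidHom.comp (psG n m pm)) := by
    refine FreeGroup.ext_hom _ _ fun i => ?_
    show psG n m pm (rho n (f g) (of i)) = rho m (Φ g) (psG n m pm (of i))
    rw [of_gx, hf, rho_act w hw, psG_ev hpm, psG_ev hpm, hΦ, rho_act v hv, ← ev_red, h i i.isLt,
      ev_red]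
  exact fun x => DFunLike.congr_fun h1 x

/-- The relation with the label `4`. -/
theorem lab4 {b c : A} (h : b * c * b * c = c * b * c * b) :
    b * c * b⁻¹ = c⁻¹ * (b⁻¹ * c * b) * c := by
  rw [mul_inv_eq_iff_eq_mul, ← mul_right_inj (b * c)]
  calc b * c * (b * c) = b * c * b * c := by group
    _ = c * b * c * b := h
    _ = b * c * (c⁻¹ * (b⁻¹ * c * b) * c * b) := by group

theorem lab4' {b c : A} (h : b * c * b * c = c * b * c * b) :
    b⁻¹ * (b⁻¹ * c * b) * b = (b⁻¹ * c * b) * c * (b⁻¹ * c * b)⁻¹ := by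
  have h1 := lab4 h
  obtain ⟨q, hq⟩ : ∃ q, q = b⁻¹ * c * b := ⟨_, rfl⟩
  have h2 : c = q⁻¹ * (b⁻¹ * q * b) * q := by
    have e1 : c = b⁻¹ * (b * c * b⁻¹) * b := by group
    have e2 : b⁻¹ * (c⁻¹ * q * c) * b = (b⁻¹ * c * b)⁻¹ * (b⁻¹ * q * b) * (b⁻¹ * c * b) := by group
    rw [h1, ← hq, e2, ← hq] at e1
    exact e1
  rw [← hq]
  calc b⁻¹ * q * b = q * (q⁻¹ * (b⁻¹ * q * b) * q) * q⁻¹ := by group
    _ = q * c * q⁻¹ := by rw [← h2]

end

end Pool.Agent.Lib.MP_9dbb0e_al.GT
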