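import Pool.Agent.Lib.MP_9dbb0e_al.GT.G2e
import Pool.Agent.Lib.MP_9dbb0e_al.GT.E4
import Pool.Agent.Lib.MP_9dbb0e_al.U

/-!
# Artin groups with three generators which embed in braid groups
-/

set_option autoImplicit false

namespace Pool.Agent.Lib.MP_9dbb0e_al.GT

/-- The five types. -/
theorem triple_embeds {B : Type} (M : CoxeterMatrix B) {a b c : B} (hu : ∀ i, i = a ∨ i = b ∨ i = c)
    (h : (M.M a b = 3 ∧ M.M b c = 3 ∧ M.M a c = 2) ∨ (M.M a b = 3 ∧ M.M b c = 4 ∧ M.M a c = 2) ∨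
      (M.M a b = 3 ∧ M.M b c = 6 ∧ M.M a c = 2) ∨ (M.M a b = 4 ∧ M.M b c = 4 ∧ M.M a c = 2) ∨
      (M.M a b = 3 ∧ M.M b c = 3 ∧ M.M a c = 3)) :
    ∃ (n : ℕ) (F : Art M →* Art (CoxeterMatrix.A n)), Function.Injective F := by
  rcases h with h | h | h | h | h
  · exact ⟨3, A3_embeds M hu h.1 h.2.2 h.2.1⟩
  · exact ⟨3, B3_embeds M hu h.1 h.2.2 h.2.1⟩
  · exact ⟨7, g2_embeds M hu h.1 h.2.2 h.2.1⟩
  · exact ⟨3, C2_embeds M hu h.1 h.2.2 h.2.1⟩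
  · exact ⟨3, A2t_embeds M hu h.1 h.2.2 h.2.1⟩

theorem PA_triple (hb : ∀ n, PA (Art (CoxeterMatrix.A n))) {B : Type} (M : CoxeterMatrix B)
    {a b c : B} (hu : ∀ i, i = a ∨ i = b ∨ i = c)
    (h : (M.M a b = 3 ∧ M.M b c = 3 ∧ M.M a c = 2) ∨ (M.M a b = 3 ∧ M.M b c = 4 ∧ M.M a c = 2) ∨
      (M.M a b = 3 ∧ M.M b c = 6 ∧ M.M a c = 2) ∨ (M.M a b = 4 ∧ M.M b c = 4 ∧ M.M a c = 2) ∨
      (M.M a b = 3 ∧ M.M b c = 3 ∧ M.M a c = 3)) : PA (Art M) := by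
  obtain ⟨n, F, hF⟩ := triple_embeds M hu h
  exact PA_of_injective F hF (hb n)

end Pool.Agent.Lib.MP_9dbb0e_al.GT
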