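import Pool.Agent.Lib.MP_9dbb0e_al.GT.Wd

/-!
# Relations in the braid group on eight strands

Equalities of positive words are checked by giving the positions of the braid moves.
-/

set_option autoImplicit false

namespace Pool.Agent.Lib.MP_9dbb0e_al.GT

/-- the value of a positive word -/
def pv {G : Type*} [Group G] (g : ℕ → G) (L : List ℕ) : G := (L.map g).prod

section

variable {G : Type*} [Group G] (g : ℕ → G)

theorem pv_nil : pv g [] = 1 := rfl

theorem pv_cons (x : ℕ) (L : List ℕ) : pv g (x :: L) = g x * pv g L := by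
  unfold pv
  rw [List.map_cons, List.prod_cons]

theorem pv_append (L L' : List ℕ) : pv g (L ++ L') = pv g L * pv g L' := by
  unfold pv
  rw [List.map_append, List.prod_append]

end

/-- a braid move at the beginning of a word with letters smaller than `n` -/
def mv0 (n : ℕ) : List ℕ → List ℕ
  | x :: y :: t => if x < n ∧ y < n ∧ (x + 1 < y ∨ y + 1 < x) then y :: x :: t else
      match t with
      | z :: t' => if x < n ∧ y < n ∧ z = x ∧ (x + 1 = y ∨ y + 1 = x) then y :: x :: y :: t'
          else x :: y :: z :: t'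
      | [] => [x, y]
  | L => L

/-- a braid move at the position `p` -/
def mv (n : ℕ) (p : ℕ) : List ℕ → List ℕ :=
  Nat.rec (mv0 n) (fun _ ih L => match L with
    | [] => []
    | x :: t => x :: ih t) p

/-- several braid moves -/
def mvs (n : ℕ) : List ℕ → List ℕ → List ℕ
  | [], L => L
  | p :: ps, L => mvs n ps (mv n p L)

section

variable {G : Type*} [Group G] {g : ℕ → G} {n : ℕ}

theorem pv_mv0 (hc : ∀ i j, i < n → j < n → i + 1 < j → g i * g j = g j * g i)
    (hb : ∀ i, i + 1 < n → g i * g (i + 1) * g i = g (i + 1) * g i * g (i + 1)) (L : List ℕ) :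
    pv g (mv0 n L) = pv g L := by
  match L with
  | [] => rfl
  | [x] => rfl
  | x :: y :: t =>
    by_cases h : x < n ∧ y < n ∧ (x + 1 < y ∨ y + 1 < x)
    · have e : mv0 n (x :: y :: t) = y :: x :: t := if_pos h
      rw [e, pv_cons, pv_cons, pv_cons, pv_cons, ← mul_assoc, ← mul_assoc]
      congr 1
      rcases h.2.2 with h1 | h1
      · exact (hc x y h.1 h.2.1 h1).symm
      · exact hc y x h.2.1 h.1 h1
    · match t with
      | [] =>
        have e : mv0 n [x, y] = [x, y] := if_neg h
        rw [e]
      | z :: t' =>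
        by_cases h2 : x < n ∧ y < n ∧ z = x ∧ (x + 1 = y ∨ y + 1 = x)
        · have e : mv0 n (x :: y :: z :: t') = y :: x :: y :: t' := (if_neg h).trans (if_pos h2)
          obtain ⟨hx, hy, hz, h3⟩ := h2
          subst hz
          rw [e]
          simp only [pv_cons]
          rw [← mul_assoc, ← mul_assoc, ← mul_assoc, ← mul_assoc]
          congr 1
          rcases h3 with h3 | h3
          · subst h3
            exact (hb _ hy).symm
          · subst h3
            exact hb _ hx
        · have e : mv0 n (x :: y :: z :: t') = x :: y :: z :: t' := (if_neg h).trans (if_neg h2)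
          rw [e]

theorem pv_mv (hc : ∀ i j, i < n → j < n → i + 1 < j → g i * g j = g j * g i)
    (hb : ∀ i, i + 1 < n → g i * g (i + 1) * g i = g (i + 1) * g i * g (i + 1)) (p : ℕ) :
    ∀ L : List ℕ, pv g (mv n p L) = pv g L := by
  induction p with
  | zero => exact pv_mv0 hc hb
  | succ p ih =>
    intro L
    match L with
    | [] => rfl
    | x :: t =>
      show pv g (x :: mv n p t) = pv g (x :: t)
      rw [pv_cons, pv_cons, ih]

theorem pv_mvs (hc : ∀ i j, i < n → j < n → i + 1 < j → g i * g j = g j * g i)
    (hb : ∀ i, i + 1 < n → g i * g (i + 1) * g i = g (i + 1) * g i * g (i + 1)) (ps : List ℕ) :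
    ∀ L : List ℕ, pv g (mvs n ps L) = pv g L := by
  induction ps with
  | nil => intro L; rfl
  | cons p ps ih =>
    intro L
    show pv g (mvs n ps (mv n p L)) = pv g L
    rw [ih, pv_mv hc hb]

end

theorem sA_comm {n : ℕ} (i j : ℕ) (hi : i < n) (hj : j < n) (h : i + 1 < j) :
    sA n i * sA n j = sA n j * sA n i := by
  rw [sA_lt hi, sA_lt hj]
  exact comm_A n _ _ h

theorem sA_braid {n : ℕ} (i : ℕ) (h : i + 1 < n) :
    sA n i * sA n (i + 1) * sA n i = sA n (i + 1) * sA n i * sA n (i + 1) := by
  rw [sA_lt (by omega), sA_lt h]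
  exact braid_A n _ _ rfl

/-- Equality of positive words in the braid group. -/
theorem sA_mvs {n : ℕ} (ps L L' : List ℕ) (h : mvs n ps L = L') : pv (sA n) L = pv (sA n) L' := by
  rw [← h, pv_mvs (fun i j hi hj hij => sA_comm i j hi hj hij) (fun i hi => sA_braid i hi)]

end Pool.Agent.Lib.MP_9dbb0e_al.GT
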