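import Pool.Agent.Lib.MP_9dbb0e_al.GT.FG
import Pool.Agent.Lib.MP_9dbb0e_al.A1

/-!
# The Artin representation

* `tw p q`: the automorphism `x_p ↦ x_p x_q x_p⁻¹`, `x_q ↦ x_p` of `FreeGroup α`.
* `exists_rho`: the Artin representation of the Artin group of type `A_n` on `FreeGroup (Fin (n + 1))`.
-/

set_option autoImplicit false

namespace Pool.Agent.Lib.MP_9dbb0e_al.GT

open FreeGroup (of)

section

variable {α : Type} [DecidableEq α]

/-- `x_p ↦ x_p x_q x_p⁻¹`, `x_q ↦ x_p` -/
def twF (p q : α) : FreeGroup α →* FreeGroup α :=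
  FreeGroup.lift fun i => if i = p then of p * of q * (of p)⁻¹ else if i = q then of p else of i

/-- `x_p ↦ x_q`, `x_q ↦ x_q⁻¹ x_p x_q` -/
def twG (p q : α) : FreeGroup α →* FreeGroup α :=
  FreeGroup.lift fun i => if i = p then of q else if i = q then (of q)⁻¹ * of p * of q else of i

theorem twF_p (p q : α) : twF p q (of p) = of p * of q * (of p)⁻¹ := by
  unfold twF
  rw [FreeGroup.lift_apply_of, if_pos rfl]

theorem twF_q {p q : α} (h : q ≠ p) : twF p q (of q) = of p := by
  unfold twF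
  rw [FreeGroup.lift_apply_of, if_neg h, if_pos rfl]

theorem twF_ne {p q i : α} (hp : i ≠ p) (hq : i ≠ q) : twF p q (of i) = of i := by
  unfold twF
  rw [FreeGroup.lift_apply_of, if_neg hp, if_neg hq]

theorem twG_p (p q : α) : twG p q (of p) = of q := by
  unfold twG
  rw [FreeGroup.lift_apply_of, if_pos rfl]

theorem twG_q {p q : α} (h : q ≠ p) : twG p q (of q) = (of q)⁻¹ * of p * of q := by
  unfold twG
  rw [FreeGroup.lift_apply_of, if_neg h, if_pos rfl]

theorem twG_ne {p q i : α} (hp : i ≠ p) (hq : i ≠ q) : twG p q (of i) = of i := by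
  unfold twG
  rw [FreeGroup.lift_apply_of, if_neg hp, if_neg hq]

theorem tw_left {p q : α} (h : q ≠ p) : (twG p q).comp (twF p q) = MonoidHom.id _ := by
  refine FreeGroup.ext_hom _ _ fun i => ?_
  rw [MonoidHom.comp_apply, MonoidHom.id_apply]
  by_cases hp : i = p
  · rw [hp, twF_p, map_mul, map_mul, map_inv, twG_p, twG_q h]
    group
  · by_cases hq : i = q
    · rw [hq, twF_q h, twG_p]
    · rw [twF_ne hp hq, twG_ne hp hq]

theorem tw_right {p q : α} (h : q ≠ p) : (twF p q).comp (twG p q) = MonoidHom.id _ := by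
  refine FreeGroup.ext_hom _ _ fun i => ?_
  rw [MonoidHom.comp_apply, MonoidHom.id_apply]
  by_cases hp : i = p
  · rw [hp, twG_p, twF_q h]
  · by_cases hq : i = q
    · rw [hq, twG_q h, map_mul, map_mul, map_inv, twF_p, twF_q h]
      group
    · rw [twG_ne hp hq, twF_ne hp hq]

/-- the automorphism `x_p ↦ x_p x_q x_p⁻¹`, `x_q ↦ x_p` -/
def tw (p q : α) (h : q ≠ p) : MulAut (FreeGroup α) :=
  MonoidHom.toMulEquiv (twF p q) (twG p q) (tw_left h) (tw_right h)

theorem tw_apply {p q : α} (h : q ≠ p) (x : FreeGroup α) : tw p q h x = twF p q x := rfl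

theorem tw_inv_apply {p q : α} (h : q ≠ p) (x : FreeGroup α) : (tw p q h)⁻¹ x = twG p q x := rfl

omit [DecidableEq α] in
theorem aut_ext {β β' : MulAut (FreeGroup α)} (h : ∀ i, β (of i) = β' (of i)) : β = β' := by
  have h1 : β.toMonoidHom = β'.toMonoidHom := FreeGroup.ext_hom _ _ h
  exact MulEquiv.ext fun x => DFunLike.congr_fun h1 x

theorem tw_comm {p q r s : α} (h1 : q ≠ p) (h2 : s ≠ r) (hpr : p ≠ r) (hps : p ≠ s)
    (hqr : q ≠ r) (hqs : q ≠ s) : tw p q h1 * tw r s h2 = tw r s h2 * tw p q h1 := by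
  refine aut_ext fun i => ?_
  rw [MulAut.mul_apply, MulAut.mul_apply, tw_apply, tw_apply, tw_apply, tw_apply]
  by_cases hp : i = p
  · rw [hp, twF_ne hpr hps, twF_p, map_mul, map_mul, map_inv, twF_ne hpr hps, twF_ne hqr hqs]
  · by_cases hq : i = q
    · rw [hq, twF_ne hqr hqs, twF_q h1, twF_ne hpr hps]
    · rw [twF_ne hp hq]
      by_cases hr : i = r
      · rw [hr, twF_p, map_mul, map_mul, map_inv, twF_ne hpr.symm hqr.symm, twF_ne hps.symm hqs.symm]
      · by_cases hs : i = s
        · rw [hs, twF_q h2, twF_ne hpr.symm hqr.symm]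
        · rw [twF_ne hr hs, twF_ne hp hq]

theorem tw_braid {p q r : α} (h1 : q ≠ p) (h2 : r ≠ q) (hpr : r ≠ p) :
    tw p q h1 * tw q r h2 * tw p q h1 = tw q r h2 * tw p q h1 * tw q r h2 := by
  refine aut_ext fun i => ?_
  rw [MulAut.mul_apply, MulAut.mul_apply, MulAut.mul_apply, MulAut.mul_apply]
  simp only [tw_apply]
  by_cases hp : i = p
  · subst hp
    simp only [twF_p, twF_q h1, twF_ne hpr h2, twF_ne h1.symm hpr.symm, map_mul, map_inv]
    group
  · by_cases hq : i = q
    · subst hq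
      have e1 : twF p i (of i * of r * (of i)⁻¹) = of p * of r * (of p)⁻¹ := by
        rw [map_mul, map_mul, map_inv, twF_q h1, twF_ne hpr h2]
      have e2 : twF i r (of p * of r * (of p)⁻¹) = of p * of i * (of p)⁻¹ := by
        rw [map_mul, map_mul, map_inv, twF_q h2, twF_ne h1.symm hpr.symm]
      rw [twF_q h1, twF_ne h1.symm hpr.symm, twF_p, twF_p, e1, e2]
    · by_cases hr : i = r
      · subst hr
        simp only [twF_q h1, twF_q h2, twF_ne hpr h2, twF_ne h1.symm hpr.symm]
      · rw [twF_ne hp hq, twF_ne hq hr, twF_ne hp hq, twF_ne hq hr]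

end

theorem alt_three {G : Type*} [Monoid G] (a b : G) : alt a b 3 = a * b * a := by
  rw [alt_succ, alt_two, if_pos (by decide)]

theorem alt_four {G : Type*} [Monoid G] (a b : G) : alt a b 4 = a * b * a * b := by
  rw [alt_succ, alt_three, if_neg (by decide)]

theorem alt_six {G : Type*} [Monoid G] (a b : G) : alt a b 6 = a * b * a * b * a * b := by
  rw [alt_succ, alt_succ, alt_four, if_pos (by decide), if_neg (by decide)]

/-- The relations of type `A_n`. -/
theorem lift_A (n : ℕ) {G : Type*} [Group G] (f : Fin n → G)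
    (h3 : ∀ i j : Fin n, (i : ℕ) + 1 = j → f i * f j * f i = f j * f i * f j)
    (h2 : ∀ i j : Fin n, (i : ℕ) + 1 < j → f i * f j = f j * f i) :
    ∃ F : Art (CoxeterMatrix.A n) →* G, ∀ i, F (σ (CoxeterMatrix.A n) i) = f i := by
  refine exists_lift _ f fun i j hij _ => ?_
  have hM : (CoxeterMatrix.A n).M i j =
      if (j : ℕ) + 1 = i ∨ (i : ℕ) + 1 = j then 3 else 2 := by
    show (if i = j then 1 else (if (j : ℕ) + 1 = i ∨ (i : ℕ) + 1 = j then 3 else 2)) = _
    rw [if_neg hij]
  rw [hM]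
  have hne : (i : ℕ) ≠ j := fun h => hij (Fin.ext h)
  by_cases h : (j : ℕ) + 1 = i ∨ (i : ℕ) + 1 = j
  · rw [if_pos h, alt_three, alt_three]
    rcases h with h | h
    · exact (h3 j i h).symm
    · exact h3 i j h
  · rw [if_neg h, alt_two, alt_two]
    rw [not_or] at h
    rcases Nat.lt_or_gt_of_ne hne with h1 | h1
    · exact h2 i j (by omega)
    · exact (h2 j i (by omega)).symm

theorem braid_A (n : ℕ) (i j : Fin n) (h : (i : ℕ) + 1 = j) :
    σ (CoxeterMatrix.A n) i * σ (CoxeterMatrix.A n) j * σ (CoxeterMatrix.A n) i =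
      σ (CoxeterMatrix.A n) j * σ (CoxeterMatrix.A n) i * σ (CoxeterMatrix.A n) j := by
  have hij : i ≠ j := by
    rintro rfl
    omega
  have hM : (CoxeterMatrix.A n).M i j = 3 := by
    show (if i = j then 1 else (if (j : ℕ) + 1 = i ∨ (i : ℕ) + 1 = j then 3 else 2)) = 3
    rw [if_neg hij, if_pos (Or.inr h)]
  have h1 := braid (CoxeterMatrix.A n) i j hij (by rw [hM]; decide)
  rw [hM, alt_three, alt_three] at h1
  exact h1

theorem comm_A (n : ℕ) (i j : Fin n) (h : (i : ℕ) + 1 < j) :
    σ (CoxeterMatrix.A n) i * σ (CoxeterMatrix.A n) j =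
      σ (CoxeterMatrix.A n) j * σ (CoxeterMatrix.A n) i := by
  have hij : i ≠ j := by
    rintro rfl
    omega
  have hM : (CoxeterMatrix.A n).M i j = 2 := by
    show (if i = j then 1 else (if (j : ℕ) + 1 = i ∨ (i : ℕ) + 1 = j then 3 else 2)) = 2
    rw [if_neg hij, if_neg (by omega)]
  have h1 := braid (CoxeterMatrix.A n) i j hij (by rw [hM]; decide)
  rw [hM, alt_two, alt_two] at h1
  exact h1

theorem exists_rho (n : ℕ) : ∃ ρ : Art (CoxeterMatrix.A n) →* MulAut (FreeGroup (Fin (n + 1))),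
    ∀ i, ρ (σ (CoxeterMatrix.A n) i) = tw i.castSucc i.succ (Fin.castSucc_lt_succ (i := i)).ne' := by
  refine lift_A n _ (fun i j hij => ?_) (fun i j hij => ?_)
  · have e : j.castSucc = i.succ := by
      apply Fin.ext
      rw [Fin.val_castSucc, Fin.val_succ, hij]
    have h := tw_braid (p := i.castSucc) (q := i.succ) (r := j.succ)
      (Fin.castSucc_lt_succ (i := i)).ne' (by
        intro h0
        have := congrArg Fin.val h0
        rw [Fin.val_succ, Fin.val_succ] at this
        omega) (by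
        intro h0
        have := congrArg Fin.val h0
        rw [Fin.val_succ, Fin.val_castSucc] at this
        omega)
    simp only [e]
    exact h
  · refine tw_comm _ _ ?_ ?_ ?_ ?_ <;>
    · intro h0
      have := congrArg Fin.val h0
      simp only [Fin.val_succ, Fin.val_castSucc] at this
      omega

/-- The Artin representation. -/
noncomputable def rho (n : ℕ) : Art (CoxeterMatrix.A n) →* MulAut (FreeGroup (Fin (n + 1))) :=
  (exists_rho n).choose

theorem rho_σ (n : ℕ) (i : Fin n) : rho n (σ (CoxeterMatrix.A n) i) =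
    tw i.castSucc i.succ (Fin.castSucc_lt_succ (i := i)).ne' := (exists_rho n).choose_spec i

end Pool.Agent.Lib.MP_9dbb0e_al.GT
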