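import Pool.Agent.Lib.MP_9dbb0e_al.GT.Rho

/-!
# Computation with words

`(i, true)` stands for the generator `i`, `(i, false)` for its inverse. `ev g L` is the value of the word `L`
if the generators have the values `g`. `act w L` is the (reduced) image of the word `L` of the free group
under the Artin action of the braid word `w`.
-/

set_option autoImplicit false

namespace Pool.Agent.Lib.MP_9dbb0e_al.GT

open FreeGroup (of)

/-- words -/
abbrev Wd : Type := List (ℕ × Bool)

section

variable {G : Type*} [Group G]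

/-- the value of a letter -/
def lt (g : ℕ → G) (p : ℕ × Bool) : G := if p.2 then g p.1 else (g p.1)⁻¹

/-- the value of a word -/
def ev (g : ℕ → G) : Wd → G
  | [] => 1
  | p :: L => lt g p * ev g L

theorem ev_nil (g : ℕ → G) : ev g [] = 1 := rfl

theorem ev_cons (g : ℕ → G) (p : ℕ × Bool) (L : Wd) : ev g (p :: L) = lt g p * ev g L := rfl

theorem ev_append (g : ℕ → G) (L L' : Wd) : ev g (L ++ L') = ev g L * ev g L' := by
  induction L with
  | nil => rw [List.nil_append, ev_nil, one_mul]
  | cons p L ih => rw [List.cons_append, ev_cons, ev_cons, ih, mul_assoc]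

theorem ev_single (g : ℕ → G) (p : ℕ × Bool) : ev g [p] = lt g p := by
  rw [ev_cons, ev_nil, mul_one]

/-- the inverse word -/
def wi (L : Wd) : Wd := (L.map fun p => (p.1, !p.2)).reverse

theorem lt_not (g : ℕ → G) (p : ℕ × Bool) : lt g (p.1, !p.2) = (lt g p)⁻¹ := by
  obtain ⟨i, b⟩ := p
  cases b <;> simp [lt]

theorem ev_wi (g : ℕ → G) (L : Wd) : ev g (wi L) = (ev g L)⁻¹ := by
  induction L with
  | nil => simp [wi, ev_nil]
  | cons p L ih =>
    have h : wi (p :: L) = wi L ++ [(p.1, !p.2)] := by simp [wi]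
    rw [h, ev_append, ih, ev_single, lt_not, ev_cons, mul_inv_rev]

theorem map_ev {H : Type*} [Group H] (f : G →* H) (g : ℕ → G) (L : Wd) :
    f (ev g L) = ev (fun i => f (g i)) L := by
  induction L with
  | nil => rw [ev_nil, ev_nil, map_one]
  | cons p L ih =>
    rw [ev_cons, ev_cons, map_mul, ih]
    congr 1
    obtain ⟨i, b⟩ := p
    cases b <;> simp [lt]

/-- put a letter in front of a word, with cancellation -/
def rc (p : ℕ × Bool) : Wd → Wd
  | [] => [p]
  | q :: t => if q.1 = p.1 ∧ q.2 = !p.2 then t else p :: q :: t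

theorem ev_rc (g : ℕ → G) (p : ℕ × Bool) (L : Wd) : ev g (rc p L) = lt g p * ev g L := by
  cases L with
  | nil => rfl
  | cons q t =>
    show ev g (if q.1 = p.1 ∧ q.2 = !p.2 then t else p :: q :: t) = lt g p * ev g (q :: t)
    by_cases h : q.1 = p.1 ∧ q.2 = !p.2
    · rw [if_pos h, ev_cons]
      have hq : q = (p.1, !p.2) := Prod.ext h.1 h.2
      rw [hq, lt_not, mul_inv_cancel_left]
    · rw [if_neg h, ev_cons]

/-- multiplication of a word with a reduced word on the right -/
def rm (L L' : Wd) : Wd := L.foldr rc L'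

theorem ev_rm (g : ℕ → G) (L L' : Wd) : ev g (rm L L') = ev g L * ev g L' := by
  unfold rm
  induction L with
  | nil => rw [List.foldr_nil, ev_nil, one_mul]
  | cons p L ih => rw [List.foldr_cons, ev_rc, ih, ev_cons, mul_assoc]

/-- the reduced word -/
def red (L : Wd) : Wd := rm L []

theorem ev_red (g : ℕ → G) (L : Wd) : ev g (red L) = ev g L := by
  unfold red
  rw [ev_rm, ev_nil, mul_one]

end

/-- the image of a letter under the Artin action of a letter -/
def sl (s : ℕ × Bool) (p : ℕ × Bool) : Wd :=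
  if s.2 then
    (if p.1 = s.1 then [(s.1, true), (s.1 + 1, p.2), (s.1, false)]
      else if p.1 = s.1 + 1 then [(s.1, p.2)] else [p])
  else
    (if p.1 = s.1 then [(s.1 + 1, p.2)]
      else if p.1 = s.1 + 1 then [(s.1 + 1, false), (s.1, p.2), (s.1 + 1, true)] else [p])

/-- the image of a word under the Artin action of a letter -/
def al (s : ℕ × Bool) (L : Wd) : Wd := L.foldr (fun p acc => rm (sl s p) acc) []

/-- the image of a word under the Artin action of a braid word -/
def act (w : Wd) (L : Wd) : Wd := w.foldr al L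

/-- the generators of the free group of rank `n` -/
def gx (n : ℕ) (j : ℕ) : FreeGroup (Fin n) := if h : j < n then of ⟨j, h⟩ else 1

/-- the generators of the braid group -/
noncomputable def sA (n : ℕ) (i : ℕ) : Art (CoxeterMatrix.A n) :=
  if h : i < n then σ (CoxeterMatrix.A n) ⟨i, h⟩ else 1

theorem gx_lt {n j : ℕ} (h : j < n) : gx n j = of ⟨j, h⟩ := dif_pos h

theorem sA_lt {n j : ℕ} (h : j < n) : sA n j = σ (CoxeterMatrix.A n) ⟨j, h⟩ := dif_pos h

theorem rho_gx {n i : ℕ} (hi : i < n) (j : ℕ) :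
    rho n (sA n i) (gx (n + 1) j) =
      if j = i then gx (n + 1) i * gx (n + 1) (i + 1) * (gx (n + 1) i)⁻¹
        else if j = i + 1 then gx (n + 1) i else gx (n + 1) j := by
  rw [sA_lt hi, rho_σ, tw_apply]
  have e1 : gx (n + 1) i = of (Fin.castSucc ⟨i, hi⟩) := gx_lt (by omega)
  have e2 : gx (n + 1) (i + 1) = of (Fin.succ ⟨i, hi⟩) := gx_lt (by omega)
  by_cases h1 : j = i
  · rw [if_pos h1, h1, e1, e2, twF_p]
  · rw [if_neg h1]
    by_cases h2 : j = i + 1
    · rw [if_pos h2, h2, e1, e2, twF_q (Fin.castSucc_lt_succ (i := (⟨i, hi⟩ : Fin n))).ne']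
    · rw [if_neg h2]
      by_cases h3 : j < n + 1
      · rw [gx_lt h3, twF_ne]
        · intro h
          exact h1 (congrArg Fin.val h)
        · intro h
          exact h2 (congrArg Fin.val h)
      · have e3 : gx (n + 1) j = 1 := dif_neg h3
        rw [e3, map_one]

theorem rho_inv_gx {n i : ℕ} (hi : i < n) (j : ℕ) :
    (rho n (sA n i))⁻¹ (gx (n + 1) j) =
      if j = i then gx (n + 1) (i + 1)
        else if j = i + 1 then (gx (n + 1) (i + 1))⁻¹ * gx (n + 1) i * gx (n + 1) (i + 1)
        else gx (n + 1) j := by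
  rw [sA_lt hi, rho_σ, tw_inv_apply]
  have e1 : gx (n + 1) i = of (Fin.castSucc ⟨i, hi⟩) := gx_lt (by omega)
  have e2 : gx (n + 1) (i + 1) = of (Fin.succ ⟨i, hi⟩) := gx_lt (by omega)
  by_cases h1 : j = i
  · rw [if_pos h1, h1, e1, e2, twG_p]
  · rw [if_neg h1]
    by_cases h2 : j = i + 1
    · rw [if_pos h2, h2, e1, e2, twG_q (Fin.castSucc_lt_succ (i := (⟨i, hi⟩ : Fin n))).ne']
    · rw [if_neg h2]
      by_cases h3 : j < n + 1
      · rw [gx_lt h3, twG_ne]
        · intro h
          exact h1 (congrArg Fin.val h)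
        · intro h
          exact h2 (congrArg Fin.val h)
      · have e3 : gx (n + 1) j = 1 := dif_neg h3
        rw [e3, map_one]

theorem rho_lt {n : ℕ} (s : ℕ × Bool) (hs : s.1 < n) (p : ℕ × Bool) :
    rho n (lt (sA n) s) (lt (gx (n + 1)) p) = ev (gx (n + 1)) (sl s p) := by
  obtain ⟨i, b⟩ := s
  obtain ⟨j, c⟩ := p
  have hs' : i < n := hs
  cases b with
  | true =>
    have e : lt (sA n) (i, true) = sA n i := by simp [lt]
    rw [e]
    have h := rho_gx hs' j
    cases c with
    | true =>
      have e' : lt (gx (n + 1)) (j, true) = gx (n + 1) j := by simp [lt]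
      rw [e', h]
      unfold sl
      by_cases h1 : j = i
      · simp [h1, ev_cons, ev_nil, lt, mul_assoc]
      · by_cases h2 : j = i + 1
        · simp [h2, ev_cons, ev_nil, lt]
        · simp [h1, h2, ev_cons, ev_nil, lt]
    | false =>
      have e' : lt (gx (n + 1)) (j, false) = (gx (n + 1) j)⁻¹ := by simp [lt]
      rw [e', map_inv, h]
      unfold sl
      by_cases h1 : j = i
      · simp [h1, ev_cons, ev_nil, lt, mul_assoc]
      · by_cases h2 : j = i + 1
        · simp [h2, ev_cons, ev_nil, lt]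
        · simp [h1, h2, ev_cons, ev_nil, lt]
  | false =>
    have e : lt (sA n) (i, false) = (sA n i)⁻¹ := by simp [lt]
    rw [e, map_inv]
    have h := rho_inv_gx hs' j
    cases c with
    | true =>
      have e' : lt (gx (n + 1)) (j, true) = gx (n + 1) j := by simp [lt]
      rw [e', h]
      unfold sl
      by_cases h1 : j = i
      · simp [h1, ev_cons, ev_nil, lt]
      · by_cases h2 : j = i + 1
        · simp [h2, ev_cons, ev_nil, lt, mul_assoc]
        · simp [h1, h2, ev_cons, ev_nil, lt]
    | false =>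
      have e' : lt (gx (n + 1)) (j, false) = (gx (n + 1) j)⁻¹ := by simp [lt]
      rw [e', map_inv, h]
      unfold sl
      by_cases h1 : j = i
      · simp [h1, ev_cons, ev_nil, lt]
      · by_cases h2 : j = i + 1
        · simp [h2, ev_cons, ev_nil, lt, mul_assoc]
        · simp [h1, h2, ev_cons, ev_nil, lt]

theorem rho_al {n : ℕ} (s : ℕ × Bool) (hs : s.1 < n) (L : Wd) :
    rho n (lt (sA n) s) (ev (gx (n + 1)) L) = ev (gx (n + 1)) (al s L) := by
  unfold al
  induction L with
  | nil => rw [ev_nil, map_one]; rfl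
  | cons p L ih => rw [ev_cons, map_mul, ih, rho_lt s hs, List.foldr_cons, ev_rm]

/-- The action of a braid word, computed. -/
theorem rho_act {n : ℕ} (w : Wd) (hw : ∀ s ∈ w, s.1 < n) (L : Wd) :
    rho n (ev (sA n) w) (ev (gx (n + 1)) L) = ev (gx (n + 1)) (act w L) := by
  unfold act
  induction w with
  | nil => rw [ev_nil, map_one]; rfl
  | cons s w ih =>
    rw [ev_cons, map_mul, MulAut.mul_apply, ih (fun q hq => hw q (List.mem_cons_of_mem _ hq)),
      List.foldr_cons, rho_al s (hw s (List.mem_cons_self))]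

/-- Two braid words with the same action on the generators have the same action. -/
theorem rho_eq {n : ℕ} (w w' : Wd) (hw : ∀ s ∈ w, s.1 < n) (hw' : ∀ s ∈ w', s.1 < n)
    (h : ∀ i, i < n + 1 → act w [(i, true)] = act w' [(i, true)]) :
    rho n (ev (sA n) w) = rho n (ev (sA n) w') := by
  refine aut_ext fun i => ?_
  have e : of i = ev (gx (n + 1)) [((i : ℕ), true)] := by
    rw [ev_single]
    unfold lt
    rw [if_pos rfl, gx_lt i.isLt]
  rw [e, rho_act w hw, rho_act w' hw', h i i.isLt]

/-- delete a letter -/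
def kw (a : ℕ) (L : Wd) : Wd := L.filter fun p => decide (p.1 ≠ a)

theorem kill_ev {n a : ℕ} (ha : a < n) (L : Wd) :
    kill (⟨a, ha⟩ : Fin n) (ev (gx n) L) = ev (gx n) (kw a L) := by
  induction L with
  | nil => rw [ev_nil, map_one]; rfl
  | cons p L ih =>
    rw [ev_cons, map_mul, ih]
    obtain ⟨j, b⟩ := p
    by_cases h : j = a
    · have h1 : kw a ((j, b) :: L) = kw a L := by
        unfold kw
        rw [List.filter_cons_of_neg]
        simp [h]
      have h2 : kill (⟨a, ha⟩ : Fin n) (gx n j) = 1 := by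
        rw [h, gx_lt ha, kill_self]
      have h3 : kill (⟨a, ha⟩ : Fin n) (lt (gx n) (j, b)) = 1 := by
        cases b <;> simp [lt, h2]
      rw [h1, h3, one_mul]
    · have h1 : kw a ((j, b) :: L) = (j, b) :: kw a L := by
        unfold kw
        rw [List.filter_cons_of_pos]
        simp [h]
      have h2 : kill (⟨a, ha⟩ : Fin n) (gx n j) = gx n j := by
        by_cases hj : j < n
        · rw [gx_lt hj, kill_ne]
          intro h4
          exact h (congrArg Fin.val h4)
        · have e3 : gx n j = 1 := dif_neg hj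
          rw [e3, map_one]
      have h3 : kill (⟨a, ha⟩ : Fin n) (lt (gx n) (j, b)) = lt (gx n) (j, b) := by
        cases b <;> simp [lt, h2]
      rw [h1, h3, ev_cons]

/-- Computation of pushes. -/
theorem push_word {n a : ℕ} (ha : a < n + 1) (S : Subgroup (FreeGroup (Fin (n + 1)))) (w W U : Wd)
    (hU : ev (gx (n + 1)) U ∈ S) (hw : ∀ s ∈ w, s.1 < n)
    (h1 : act w [(a, true)] = red (W ++ (a, true) :: wi W))
    (h2 : ∀ i, i < n + 1 → i ≠ a → red (kw a (act w [(i, true)])) = red (U ++ (i, true) :: wi U)) :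
    Push S ⟨a, ha⟩ (rho n (ev (sA n) w)) ((ev (gx (n + 1)) (kw a W))⁻¹ * ev (gx (n + 1)) U) := by
  have e : ∀ (i : ℕ) (hi : i < n + 1), of (⟨i, hi⟩ : Fin (n + 1)) = ev (gx (n + 1)) [(i, true)] := by
    intro i hi
    rw [ev_single]
    unfold lt
    rw [if_pos rfl, gx_lt hi]
  have e2 : ∀ (i : ℕ) (hi : i < n + 1) (L : Wd), ev (gx (n + 1)) (L ++ (i, true) :: wi L) =
      ev (gx (n + 1)) L * of (⟨i, hi⟩ : Fin (n + 1)) * (ev (gx (n + 1)) L)⁻¹ := by
    intro i hi L
    rw [ev_append, ev_cons, ev_wi, ← mul_assoc]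
    congr 2
    unfold lt
    rw [if_pos rfl, gx_lt hi]
  rw [← kill_ev ha]
  refine Push.of_gens _ _ hU ?_ ?_
  · rw [e a ha, rho_act w hw, h1, ev_red, e2 a ha, ← e a ha]
  · rintro ⟨i, hi⟩ hia
    have hia' : i ≠ a := fun h => hia (Fin.ext h)
    rw [e i hi, rho_act w hw, kill_ev ha, ← ev_red, h2 i hi hia', ev_red, e2 i hi, ← e i hi]

end Pool.Agent.Lib.MP_9dbb0e_al.GT
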